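import Mathlib.Topology.Sheaves.Presheaf
import Mathlib.Data.Int.Star
import Mathlib.Algebra.Order.Ring.Star
import Mathlib.RingTheory.PicardGroup
import Mathlib.Algebra.Order.Star.Real
import Mathlib.Algebra.Polynomial.Bivariate
import Mathlib.RingTheory.Polynomial.DegreeLT
import Mathlib.RingTheory.Polynomial.GaussNorm
import Mathlib.NumberTheory.Height.NumberField
import Mathlib.RingTheory.SimpleRing.Principal
import Mathlib.RingTheory.Henselian
import Mathlib.RingTheory.RegularLocalRing.Defs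
import Mathlib.Tactic.Polynomial.Basic

-- ======== part 0: formerly Pool.Agent.MP_c8dfda_nt.Spec
section MrgPart0

/-
Statements of the rows of the project on triangular polynomial maps of the affine plane.
Every row proves one theorem whose type is one of the propositions below.
-/

open Polynomial Filter Height
open scoped Polynomial.Bivariate Topology

namespace Pool.Agent.KSkew

/-- `x, y` is an orbit of the map `(a, b) ↦ (p a, q (a, b))`. -/
def Orb {K : Type} [Field K] (p : K[X]) (q : K[X][Y]) (x y : ℕ → K) : Prop :=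
  (∀ n, x (n + 1) = p.eval (x n)) ∧ ∀ n, y (n + 1) = q.evalEval (x n) (y n)

/-- The points `(x n, y n)` are Zariski dense in the plane. -/
def ZDense {K : Type} [Field K] (x y : ℕ → K) : Prop :=
  ∀ P : K[X][Y], (∀ n, P.evalEval (x n) (y n) = 0) → P = 0

/-- A nonprincipal ultrafilter all of whose members recur. -/
def RecU (U : Ultrafilter ℕ) : Prop :=
  (U : Filter ℕ) ≤ atTop ∧ ∀ A ∈ U, ∃ h : ℕ, 1 ≤ h ∧ {n | n + h ∈ A} ∈ U

/-- The limit system: a field `M` with finitely many absolute values, trivial on `K`, and a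
two sided orbit. -/
structure GSys {K M ι : Type} [Field K] [Field M] [Algebra K M] [Fintype ι]
    (p : K[X]) (q : K[X][Y]) (N : ι → AbsoluteValue M ℝ) (x y : ℤ → M) : Prop where
  na : ∀ i, IsNonarchimedean (N i)
  triv : ∀ i (c : K), c ≠ 0 → N i (algebraMap K M c) = 1
  recx : ∀ j, x (j + 1) = aeval (x j) p
  recy : ∀ j, y (j + 1) = aevalAeval (x j) (y j) q
  ind : ∀ P : K[X][Y], aevalAeval (x 0) (y 0) P = 0 → P = 0
  trans : ∀ j (R : K[X]), aeval (x j) R = 0 → R = 0
  pf : ∀ j (P : K[X][Y]), aevalAeval (x j) (y j) P ≠ 0 →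
    1 ≤ ∏ i, N i (aevalAeval (x j) (y j) P)
  unit : ∀ l : K, p = C l * X ^ p.natDegree → ∏ i, N i (x 0) ≤ 1
  grow : ∃ c : ℝ, ∀ i (j : ℕ), N i (y j) ≤ Real.exp (c * (p.natDegree : ℝ) ^ j)
  big : ∃ i, 1 < N i (x 0)
  recur : ∀ i j (R : K[X]), N i (aeval (x j) R) < 1 →
    ∃ h : ℕ, 1 ≤ h ∧ N i (aeval (x (j + h)) R) < 1
  inj : ∀ j (h : ℕ), 1 ≤ h → x (j + h) ≠ x j

/-- Row UF, first part. -/
def S_UF : Prop := ∃ U : Ultrafilter ℕ, RecU U

/-- Row UF, second part: the first coordinate of a dense orbit is injective. -/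
def S_INJ : Prop :=
  ∀ (K : Type) [Field K] (p : K[X]) (q : K[X][Y]) (x y : ℕ → K),
    Orb p q x y → ZDense x y → Function.Injective x

/-- Row UF, third part: weak dynamical Mordell-Lang. -/
def S_WDML : Prop :=
  ∀ (K : Type) [Field K] (p : K[X]) (q : K[X][Y]) (x y : ℕ → K) (U : Ultrafilter ℕ),
    Orb p q x y → ZDense x y → RecU U →
    ∀ P : K[X][Y], (∀ᶠ n in (U : Filter ℕ), P.evalEval (x n) (y n) = 0) → P = 0

/-- Row HQ: two sided height bounds for a polynomial in two variables. -/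
def S_HQ : Prop :=
  ∀ (K : Type) [Field K] [NumberField K] (q : K[X][Y]), ∃ c : ℝ, 0 ≤ c ∧ ∀ a b : K,
    logHeight₁ (q.evalEval a b) ≤ q.natDegree * logHeight₁ b + c * (logHeight₁ a + 1) ∧
    (q.leadingCoeff.eval a ≠ 0 →
      q.natDegree * logHeight₁ b ≤ logHeight₁ (q.evalEval a b) + c * (logHeight₁ a + 1))

/-- Row NORTH: the rigid case ends by the Northcott property. -/
def S_NORTH : Prop :=
  ∀ (K : Type) [Field K] [NumberField K] (d d₁ e : ℕ) (l : K) (β : ℕ → K) (m : ℕ → ℤ)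
    (t z : ℕ → K), 1 ≤ d₁ → d₁ < d → l ≠ 0 → (∀ n, t n ≠ 0) →
    (∀ n, t (n + 1) = l * t n ^ d₁) → β d ≠ 0 →
    (∀ i ≤ d, β i ≠ 0 → ((d : ℤ) - d₁) * m i = e * ((i : ℤ) - d₁)) →
    (∀ n, z (n + 1) = ∑ i ∈ Finset.range (d + 1), β i * t n ^ m i * z n ^ i) →
    (∃ c : ℝ, ∀ n, logHeight₁ (z n) + logHeight₁ (t n) ≤ c * (n + 1) * (d₁ : ℝ) ^ n) →
    (Set.range fun n => z n ^ (d - d₁) * t n ^ e).Finite

/-- Row GS: construction of the limit system. -/
def S_GS : Prop :=
  ∀ (K : Type) [Field K] [NumberField K] (p : K[X]) (q : K[X][Y]) (x y : ℕ → K),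
    Orb p q x y → ZDense x y → 1 ≤ p.natDegree →
    (∃ c : ℝ, ∀ n, logHeight₁ (y n) ≤ c * (logHeight₁ (x n) + 1)) →
    ∃ (M : Type) (_ : Field M) (_ : Algebra K M) (ι : Type) (_ : Fintype ι)
      (N : ι → AbsoluteValue M ℝ) (x' y' : ℤ → M), GSys p q N x' y'

/-- Row BACK: a place where the base point is close to a finite algebraic point forces a
totally ramified fixed point. -/
def S_BACK : Prop :=
  ∀ (K M ι : Type) [Field K] [CharZero K] [Field M] [Algebra K M] [Fintype ι]
    (p : K[X]) (q : K[X][Y]) (N : ι → AbsoluteValue M ℝ) (x y : ℤ → M),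
    GSys p q N x y → 1 ≤ p.natDegree → ∀ i, N i (x 0) ≤ 1 →
    ∀ (j : ℕ) (R : K[X]), R ≠ 0 → N i (aeval (x j) R) < 1 →
    ∃ α l : K, p = C α + C l * (X - C α) ^ p.natDegree ∧ N i (x 0 - algebraMap K M α) < 1

/-- Row EXT: an algebraically closed extension with a henselian immediate extension `L` of
the field generated by `ξ`. -/
def S_EXT : Prop :=
  ∀ (K M : Type) [Field K] [Field M] [Algebra K M] (N : AbsoluteValue M ℝ),
    IsNonarchimedean N → (∀ c : K, c ≠ 0 → N (algebraMap K M c) = 1) → ∀ ξ : M, 1 < N ξ →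
    ∃ (Ω : Type) (_ : Field Ω) (_ : Algebra K Ω) (_ : IsAlgClosed Ω) (N' : AbsoluteValue Ω ℝ)
      (φ : M →ₐ[K] Ω) (L : IntermediateField K Ω),
      IsNonarchimedean N' ∧ (∀ a, N' (φ a) = N a) ∧ φ ξ ∈ L ∧
      (∀ β β' : Ω, IsIntegral L β → minpoly L β = minpoly L β' → N' β = N' β') ∧
      ∀ z ∈ L, N' z ≤ 1 → ∃ c : K, N' (z - algebraMap K Ω c) ≤ (N ξ)⁻¹

/-- Row COUNT: the number of linear conditions needed to lower a norm. -/
def S_COUNT : Prop :=
  ∀ (K L V W : Type) [Field K] [Field L] [Algebra K L] [AddCommGroup V] [Module K V]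
    [FiniteDimensional K V] [AddCommGroup W] [Module L W] [Module K W] [IsScalarTower K L W]
    [FiniteDimensional L W] (n : AbsoluteValue L ℝ) (τ : ℝ), 1 < τ →
    (∀ c : K, n (algebraMap K L c) ≤ 1) →
    (∀ z : L, n z ≤ 1 → ∃ c : K, n (z - algebraMap K L c) ≤ τ⁻¹) →
    ∀ ν : W → ℝ, (∀ w, 0 ≤ ν w) → (∀ a b, ν (a + b) ≤ max (ν a) (ν b)) →
    (∀ (l : L) w, ν (l • w) = n l * ν w) →
    ∀ (f : V →ₗ[K] W) (A : ℝ), (∀ v, ν (f v) ≤ A) → ∀ s : ℕ,
    Module.finrank L W * s < Module.finrank K V → ∃ v, v ≠ 0 ∧ ν (f v) ≤ A / τ ^ s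

/-- The main estimate. -/
def S_MAIN : Prop :=
  ∀ (K : Type) [Field K] [NumberField K] (p : K[X]) (q : K[X][Y]) (x y : ℕ → K),
    Orb p q x y → ZDense x y → 1 ≤ p.natDegree → p.natDegree < q.natDegree →
    ∃ c : ℝ, 0 < c ∧ ∀ᶠ n in atTop, c * (q.natDegree : ℝ) ^ n ≤ logHeight₁ (y n)

/-- The final statement. -/
def S_FINAL : Prop :=
  ∀ (K : Type) [Field K] [NumberField K] (F : Fin 2 → MvPolynomial (Fin 2) K),
    (F 0).degreeOf 1 = 0 → ∀ P : Fin 2 → K,
    (∀ G : MvPolynomial (Fin 2) K,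
      (∀ n : ℕ, MvPolynomial.eval ((fun a i => MvPolynomial.eval a (F i))^[n] P) G = 0) →
        G = 0) →
    ∃ δ : ℝ,
      Tendsto (fun n : ℕ =>
        ((max ((fun G i => MvPolynomial.bind₁ G (F i))^[n] MvPolynomial.X 0).totalDegree
          ((fun G i => MvPolynomial.bind₁ G (F i))^[n] MvPolynomial.X 1).totalDegree : ℕ) : ℝ)
            ^ (1 / (n : ℝ))) atTop (𝓝 δ) ∧
      (1 < δ → Tendsto (fun n : ℕ =>
        logHeight ![(fun a i => MvPolynomial.eval a (F i))^[n] P 0,
          (fun a i => MvPolynomial.eval a (F i))^[n] P 1, 1] ^ (1 / (n : ℝ))) atTop (𝓝 δ))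

end Pool.Agent.KSkew

end MrgPart0

-- ======== part 1: formerly Pool.Agent.MP_c8dfda_nt.Spec2
section MrgPart1

/-
Second list of row statements of the project on triangular polynomial maps of the plane.
-/

open Polynomial Filter Height
open scoped Polynomial.Bivariate Topology IntermediateField

namespace Pool.Agent.KSkew

/-- `a` equals `b` up to an error of smaller size. -/
def Near {M : Type} [Field M] (N : AbsoluteValue M ℝ) (a b : M) : Prop :=
  a = b ∨ N (a - b) < N b

/-- The test sum with coefficients `t`. -/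
def TS {K M : Type} [Field K] [Field M] [Algebra K M] {a b c : ℕ}
    (t : Fin a × Fin b × Fin c → K) (x y w : M) : M :=
  ∑ s, algebraMap K M (t s) * (x ^ (s.1 : ℕ) * y ^ (s.2.1 : ℕ) * w ^ (s.2.2 : ℕ))

/-- Numerator of the centre of the fibre map. -/
noncomputable def cv {K : Type} [Field K] (q : K[X][Y]) : K[X] :=
  -(C ((q.natDegree : K)⁻¹) * q.coeff (q.natDegree - 1))

/-- The centre of the fibre map over the base point `s`. -/
noncomputable def ctr {K F : Type} [Field K] [Field F] [Algebra K F] (q : K[X][Y]) (s : F) : F :=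
  aeval s (cv q) / aeval s q.leadingCoeff

/-- The common denominator of the recentred coefficients. -/
noncomputable def Dn {K : Type} [Field K] (p : K[X]) (q : K[X][Y]) : K[X] :=
  q.leadingCoeff ^ q.natDegree * q.leadingCoeff.comp p

/-- The rigid case: after recentring all coefficients are monomials of the resonant degree. -/
def Rigid {K : Type} [Field K] (p : K[X]) (q : K[X][Y]) : Prop :=
  ∃ (e : ℕ) (β : ℕ → K) (m : ℕ → ℤ), β q.natDegree ≠ 0 ∧
    (∀ i ≤ q.natDegree, β i ≠ 0 →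
      ((q.natDegree : ℤ) - p.natDegree) * m i = e * ((i : ℤ) - p.natDegree)) ∧
    (e = 0 ∨ ∃ l : K, p = C l * X ^ p.natDegree) ∧
    q.leadingCoeff = C (β q.natDegree) * X ^ e ∧
    ∀ s t : K, s ≠ 0 → p.eval s ≠ 0 → q.evalEval s t - ctr q (p.eval s) =
      ∑ i ∈ Finset.range (q.natDegree + 1), β i * s ^ m i * (t - ctr q s) ^ i

/-- Row ESC: escape lemma. -/
def S_ESC : Prop :=
  ∀ (M : Type) [Field M] (N : AbsoluteValue M ℝ), IsNonarchimedean N →
    ∀ (d d₁ m : ℕ) (e s : ℤ) (ρ : ℕ → ℝ) (b : ℕ → ℕ → M) (z : ℕ → M),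
    1 ≤ d₁ → d₁ < d → 1 ≤ m → 1 ≤ ρ 0 → (∀ j, ρ (j + 1) = ρ j ^ d₁) →
    0 ≤ e * m + ((d : ℤ) - d₁) * s →
    (∀ j, N (b j d) = ρ j ^ e) →
    (∀ j, ∀ i < d, N (b j i) ^ m ≤ ρ j ^ (m * e + s * ((d : ℤ) - i))) →
    (∀ j, z (j + 1) = ∑ i ∈ Finset.range (d + 1), b j i * z j ^ i) →
    (∃ c : ℝ, ∀ j, N (z j) ≤ Real.exp (c * (d₁ : ℝ) ^ j)) →
    ∀ j, N (z j) ^ m ≤ ρ j ^ s

/-- `A i / Dn p q` are the coefficients of the recentred fibre map. -/
def RecA {K : Type} [Field K] (p : K[X]) (q : K[X][Y]) (A : ℕ → K[X]) : Prop :=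
  A q.natDegree = q.leadingCoeff * Dn p q ∧ A (q.natDegree - 1) = 0 ∧
    ∀ (F : Type) [Field F] [Algebra K F] (s t : F), aeval s (Dn p q) ≠ 0 →
      aevalAeval s t q - ctr q (aeval s p) = ∑ i ∈ Finset.range (q.natDegree + 1),
        aeval s (A i) / aeval s (Dn p q) * (t - ctr q s) ^ i

/-- Row REC: the recentred fibre map. -/
def S_REC : Prop :=
  ∀ (K : Type) [Field K] [CharZero K] (p : K[X]) (q : K[X][Y]), 2 ≤ q.natDegree →
    ∃ A : ℕ → K[X], RecA p q A

/-- Row LIOU: Liouville inequality for the test sums. -/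
def S_LIOU : Prop :=
  ∀ (K M ι : Type) [Field K] [Field M] [Algebra K M] [Fintype ι]
    (p : K[X]) (q : K[X][Y]) (N : ι → AbsoluteValue M ℝ) (x y : ℤ → M) (d d₁ : ℕ),
    GSys p q N x y → p.natDegree = d₁ → q.natDegree = d → 1 ≤ d₁ → 1 ≤ d →
    ∃ c : ℝ, ∀ (i : ι) (k : ℕ) (t : Fin (d ^ k * d₁ ^ k) × Fin (d ^ k) × Fin (d ^ k) → K),
      t ≠ 0 → Real.exp (-(c * ((d : ℝ) ^ k * (d₁ : ℝ) ^ k))) ≤ N i (TS t (x 0) (y 0) (y k))

/-- Row SPLIT: separating the conjugates of the roots in an open disc. -/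
def S_SPLIT : Prop :=
  ∀ (L E A : Type) [Field L] [Field E] [Field A] [Algebra L E] [Algebra E A] [Algebra L A]
    [IsScalarTower L E A] [FiniteDimensional L E] (N : AbsoluteValue A ℝ),
    (∀ β β' : A, IsIntegral L β → minpoly L β = minpoly L β' → N β = N β') →
    ∀ (z : A) (ρ : ℝ) (P : E[X]), P ≠ 0 →
    ∃ F G : E[X], F.Monic ∧ P = F * G ∧
      (∀ r : A, aeval r F = 0 → ∃ r' : A, aeval r' P = 0 ∧ N (z - r') < ρ ∧
        ∀ R : E[X], N (aeval r R) = N (aeval r' R)) ∧
      ∀ r : A, aeval r G = 0 → ρ ≤ N (z - r)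

/-- Row CORE: the auxiliary polynomial for a normalised orbit. -/
def S_CORE : Prop :=
  ∀ (K A : Type) [Field K] [Field A] [Algebra K A] [IsAlgClosed A] (N : AbsoluteValue A ℝ)
    (L : IntermediateField K A) (τ : ℝ), IsNonarchimedean N → 1 < τ →
    (∀ c : K, N (algebraMap K A c) ≤ 1) →
    (∀ β β' : A, IsIntegral L β → minpoly L β = minpoly L β' → N β = N β') →
    (∀ z ∈ L, N z ≤ 1 → ∃ c : K, N (z - algebraMap K A c) ≤ τ⁻¹) →
    ∀ (E : IntermediateField L A), FiniteDimensional L E →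
    ∀ (d d₁ : ℕ) (γ c₀ : ℝ) (w a u v : ℕ → A) (G : ℕ → A[X]) (g : A[X]) (x : A),
    1 ≤ d₁ → 2 ≤ d → 0 < γ → g.Monic → g.natDegree = d →
    (∀ r ∈ g.roots, r ∈ E ∧ N r ≤ 1) → (∃ r ∈ g.roots, ∃ r' ∈ g.roots, N (r - r') = 1) →
    (∀ j, (G j).Monic ∧ (G j).natDegree = d ∧
      ∀ i, (G j).coeff i ∈ E ∧ N ((G j).coeff i - g.coeff i) < 1) →
    (∀ j, N (w j) ≤ 1 ∧ w (j + 1) = a j * (G j).eval (w j) ∧ a j ∈ E ∧
      Real.exp (γ * (d₁ : ℝ) ^ j) ≤ N (a j)) →
    x ∈ E → (∀ j, u j ∈ E ∧ v j ∈ E ∧ N (u j) ≤ Real.exp (c₀ * (d₁ : ℝ) ^ j) ∧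
      N (v j) ≤ Real.exp (c₀ * (d₁ : ℝ) ^ j)) →
    ∀ c : ℝ, ∃ (k : ℕ) (t : Fin (d ^ k * d₁ ^ k) × Fin (d ^ k) × Fin (d ^ k) → K), t ≠ 0 ∧
      N (TS t x (u 0 + v 0 * w 0) (u k + v k * w k)) ≤
        Real.exp (-(c * ((d : ℝ) ^ k * (d₁ : ℝ) ^ k)))

/-- Row BAD: the auxiliary polynomial at a place where the fibre map has bad reduction. -/
def S_BAD : Prop :=
  ∀ (K M : Type) [Field K] [CharZero K] [Field M] [Algebra K M] (N : AbsoluteValue M ℝ),
    IsNonarchimedean N → (∀ c : K, c ≠ 0 → N (algebraMap K M c) = 1) →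
    ∀ (d d₁ : ℕ) (l : K) (β : ℕ → K) (δ : ℕ → ℤ) (c₀ : ℝ) (ξ z u : ℕ → M) (b : ℕ → ℕ → M)
      (x : M), 1 ≤ d₁ → d₁ < d → l ≠ 0 → 1 < N (ξ 0) →
    (∀ j, Near N (ξ (j + 1)) (algebraMap K M l * ξ j ^ d₁)) → β d ≠ 0 → β (d - 1) = 0 →
    (∀ j, ∀ i ≤ d, b j i ∈ K⟮ξ 0⟯ ∧ Near N (b j i) (algebraMap K M (β i) * ξ j ^ δ i)) →
    (∀ j, z (j + 1) = ∑ i ∈ Finset.range (d + 1), b j i * z j ^ i) →
    x ∈ K⟮ξ 0⟯ → (∀ j, u j ∈ K⟮ξ 0⟯ ∧ N (u j) ≤ Real.exp (c₀ * (d₁ : ℝ) ^ j) ∧
      N (z j) ≤ Real.exp (c₀ * (d₁ : ℝ) ^ j)) →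
    (∃ i < d, β i ≠ 0 ∧ -δ d * ((d : ℤ) - i) < ((d : ℤ) - d₁) * (δ i - δ d)) →
    ∀ c : ℝ, ∃ (k : ℕ) (t : Fin (d ^ k * d₁ ^ k) × Fin (d ^ k) × Fin (d ^ k) → K), t ≠ 0 ∧
      N (TS t x (u 0 + z 0) (u k + z k)) ≤ Real.exp (-(c * ((d : ℝ) ^ k * (d₁ : ℝ) ^ k)))

/-- Row LOC: the local estimates at the three kinds of places. -/
def S_LOC : Prop :=
  ∀ (K M ι : Type) [Field K] [CharZero K] [Field M] [Algebra K M] [Fintype ι]
    (p : K[X]) (q : K[X][Y]) (N : ι → AbsoluteValue M ℝ) (x y : ℤ → M) (A : ℕ → K[X])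
    (d d₁ : ℕ), GSys p q N x y → p.natDegree = d₁ → q.natDegree = d → 1 ≤ d₁ → d₁ < d →
    RecA p q A → ∀ i : ι,
    (1 < N i (x 0) →
      (∀ k < d, A k ≠ 0 → ((d : ℤ) - d₁) * (((A k).natDegree : ℤ) - (Dn p q).natDegree) ≤
        q.leadingCoeff.natDegree * ((k : ℤ) - d₁)) ∧
      N i (y 0 - ctr q (x 0)) ^ (d - d₁) * N i (x 0) ^ q.leadingCoeff.natDegree ≤ 1) ∧
    (∀ l : K, p = C l * X ^ d₁ → N i (x 0) < 1 →
      (∀ k < d, A k ≠ 0 → q.leadingCoeff.natTrailingDegree * ((k : ℤ) - d₁) ≤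
        ((d : ℤ) - d₁) * (((A k).natTrailingDegree : ℤ) - (Dn p q).natTrailingDegree)) ∧
      N i (y 0 - ctr q (x 0)) ^ (d - d₁) * N i (x 0) ^ q.leadingCoeff.natTrailingDegree ≤ 1) ∧
    ((∀ (j : ℕ) (R : K[X]), R ≠ 0 → N i (aeval (x j) R) = 1) → N i (y 0 - ctr q (x 0)) ≤ 1)

/-- Row FIN: a limit system exists only in the rigid case. -/
def S_FIN : Prop :=
  ∀ (K M ι : Type) [Field K] [CharZero K] [Field M] [Algebra K M] [Fintype ι]
    (p : K[X]) (q : K[X][Y]) (N : ι → AbsoluteValue M ℝ) (x y : ℤ → M),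
    GSys p q N x y → 1 ≤ p.natDegree → p.natDegree < q.natDegree →
    ((∃ l : K, p = C l * X ^ p.natDegree) ∨
      ∀ α l : K, p ≠ C α + C l * (X - C α) ^ p.natDegree) → Rigid p q

end Pool.Agent.KSkew

end MrgPart1

-- ======== part 2: formerly Pool.Agent.MP_c8dfda_nt.GN
section MrgPart2

/-
Gauss norms on discs of a nonarchimedean field: product formula over the roots, counting roots
in open discs, Rouche lemma, division lemma.
-/

open Polynomial Filter
open scoped Topology

namespace Pool.Agent.KSkew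

variable {A : Type} [Field A] {N : AbsoluteValue A ℝ}

/-- The Gauss norm on the disc of centre `z` and radius `ρ`. -/
noncomputable def GN (hN : IsNonarchimedean N) (z : A) {ρ : ℝ} (hρ : 0 < ρ) :
    AbsoluteValue A[X] ℝ where
  toFun P := (taylor z P).gaussNorm N ρ
  map_mul' P Q := by simp only [taylor_mul]; exact gaussNorm_mul hN hρ _ _
  nonneg' P := gaussNorm_nonneg _ _ hρ.le
  eq_zero' P := by
    rw [gaussNorm_eq_zero_iff N _ (fun _ hx => (AbsoluteValue.eq_zero N).mp hx) hρ]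
    exact taylor_eq_zero z P
  add_le' P Q := by
    simp only [map_add]
    refine (isNonarchimedean_gaussNorm N hN hρ.le _ _).trans (max_le ?_ ?_)
    · exact le_add_of_nonneg_right (gaussNorm_nonneg _ _ hρ.le)
    · exact le_add_of_nonneg_left (gaussNorm_nonneg _ _ hρ.le)

section na

variable {R : Type} [CommRing R] {v : AbsoluteValue R ℝ}

lemma na_sub (hv : IsNonarchimedean v) (a b : R) : v (a - b) ≤ max (v a) (v b) := by
  have := hv a (-b)
  rwa [← sub_eq_add_neg, v.map_neg] at this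

lemma na_add_le (hv : IsNonarchimedean v) {a b : R} {B : ℝ} (ha : v a ≤ B) (hb : v b ≤ B) :
    v (a + b) ≤ B := (hv a b).trans (max_le ha hb)

lemma na_sub_le (hv : IsNonarchimedean v) {a b : R} {B : ℝ} (ha : v a ≤ B) (hb : v b ≤ B) :
    v (a - b) ≤ B := (na_sub hv a b).trans (max_le ha hb)

lemma na_add_lt (hv : IsNonarchimedean v) {a b : R} {B : ℝ} (ha : v a < B) (hb : v b < B) :
    v (a + b) < B := (hv a b).trans_lt (max_lt ha hb)

lemma na_sub_lt (hv : IsNonarchimedean v) {a b : R} {B : ℝ} (ha : v a < B) (hb : v b < B) :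
    v (a - b) < B := (na_sub hv a b).trans_lt (max_lt ha hb)

lemma na_eq_of_sub_lt (hv : IsNonarchimedean v) {a b : R} (h : v (a - b) < v a) : v b = v a := by
  apply le_antisymm
  · have := na_sub hv a (a - b)
    rw [sub_sub_cancel] at this
    exact this.trans (max_le le_rfl h.le)
  · by_contra hlt
    push Not at hlt
    have := hv (a - b) b
    rw [sub_add_cancel] at this
    exact absurd (this.trans_lt (max_lt h hlt)) (lt_irrefl _)

lemma na_sum_le (hv : IsNonarchimedean v) {ι : Type} (s : Finset ι) (f : ι → R) {B : ℝ}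
    (hB : 0 ≤ B) (h : ∀ i ∈ s, v (f i) ≤ B) : v (∑ i ∈ s, f i) ≤ B := by
  classical
  induction s using Finset.induction with
  | empty => simpa
  | insert a s ha ih =>
    rw [Finset.sum_insert ha]
    exact na_add_le hv (h a (by simp)) (ih fun i hi => h i (by simp [hi]))

lemma na_sum_lt (hv : IsNonarchimedean v) {ι : Type} (s : Finset ι) (f : ι → R) {B : ℝ}
    (hB : 0 < B) (h : ∀ i ∈ s, v (f i) < B) : v (∑ i ∈ s, f i) < B := by
  classical
  induction s using Finset.induction with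
  | empty => simpa
  | insert a s ha ih =>
    rw [Finset.sum_insert ha]
    exact na_add_lt hv (h a (by simp)) (ih fun i hi => h i (by simp [hi]))

end na

variable (hN : IsNonarchimedean N) {z : A} {ρ : ℝ} (hρ : 0 < ρ)

lemma GN_apply (P : A[X]) : GN hN z hρ P = (taylor z P).gaussNorm N ρ := rfl

lemma GN_na : IsNonarchimedean (GN hN z hρ) := fun P Q => by
  simp only [GN_apply, map_add]
  exact isNonarchimedean_gaussNorm N hN hρ.le _ _

@[simp] lemma GN_C (a : A) : GN hN z hρ (C a) = N a := by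
  rw [GN_apply, taylor_C, gaussNorm_C]

lemma coeff_le_GN (P : A[X]) (i : ℕ) : N ((taylor z P).coeff i) * ρ ^ i ≤ GN hN z hρ P :=
  le_gaussNorm N _ hρ.le i

lemma GN_le (P : A[X]) {B : ℝ} (h : ∀ i, N ((taylor z P).coeff i) * ρ ^ i ≤ B) :
    GN hN z hρ P ≤ B := by
  obtain ⟨i, hi⟩ := exists_eq_gaussNorm N ρ (taylor z P)
  rw [GN_apply, hi]; exact h i

lemma GN_lt (P : A[X]) {B : ℝ} (h : ∀ i, N ((taylor z P).coeff i) * ρ ^ i < B) :
    GN hN z hρ P < B := by
  obtain ⟨i, hi⟩ := exists_eq_gaussNorm N ρ (taylor z P)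
  rw [GN_apply, hi]; exact h i

lemma GN_X_sub_C (r : A) : GN hN z hρ (X - C r) = max ρ (N (z - r)) := by
  have h1 : taylor z (X - C r) = X + C (z - r) := by
    simp only [map_sub, taylor_X, taylor_C]; ring
  apply le_antisymm
  · apply GN_le
    intro i
    rw [h1]
    rcases i with _ | _ | i
    · simp
    · simp [coeff_C]
    · simp [coeff_C, coeff_X, hρ.le]
  · apply max_le
    · have := coeff_le_GN hN hρ (z := z) (X - C r) 1
      rw [h1] at this
      simpa [coeff_C] using this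
    · have := coeff_le_GN hN hρ (z := z) (X - C r) 0
      rw [h1] at this
      simpa using this

lemma eval_le_GN (P : A[X]) {w : A} (hw : N (w - z) ≤ ρ) : N (P.eval w) ≤ GN hN z hρ P := by
  rw [← taylor_eval_sub z, eval_eq_sum_range]
  apply na_sum_le hN _ _ (apply_nonneg _ _)
  intro i _
  rw [map_mul, map_pow]
  refine le_trans ?_ (coeff_le_GN hN hρ P i)
  gcongr

lemma GN_sub_eval_le (P : A[X]) (r : A) :
    GN hN z hρ (P - C (P.eval z)) ≤ GN hN z hρ (P - C r) := by
  apply GN_le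
  intro i
  rcases i with _ | i
  · simp [taylor_coeff_zero]
  · refine le_trans (le_of_eq ?_) (coeff_le_GN hN hρ (P - C r) (i + 1))
    simp [coeff_C]

lemma GN_mono {ρ' : ℝ} (hρ' : 0 < ρ') (h : ρ ≤ ρ') (P : A[X]) :
    GN hN z hρ P ≤ GN hN z hρ' P := by
  apply GN_le
  intro i
  refine le_trans ?_ (coeff_le_GN hN hρ' P i)
  gcongr

lemma GN_multiset_prod (s : Multiset A[X]) :
    GN hN z hρ s.prod = (s.map (GN hN z hρ)).prod := map_multiset_prod (GN hN z hρ) s

variable [IsAlgClosed A]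

lemma GN_roots (P : A[X]) :
    GN hN z hρ P = N P.leadingCoeff * (P.roots.map fun r => max ρ (N (z - r))).prod := by
  conv_lhs => rw [(IsAlgClosed.splits P).eq_prod_roots]
  rw [map_mul, GN_C, GN_multiset_prod, Multiset.map_map]
  congr 2
  exact Multiset.map_congr rfl fun r _ => GN_X_sub_C hN hρ r

lemma N_eval_roots (P : A[X]) (w : A) :
    N (P.eval w) = N P.leadingCoeff * (P.roots.map fun r => N (w - r)).prod := by
  conv_lhs => rw [(IsAlgClosed.splits P).eq_prod_roots]
  rw [eval_mul, eval_C, map_mul, eval_multiset_prod, map_multiset_prod, Multiset.map_map,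
    Multiset.map_map]
  congr 2
  exact Multiset.map_congr rfl fun r _ => by simp

lemma GN_center {z' : A} (h : N (z - z') ≤ ρ) (P : A[X]) : GN hN z hρ P = GN hN z' hρ P := by
  rw [GN_roots, GN_roots]
  congr 2
  refine Multiset.map_congr rfl fun r _ => ?_
  apply le_antisymm
  · refine max_le (le_max_left _ _) ?_
    have := hN (z - z') (z' - r)
    rw [sub_add_sub_cancel] at this
    exact this.trans (max_le_max h le_rfl)
  · refine max_le (le_max_left _ _) ?_
    have := hN (z' - z) (z - r)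
    rw [sub_add_sub_cancel, N.map_sub z' z] at this
    exact this.trans (max_le_max h le_rfl)

lemma eval_eq_GN (P : A[X]) (h : ∀ r ∈ P.roots, ρ ≤ N (z - r)) :
    N (P.eval z) = GN hN z hρ P := by
  rw [GN_roots, N_eval_roots]
  congr 2
  exact Multiset.map_congr rfl fun r hr => (max_eq_right (h r hr)).symm

open Classical in
/-- The number of roots in the open disc of centre `z` and radius `ρ`. -/
noncomputable def cnt (N : AbsoluteValue A ℝ) (z : A) (ρ : ℝ) (P : A[X]) : ℕ :=
  (P.roots.filter fun r => N (z - r) < ρ).card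

lemma prod_shrink (s : Multiset A) {σ : ℝ} (hσρ : σ ≤ ρ)
    (h : ∀ r ∈ s, N (z - r) < ρ → N (z - r) ≤ σ) :
    (s.map fun r => max σ (N (z - r))).prod * ρ ^ (open Classical in
      (s.filter fun r => N (z - r) < ρ).card) =
    (s.map fun r => max ρ (N (z - r))).prod * σ ^ (open Classical in
      (s.filter fun r => N (z - r) < ρ).card) := by
  classical
  induction s using Multiset.induction with
  | empty => simp
  | cons a s ih =>
    have ih' := ih fun r hr => h r (by simp [hr])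
    simp only [Multiset.map_cons, Multiset.prod_cons]
    by_cases ha : N (z - a) < ρ
    · rw [Multiset.filter_cons_of_pos _ (by exact ha), Multiset.card_cons, pow_succ, pow_succ,
        max_eq_left (h a (by simp) ha), max_eq_left ha.le]
      linear_combination σ * ρ * ih'
    · rw [Multiset.filter_cons_of_neg _ (by exact ha), max_eq_right (not_lt.1 ha),
        max_eq_right (hσρ.trans (not_lt.1 ha))]
      linear_combination N (z - a) * ih'

lemma GN_shrink (P : A[X]) {σ : ℝ} (hσ : 0 < σ) (hσρ : σ ≤ ρ)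
    (h : ∀ r ∈ P.roots, N (z - r) < ρ → N (z - r) ≤ σ) :
    GN hN z hσ P = GN hN z hρ P * (σ / ρ) ^ cnt N z ρ P := by
  rw [GN_roots, GN_roots, div_pow, cnt]
  have := prod_shrink (N := N) (z := z) P.roots hσρ h
  field_simp
  linear_combination N P.leadingCoeff * this

lemma ev_roots (s : Multiset A) :
    ∀ᶠ σ in 𝓝[<] ρ, ∀ r ∈ s, N (z - r) < ρ → N (z - r) ≤ σ := by
  classical
  have : ∀ᶠ σ in 𝓝[<] ρ, ∀ r ∈ s.toFinset, N (z - r) < ρ → N (z - r) ≤ σ := by
    rw [eventually_all_finset]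
    intro r _
    by_cases h : N (z - r) < ρ
    · filter_upwards [Ioo_mem_nhdsLT h] with σ hσ _ using hσ.1.le
    · exact Eventually.of_forall fun σ h' => absurd h' h
  filter_upwards [this] with σ hσ r hr using hσ r (by simpa using hr)

lemma rouche {P Q : A[X]} (h : GN hN z hρ (P - Q) < GN hN z hρ P) :
    cnt N z ρ P = cnt N z ρ Q := by
  have hpos : 0 < GN hN z hρ P := (apply_nonneg _ _).trans_lt h
  have h1 : ∀ᶠ σ in 𝓝[<] ρ, GN hN z hρ (P - Q) < GN hN z hρ P * (σ / ρ) ^ cnt N z ρ P := by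
    apply Eventually.filter_mono nhdsWithin_le_nhds
    have hc : ContinuousAt (fun σ : ℝ => GN hN z hρ P * (σ / ρ) ^ cnt N z ρ P) ρ := by fun_prop
    apply hc.eventually (lt_mem_nhds _)
    simpa [hρ.ne'] using h
  obtain ⟨σ, hσ1, hσ2, hσ3, hσ4⟩ := (h1.and ((ev_roots (N := N) (z := z) (ρ := ρ) P.roots).and
    ((ev_roots (N := N) (z := z) (ρ := ρ) Q.roots).and (Ioo_mem_nhdsLT hρ)))).exists
  have eP := GN_shrink hN hρ P hσ4.1 hσ4.2.le hσ2
  have eQ := GN_shrink hN hρ Q hσ4.1 hσ4.2.le hσ3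
  have e1 : GN hN z hρ Q = GN hN z hρ P := na_eq_of_sub_lt (GN_na hN hρ) h
  have e2 : GN hN z hσ4.1 Q = GN hN z hσ4.1 P := by
    apply na_eq_of_sub_lt (GN_na hN hσ4.1)
    rw [eP]
    exact (GN_mono hN hσ4.1 hρ hσ4.2.le _).trans_lt hσ1
  rw [eP, eQ, e1] at e2
  have e3 := mul_left_cancel₀ hpos.ne' e2
  have hlt : σ / ρ < 1 := (div_lt_one hρ).2 hσ4.2
  exact (pow_right_injective₀ (div_pos hσ4.1 hρ) hlt.ne e3).symm

lemma cnt_mul {P Q : A[X]} (h : P * Q ≠ 0) :
    cnt N z ρ (P * Q) = cnt N z ρ P + cnt N z ρ Q := by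
  classical
  simp [cnt, roots_mul h]

lemma exists_radius (P : A[X]) (hd : 0 < P.natDegree) (h0 : P.eval z = 0) {B : ℝ} (hB : 0 < B) :
    ∃ (σ : ℝ) (hσ : 0 < σ), GN hN z hσ P = B := by
  have hP : P ≠ 0 := by rintro rfl; simp at hd
  let f : ℝ → ℝ := fun σ => N P.leadingCoeff * (P.roots.map fun r => max σ (N (z - r))).prod
  have hf : Continuous f := by
    apply continuous_const.mul
    exact continuous_multiset_prod _ fun r _ => by fun_prop
  have hf0 : f 0 = 0 := by
    have := N_eval_roots (N := N) P z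
    rw [h0, map_zero] at this
    refine Eq.trans ?_ this.symm
    simp only [f]
    congr 2
    exact Multiset.map_congr rfl fun r _ => max_eq_right (apply_nonneg _ _)
  have hl : 0 < N P.leadingCoeff := N.pos (leadingCoeff_ne_zero.2 hP)
  set T := max 1 (B / N P.leadingCoeff) with hT
  have hT0 : 0 < T := lt_of_lt_of_le one_pos (le_max_left _ _)
  have hfT : B ≤ f T := by
    have h1 := coeff_le_GN hN hT0 (z := z) P P.natDegree
    rw [coeff_taylor_natDegree, GN_roots] at h1
    refine le_trans ?_ h1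
    have h2 : T ≤ T ^ P.natDegree := le_self_pow₀ (le_max_left _ _) hd.ne'
    have h3 : B / N P.leadingCoeff ≤ T ^ P.natDegree := (le_max_right _ _).trans h2
    rwa [div_le_iff₀' hl] at h3
  obtain ⟨σ, hσ, hσB⟩ := intermediate_value_Icc hT0.le hf.continuousOn
    (show B ∈ Set.Icc (f 0) (f T) from ⟨by rw [hf0]; exact hB.le, hfT⟩)
  have hσ0 : 0 < σ := by
    rcases hσ.1.lt_or_eq with h | h
    · exact h
    · rw [← h, hf0] at hσB; exact absurd hσB hB.ne
  exact ⟨σ, hσ0, by rw [GN_roots]; exact hσB⟩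

include hN hρ in
/-- If near every root of `F` the polynomial `c` has at least as many roots as `F`, then the
degree of `c` is at least the degree of `F`. -/
lemma natDegree_le_of_cnt {F c : A[X]} (h : ∀ r ∈ F.roots, cnt N r ρ F ≤ cnt N r ρ c) :
    F.natDegree ≤ c.natDegree := by
  classical
  let s : Setoid A :=
    { r := fun a b => N (a - b) < ρ
      iseqv := ⟨fun a => by simpa using hρ, fun {a b} h => by rwa [N.map_sub],
        fun {a b c} h1 h2 => by
          have := na_add_lt hN h1 h2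
          rwa [sub_add_sub_cancel] at this⟩ }
  have key : ∀ (P : A[X]) (r : A),
      (P.roots.map (Quotient.mk s)).count (Quotient.mk s r) = cnt N r ρ P := by
    intro P r
    rw [Multiset.count_map, cnt]
    congr 1
    exact Multiset.filter_congr fun a _ => Quotient.eq
  have hle : F.roots.map (Quotient.mk s) ≤ c.roots.map (Quotient.mk s) := by
    rw [Multiset.le_iff_count]
    intro a
    by_cases ha : a ∈ F.roots.map (Quotient.mk s)
    · obtain ⟨r, hr, rfl⟩ := Multiset.mem_map.1 ha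
      rw [key, key]; exact h r hr
    · rw [Multiset.count_eq_zero.2 ha]; exact Nat.zero_le _
  have := Multiset.card_le_card hle
  rw [Multiset.card_map, Multiset.card_map] at this
  rw [(IsAlgClosed.splits F).natDegree_eq_card_roots]
  exact this.trans (card_roots' c)

/-- Division lemma. -/
lemma GN_rem_le {F W c : A[X]} (hdeg : c.degree < F.degree)
    (h1 : ∀ r ∈ F.roots, GN hN r hρ c = GN hN z hρ c)
    (h2 : ∀ r ∈ F.roots, GN hN r hρ (F * W + c) = GN hN z hρ (F * W + c)) :
    GN hN z hρ c ≤ GN hN z hρ (F * W + c) := by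
  by_contra hlt
  push Not at hlt
  have hc : c ≠ 0 := by
    rintro rfl
    rw [map_zero] at hlt
    exact absurd hlt (not_lt.2 (apply_nonneg _ _))
  have hFW : F * W ≠ 0 := by
    intro h0
    rw [h0, zero_add] at hlt
    exact lt_irrefl _ hlt
  have := natDegree_le_of_cnt hN hρ (F := F) (c := c) fun r hr => by
    have e : cnt N r ρ c = cnt N r ρ (F * (-W)) := by
      apply rouche hN hρ
      rw [show c - F * -W = F * W + c by ring, h1 r hr, h2 r hr]
      exact hlt
    rw [e, cnt_mul (by simpa using hFW)]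
    exact Nat.le_add_right _ _
  exact absurd (natDegree_lt_natDegree hc hdeg) (not_lt.2 this)

end Pool.Agent.KSkew

end MrgPart2

-- ======== part 3: formerly Pool.Agent.MP_c8dfda_nt.Core1
section MrgPart3

/-
Iterates of a normalised sequence of polynomial maps on discs: shrinking of the pulled back
discs and the bound on the number of preimages with a given itinerary.
-/

open Polynomial Filter

namespace Pool.Agent.KSkew

variable {A : Type} [Field A] {N : AbsoluteValue A ℝ}

/-- The composition of the first `i` maps. -/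
noncomputable def Qit {R : Type} [CommRing R] (a : ℕ → R) (G : ℕ → R[X]) : ℕ → R[X]
  | 0 => X
  | i + 1 => C (a i) * (G i).comp (Qit a G i)

lemma Qit_map {R S : Type} [CommRing R] [CommRing S] (f : R →+* S) (a : ℕ → R) (G : ℕ → R[X])
    (i : ℕ) : (Qit a G i).map f = Qit (fun j => f (a j)) (fun j => (G j).map f) i := by
  induction i with
  | zero => simp [Qit]
  | succ i ih => simp [Qit, Polynomial.map_mul, map_comp, ih]

lemma Qit_eval {a w : ℕ → A} {G : ℕ → A[X]} (h : ∀ j, w (j + 1) = a j * (G j).eval (w j))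
    (i : ℕ) : (Qit a G i).eval (w 0) = w i := by
  induction i with
  | zero => simp [Qit]
  | succ i ih => simp [Qit, eval_comp, ih, h]

lemma Qit_natDegree {a : ℕ → A} {G : ℕ → A[X]} {d : ℕ} (ha : ∀ j, a j ≠ 0)
    (hG : ∀ j, (G j).natDegree = d) (i : ℕ) : (Qit a G i).natDegree = d ^ i := by
  induction i with
  | zero => simp [Qit]
  | succ i ih => rw [Qit, natDegree_C_mul (ha i), natDegree_comp, ih, hG, pow_succ']

lemma pow_card_le_prod' {ι : Type} (s : Multiset ι) (f : ι → ℝ) {b : ℝ} (hb : 0 ≤ b)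
    (h : ∀ r ∈ s, b ≤ f r) : b ^ s.card ≤ (s.map f).prod := by
  induction s using Multiset.induction with
  | empty => simp
  | cons a s ih =>
    rw [Multiset.card_cons, Multiset.map_cons, Multiset.prod_cons, pow_succ']
    exact mul_le_mul (h a (by simp)) (ih fun r hr => h r (by simp [hr])) (pow_nonneg hb _)
      (hb.trans (h a (by simp)))

lemma card_filter_bind_le {ι κ : Type} (s : Multiset ι) (f : ι → Multiset κ) (P : κ → Prop)
    (R : ι → Prop) [DecidablePred P] [DecidablePred R] (B : ℕ)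
    (h1 : ∀ a ∈ s, R a → ((f a).filter P).card ≤ B)
    (h2 : ∀ a ∈ s, ¬ R a → (f a).filter P = 0) :
    ((s.bind f).filter P).card ≤ (s.filter R).card * B := by
  induction s using Multiset.induction with
  | empty => simp
  | cons a s ih =>
    have ih' := ih (fun b hb => h1 b (by simp [hb])) (fun b hb => h2 b (by simp [hb]))
    rw [Multiset.cons_bind, Multiset.filter_add, Multiset.card_add]
    by_cases ha : R a
    · rw [Multiset.filter_cons_of_pos _ ha, Multiset.card_cons]
      have := h1 a (by simp) ha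
      nlinarith
    · rw [Multiset.filter_cons_of_neg _ ha, h2 a (by simp) ha]
      simpa using ih'

variable [IsAlgClosed A]

lemma comp_eq_prod {H : A[X]} (hH : H.Monic) (Q : A[X]) :
    H.comp Q = (H.roots.map fun r => Q - C r).prod := by
  conv_lhs => rw [(IsAlgClosed.splits H).eq_prod_roots_of_monic hH]
  rw [multiset_prod_comp, Multiset.map_map]
  congr 1
  exact Multiset.map_congr rfl fun r _ => by simp

lemma card_roots_eq (H : A[X]) : H.roots.card = H.natDegree :=
  (IsAlgClosed.splits H).natDegree_eq_card_roots.symm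

lemma exists_near_root {H : A[X]} (hH : H.Monic) (hd : 0 < H.natDegree) (w : A) :
    ∃ φ ∈ H.roots, N (w - φ) ^ H.natDegree ≤ N (H.eval w) := by
  classical
  have hne : H.roots.toFinset.Nonempty := by
    rw [Multiset.toFinset_nonempty]
    intro h0
    have := card_roots_eq H
    rw [h0] at this
    simp at this
    omega
  obtain ⟨φ, hφ, hmin⟩ := Finset.exists_min_image _ (fun r => N (w - r)) hne
  refine ⟨φ, by simpa using hφ, ?_⟩
  rw [N_eval_roots, hH.leadingCoeff, map_one, one_mul, ← card_roots_eq]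
  exact pow_card_le_prod' _ _ (apply_nonneg _ _) fun r hr => hmin r (by simpa using hr)

variable (hN : IsNonarchimedean N)

lemma step_shrink {z : A} {ρ : ℝ} (hρ : 0 < ρ) {H Q : A[X]} {a : A} (hH : H.Monic)
    (hd : 0 < H.natDegree) (ha : 1 < N a)
    (h : GN hN z hρ (C a * H.comp Q - C (a * H.eval (Q.eval z))) ≤ 1) :
    GN hN z hρ (Q - C (Q.eval z)) < 1 := by
  have hm : (H - C (H.eval (Q.eval z))).Monic :=
    hH.sub_of_left (lt_of_le_of_lt degree_C_le (natDegree_pos_iff_degree_pos.1 hd))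
  have e : C a * H.comp Q - C (a * H.eval (Q.eval z)) =
      C a * (H - C (H.eval (Q.eval z))).comp Q := by
    simp only [sub_comp, C_comp, C_mul]; ring
  rw [e, map_mul, GN_C, comp_eq_prod hm, GN_multiset_prod, Multiset.map_map] at h
  have h1 := pow_card_le_prod' (H - C (H.eval (Q.eval z))).roots
    ((GN hN z hρ) ∘ fun r => Q - C r) (apply_nonneg (GN hN z hρ) (Q - C (Q.eval z)))
    fun r _ => GN_sub_eval_le hN hρ Q r
  rw [card_roots_eq, natDegree_sub_C] at h1
  by_contra hge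
  push Not at hge
  have h2 : (1 : ℝ) ≤ GN hN z hρ (Q - C (Q.eval z)) ^ H.natDegree := one_le_pow₀ hge
  nlinarith

lemma GN01_lt {P : A[X]} (h : ∀ i, N (P.coeff i) < 1) : GN hN 0 one_pos P < 1 := by
  apply GN_lt
  intro i
  simpa using h i

include hN in
lemma exists_itin {H g : A[X]} (hg : g.Monic) (hd : 0 < g.natDegree)
    (hc : ∀ i, N (H.coeff i - g.coeff i) < 1) {w : A} (hw : N w ≤ 1) (h : N (H.eval w) < 1) :
    ∃ γ ∈ g.roots, N (w - γ) < 1 := by
  obtain ⟨γ, hγ, h1⟩ := exists_near_root (N := N) hg hd w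
  refine ⟨γ, hγ, ?_⟩
  have h2 : N ((H - g).eval w) < 1 :=
    (eval_le_GN hN one_pos (z := 0) (H - g) (by simpa using hw)).trans_lt
      (GN01_lt hN fun i => by simpa using hc i)
  have h3 : N (g.eval w) < 1 := by
    have := na_sub_lt hN h h2
    simpa using this
  by_contra hge
  push Not at hge
  exact absurd (h1.trans_lt h3) (not_lt.2 (one_le_pow₀ hge))

include hN in
lemma cnt_le {H g : A[X]} {d : ℕ} (hg : g.Monic) (hd : g.natDegree = d)
    (h2 : ∃ r ∈ g.roots, ∃ r' ∈ g.roots, N (r - r') = 1)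
    (hc : ∀ i, N (H.coeff i - g.coeff i) < 1) {γ c : A} (hγ : N γ ≤ 1) (hc1 : N c < 1) :
    cnt N γ 1 (H - C c) ≤ d - 1 := by
  classical
  have e : cnt N γ 1 g = cnt N γ 1 (H - C c) := by
    apply rouche hN one_pos
    have hz : N (γ - 0) ≤ 1 := by simpa using hγ
    rw [GN_center hN one_pos hz (g - (H - C c)), GN_center hN one_pos hz g]
    have h1 : 1 ≤ GN hN 0 one_pos g := by
      have := coeff_le_GN hN one_pos (z := 0) g g.natDegree
      simpa [hg.coeff_natDegree] using this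
    refine lt_of_lt_of_le ?_ h1
    rw [show g - (H - C c) = C c - (H - g) by ring]
    exact na_sub_lt (GN_na hN one_pos) (by simpa using hc1)
      (GN01_lt hN fun i => by simpa using hc i)
  rw [← e, cnt]
  obtain ⟨r, hr, r', hr', hrr⟩ := h2
  have hlt : g.roots.filter (fun r => N (γ - r) < 1) < g.roots := by
    refine lt_of_le_of_ne (Multiset.filter_le _ _) fun h => ?_
    rw [Multiset.filter_eq_self] at h
    have := na_sub_lt hN (h r' hr') (h r hr)
    rw [show γ - r' - (γ - r) = r - r' by ring, hrr] at this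
    exact lt_irrefl _ this
  have := Multiset.card_lt_card hlt
  rw [card_roots_eq, hd] at this
  exact Nat.le_sub_one_of_lt (by convert this)

include hN in
open Classical in
lemma itin_count {a γ : ℕ → A} {G : ℕ → A[X]} {g : A[X]} {d : ℕ} (hd2 : 0 < d) (hg : g.Monic)
    (hd : g.natDegree = d) (h2 : ∃ r ∈ g.roots, ∃ r' ∈ g.roots, N (r - r') = 1)
    (hG : ∀ j, (G j).Monic ∧ (G j).natDegree = d ∧ ∀ i, N ((G j).coeff i - g.coeff i) < 1)
    (ha : ∀ j, 1 < N (a j)) (hγ : ∀ j, N (γ j) ≤ 1) (i : ℕ) (φ : A) (hφ : N φ ≤ 1) :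
    ((Qit a G i - C φ).roots.filter
      fun r => ∀ j < i, N ((Qit a G j).eval r - γ j) < 1).card ≤ (d - 1) ^ i := by
  have ha0 : ∀ j, a j ≠ 0 := fun j h => by
    have := ha j
    rw [h, map_zero] at this
    linarith
  have hdeg := Qit_natDegree ha0 fun j => (hG j).2.1
  induction i generalizing φ with
  | zero =>
    refine (Multiset.card_le_card (Multiset.filter_le _ _)).trans ?_
    simp [Qit]
  | succ i ih =>
    have hm : (G i - C (φ / a i)).Monic :=
      (hG i).1.sub_of_left (lt_of_le_of_lt degree_C_le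
        (natDegree_pos_iff_degree_pos.1 (by rw [(hG i).2.1]; exact hd2)))
    have e : Qit a G (i + 1) - C φ = C (a i) * (G i - C (φ / a i)).comp (Qit a G i) := by
      rw [Qit, sub_comp, C_comp, mul_sub, ← C_mul, mul_div_cancel₀ _ (ha0 i)]
    have hne : ∀ r, Qit a G i - C r ≠ 0 := fun r h => by
      have := natDegree_sub_C (p := Qit a G i) (a := r)
      rw [h, hdeg, natDegree_zero] at this
      exact absurd this.symm (pow_pos hd2 i).ne'
    rw [e, roots_C_mul _ (ha0 i), comp_eq_prod hm, roots_multiset_prod _ (by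
      simp only [Multiset.mem_map, not_exists, not_and]
      exact fun r _ => hne r), Multiset.bind_map]
    have hlt : N (φ / a i) < 1 := by
      rw [map_div₀, div_lt_one (by linarith [ha i])]
      exact hφ.trans_lt (ha i)
    have hc := cnt_le hN hg hd h2 (hG i).2.2 (hγ i) hlt
    rw [pow_succ']
    refine le_trans (card_filter_bind_le _ _ _ (fun r => N (γ i - r) < 1) ((d - 1) ^ i) ?_ ?_)
      (Nat.mul_le_mul_right _ hc)
    · intro r _ hr
      have hr1 : N r ≤ 1 := by
        have := na_sub_le hN (hγ i) hr.le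
        simpa using this
      refine le_trans (Multiset.card_le_card (Multiset.monotone_filter_right _ ?_)) (ih r hr1)
      intro s hs j hj
      exact hs j (by omega)
    · intro r _ hr
      rw [Multiset.filter_eq_nil]
      intro s hs hall
      have h1 := hall i (by omega)
      rw [(mem_roots_sub_C'.1 hs).2, N.map_sub] at h1
      exact hr h1

end Pool.Agent.KSkew

end MrgPart3

-- ======== part 4: formerly Pool.Agent.MP_c8dfda_nt.Core2
section MrgPart4

/-
The linear algebra step of the auxiliary polynomial construction.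
-/

open Polynomial Filter

namespace Pool.Agent.KSkew

variable {K L E A : Type} [Field K] [Field L] [Field E] [Field A] [Algebra K L] [Algebra K E]
  [Algebra K A] [Algebra L E] [Algebra L A] [Algebra E A] [IsScalarTower K L E]
  [IsScalarTower K E A] [IsScalarTower K L A] [IsScalarTower L E A]
  {N : AbsoluteValue A ℝ} (hN : IsNonarchimedean N)

lemma taylor_coeff_map (r : A) (R : E[X]) (i : ℕ) :
    (taylor r (R.map (algebraMap E A))).coeff i = aeval r (hasseDeriv i R) := by
  rw [taylor_coeff, ← eval_map_algebraMap]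
  congr 1
  ext n
  simp [hasseDeriv_coeff]

lemma GN_conj {r r' : A} {ρ : ℝ} (hρ : 0 < ρ) (h : ∀ R : E[X], N (aeval r R) = N (aeval r' R))
    (R : E[X]) : GN hN r hρ (R.map (algebraMap E A)) = GN hN r' hρ (R.map (algebraMap E A)) := by
  apply le_antisymm
  · apply GN_le
    intro i
    rw [taylor_coeff_map, h, ← taylor_coeff_map]
    exact coeff_le_GN hN hρ _ i
  · apply GN_le
    intro i
    rw [taylor_coeff_map, ← h, ← taylor_coeff_map]
    exact coeff_le_GN hN hρ _ i

/-- A combination of the polynomials `B s` with constant coefficients that is small at `z`. -/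
lemma lin_step [IsAlgClosed A] [FiniteDimensional L E] (h2 : S_COUNT) {τ : ℝ} (hτ : 1 < τ)
    (hK : ∀ c : K, N (algebraMap K A c) ≤ 1)
    (hI : ∀ z : L, N (algebraMap L A z) ≤ 1 →
      ∃ c : K, N (algebraMap L A z - algebraMap K A c) ≤ τ⁻¹)
    {z : A} {ρ : ℝ} (hρ : 0 < ρ) {F : E[X]} (hF : F.Monic)
    (hc : ∀ r : A, aeval r F = 0 → ∀ R : E[X],
      GN hN r hρ (R.map (algebraMap E A)) = GN hN z hρ (R.map (algebraMap E A)))
    {ε : ℝ} (hε0 : 0 ≤ ε) (hε : N (aeval z F) ≤ ε * GN hN z hρ (F.map (algebraMap E A)))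
    {ι : Type} [Fintype ι] (B : ι → E[X]) {Ab : ℝ} (hA0 : 0 ≤ Ab)
    (hB : ∀ s, GN hN z hρ ((B s).map (algebraMap E A)) ≤ Ab) (T s : ℕ)
    (hdim : Module.finrank L E * (T * F.natDegree) * s < Fintype.card ι) :
    ∃ t : ι → K, t ≠ 0 ∧
      N (∑ i, algebraMap K A (t i) * aeval z (B i)) ≤ max (ε ^ T * Ab) (Ab / τ ^ s) := by
  classical
  have hFT : (F ^ T).Monic := hF.pow T
  let Φ : (ι → K) →ₗ[K] E[X] := Fintype.linearCombination K B
  have hΦ : ∀ t, Φ t = ∑ i, C (algebraMap K E (t i)) * B i := fun t => by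
    simp only [Φ, Fintype.linearCombination_apply]
    refine Finset.sum_congr rfl fun i _ => ?_
    rw [← smul_eq_C_mul, algebraMap_smul]
  have hΦle : ∀ t, GN hN z hρ ((Φ t).map (algebraMap E A)) ≤ Ab := fun t => by
    rw [hΦ, Polynomial.map_sum]
    refine na_sum_le (GN_na hN hρ) _ _ hA0 fun i _ => ?_
    rw [Polynomial.map_mul, map_C, map_mul, GN_C, ← IsScalarTower.algebraMap_apply]
    calc _ ≤ 1 * Ab := mul_le_mul (hK _) (hB i) (apply_nonneg _ _) zero_le_one
      _ = Ab := one_mul _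
  have hmem : ∀ P : E[X], P %ₘ F ^ T ∈ degreeLT E (T * F.natDegree) := fun P => by
    rw [mem_degreeLT, ← hF.natDegree_pow, ← degree_eq_natDegree hFT.ne_zero]
    exact degree_modByMonic_lt P hFT
  have hrem : ∀ P : E[X], GN hN z hρ ((P %ₘ F ^ T).map (algebraMap E A)) ≤
      GN hN z hρ (P.map (algebraMap E A)) := fun P => by
    have e : P.map (algebraMap E A) = (F ^ T).map (algebraMap E A) *
        (P /ₘ F ^ T).map (algebraMap E A) + (P %ₘ F ^ T).map (algebraMap E A) := by
      rw [← Polynomial.map_mul, ← Polynomial.map_add, add_comm, modByMonic_add_div]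
    have hr : ∀ r ∈ ((F ^ T).map (algebraMap E A)).roots, aeval r F = 0 := fun r hr => by
      have := (mem_roots'.1 hr).2
      rw [IsRoot.def, eval_map_algebraMap, map_pow] at this
      exact pow_eq_zero_iff'.1 this |>.1
    rw [e]
    refine GN_rem_le hN hρ ?_ (fun r h => hc r (hr r h) _) (fun r h => ?_)
    · rw [degree_map, degree_map]; exact degree_modByMonic_lt P hFT
    · rw [← e]; exact hc r (hr r h) _
  let f : (ι → K) →ₗ[K] degreeLT E (T * F.natDegree) :=
    { toFun := fun t => ⟨Φ t %ₘ F ^ T, hmem _⟩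
      map_add' := fun a b => by
        apply Subtype.ext
        simp only [map_add, add_modByMonic, Submodule.coe_add]
      map_smul' := fun c a => by
        apply Subtype.ext
        simp only [map_smul, RingHom.id_apply, Submodule.coe_smul_of_tower]
        rw [← algebraMap_smul E c (Φ a), smul_modByMonic, algebraMap_smul] }
  have : Module.Finite E (degreeLT E (T * F.natDegree)) :=
    Module.Finite.of_basis (degreeLT.basis E _)
  have : FiniteDimensional L (degreeLT E (T * F.natDegree)) := Module.Finite.trans E _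
  have hrk : Module.finrank L (degreeLT E (T * F.natDegree)) =
      Module.finrank L E * (T * F.natDegree) := by
    rw [← Module.finrank_mul_finrank L E, Module.finrank_eq_card_basis (degreeLT.basis E _),
      Fintype.card_fin]
  obtain ⟨t, ht0, ht⟩ := h2 K L (ι → K) (degreeLT E (T * F.natDegree))
    (N.comp (algebraMap L A).injective) τ hτ
    (fun c => by
      show N (algebraMap L A (algebraMap K L c)) ≤ 1
      rw [← IsScalarTower.algebraMap_apply]; exact hK c)
    (fun w hw => by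
      obtain ⟨c, hc⟩ := hI w hw
      refine ⟨c, ?_⟩
      show N (algebraMap L A (w - algebraMap K L c)) ≤ τ⁻¹
      rw [map_sub, ← IsScalarTower.algebraMap_apply]; exact hc)
    (fun w => GN hN z hρ ((w : E[X]).map (algebraMap E A))) (fun w => apply_nonneg _ _)
    (fun a b => by
      simp only [Submodule.coe_add, Polynomial.map_add]
      exact GN_na hN hρ _ _)
    (fun l w => by
      simp only [Submodule.coe_smul_of_tower]
      rw [← algebraMap_smul E l (w : E[X]), smul_eq_C_mul, Polynomial.map_mul, map_C, map_mul,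
        GN_C, ← IsScalarTower.algebraMap_apply]
      rfl)
    f Ab (fun v => (hrem _).trans (hΦle v)) s
    (by rw [hrk, Module.finrank_fintype_fun_eq_card]; exact hdim)
  refine ⟨t, ht0, ?_⟩
  have ev : ∑ i, algebraMap K A (t i) * aeval z (B i) = aeval z (Φ t) := by
    rw [hΦ, map_sum]
    refine Finset.sum_congr rfl fun i _ => ?_
    rw [map_mul, aeval_C, ← IsScalarTower.algebraMap_apply]
  have hz : N (z - z) ≤ ρ := by simpa using hρ.le
  have hev : ∀ R : E[X], N (aeval z R) ≤ GN hN z hρ (R.map (algebraMap E A)) := fun R => by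
    rw [← eval_map_algebraMap]; exact eval_le_GN hN hρ _ hz
  rw [ev, ← modByMonic_add_div (Φ t) (F ^ T), map_add, max_comm]
  refine (hN _ _).trans (max_le_max ((hev _).trans ht) ?_)
  have h3 : GN hN z hρ ((F ^ T * (Φ t /ₘ F ^ T)).map (algebraMap E A)) ≤ Ab := by
    rw [show F ^ T * (Φ t /ₘ F ^ T) = Φ t - Φ t %ₘ F ^ T from
      eq_sub_of_add_eq' (modByMonic_add_div _ _), Polynomial.map_sub]
    exact na_sub_le (GN_na hN hρ) (hΦle t) ((hrem _).trans (hΦle t))
  rw [Polynomial.map_mul, Polynomial.map_pow, map_mul, map_pow] at h3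
  rw [map_mul, map_pow, map_mul, map_pow]
  calc N (aeval z F) ^ T * N (aeval z (Φ t /ₘ F ^ T))
      ≤ (ε * GN hN z hρ (F.map (algebraMap E A))) ^ T *
        GN hN z hρ ((Φ t /ₘ F ^ T).map (algebraMap E A)) := by
        gcongr
        exact hev _
    _ = ε ^ T * (GN hN z hρ (F.map (algebraMap E A)) ^ T *
        GN hN z hρ ((Φ t /ₘ F ^ T).map (algebraMap E A))) := by ring
    _ ≤ ε ^ T * Ab := by gcongr

end Pool.Agent.KSkew

end MrgPart4

-- marker of a merged file
example : 731051 + 823327 = 731051 + 823327 := rfl
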