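import Mathlib.Algebra.Lie.OfAssociative
import Pool.Agent.MP_c8dfda_nt.Core2

/-
Row BACK: a place where the base point is close to a finite algebraic point forces a
totally ramified fixed point.
-/

open Polynomial Filter
open scoped Polynomial.Bivariate Topology IntermediateField

namespace Pool.Agent.KSkew
namespace BACK

variable {K M : Type} [Field K] [Field M] [Algebra K M]

theorem alg_le (N : AbsoluteValue M ℝ) (triv : ∀ c : K, c ≠ 0 → N (algebraMap K M c) = 1)
    (c : K) : N (algebraMap K M c) ≤ 1 := by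
  by_cases h : c = 0
  · simp [h]
  · exact (triv c h).le

theorem sum_le (N : AbsoluteValue M ℝ) (na : IsNonarchimedean N) {α : Type} (s : Finset α)
    (f : α → M) (B : ℝ) (hB : 0 ≤ B) (h : ∀ i ∈ s, N (f i) ≤ B) : N (∑ i ∈ s, f i) ≤ B := by
  classical
  induction s using Finset.induction_on with
  | empty => simpa using hB
  | insert a s ha ih =>
    rw [Finset.sum_insert ha]
    refine (na _ _).trans (max_le (h a (Finset.mem_insert_self _ _)) (ih fun i hi => ?_))
    exact h i (Finset.mem_insert_of_mem hi)

theorem aeval_le (N : AbsoluteValue M ℝ) (na : IsNonarchimedean N)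
    (triv : ∀ c : K, c ≠ 0 → N (algebraMap K M c) = 1) (a : M) (R : K[X]) :
    N (aeval a R) ≤ max 1 (N a) ^ R.natDegree := by
  rw [aeval_eq_sum_range]
  refine sum_le N na _ _ _ (by positivity) fun i hi => ?_
  rw [Algebra.smul_def, map_mul, map_pow]
  have h1 : N a ^ i ≤ max 1 (N a) ^ i := pow_le_pow_left₀ (N.nonneg _) (le_max_right _ _) i
  have h2 : max 1 (N a) ^ i ≤ max 1 (N a) ^ R.natDegree :=
    pow_le_pow_right₀ (le_max_left _ _) (Nat.lt_succ_iff.mp (Finset.mem_range.mp hi))
  calc N (algebraMap K M (R.coeff i)) * N a ^ i ≤ 1 * N a ^ i :=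
        mul_le_mul_of_nonneg_right (alg_le N triv _) (pow_nonneg (N.nonneg _) _)
    _ ≤ _ := by rw [one_mul]; exact h1.trans h2

theorem aeval_le_one (N : AbsoluteValue M ℝ) (na : IsNonarchimedean N)
    (triv : ∀ c : K, c ≠ 0 → N (algebraMap K M c) = 1) (a : M) (ha : N a ≤ 1) (R : K[X]) :
    N (aeval a R) ≤ 1 := by
  have := aeval_le N na triv a R
  rwa [max_eq_left ha, one_pow] at this

theorem le_aeval (N : AbsoluteValue M ℝ) (na : IsNonarchimedean N)
    (triv : ∀ c : K, c ≠ 0 → N (algebraMap K M c) = 1) (a : M) (p : K[X])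
    (hp : 1 ≤ p.natDegree) : max 1 (N a) ^ p.natDegree ≤ max 1 (N (aeval a p)) := by
  rcases le_or_gt (N a) 1 with h | h
  · rw [max_eq_left h, one_pow]; exact le_max_left _ _
  · rw [max_eq_right h.le]
    refine le_trans ?_ (le_max_right _ _)
    have hp0 : p ≠ 0 := by rintro rfl; simp at hp
    have h1 : N (aeval a p.eraseLead) < N a ^ p.natDegree := by
      refine (aeval_le N na triv a _).trans_lt ?_
      rw [max_eq_right h.le]
      refine pow_lt_pow_right₀ h ?_
      have := p.eraseLead_natDegree_le
      omega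
    have h2 : algebraMap K M p.leadingCoeff * a ^ p.natDegree
        = aeval a p + -(aeval a p.eraseLead) := by
      have := congrArg (aeval a) p.eraseLead_add_C_mul_X_pow
      simp only [map_add, map_mul, aeval_C, map_pow, aeval_X] at this
      linear_combination this
    have h3 := na (aeval a p) (-(aeval a p.eraseLead))
    rw [← h2, map_mul, map_pow, triv _ (leadingCoeff_ne_zero.mpr hp0), one_mul, N.map_neg] at h3
    rcases le_max_iff.mp h3 with h4 | h4
    · exact h4
    · exact absurd h4 (not_le.mpr h1)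

theorem exists_res (N : AbsoluteValue M ℝ) (na : IsNonarchimedean N)
    (triv : ∀ c : K, c ≠ 0 → N (algebraMap K M c) = 1) :
    ∃ (k : Type) (_ : Field k) (_ : Algebra K k) (r : M → k), ∀ a, N a ≤ 1 → ∀ R : K[X],
      (aeval (r a) R = 0 ↔ N (aeval a R) < 1) ∧ r (aeval a R) = aeval (r a) R := by
  classical
  let O : Subalgebra K M :=
    { carrier := {a | N a ≤ 1}
      mul_mem' := fun {a b} ha hb => by
        show N (a * b) ≤ 1
        rw [map_mul]; exact mul_le_one₀ ha (N.nonneg _) hb
      add_mem' := fun {a b} ha hb => (na a b).trans (max_le ha hb)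
      algebraMap_mem' := fun c => alg_le N triv c }
  let I : Ideal O :=
    { carrier := {a | N (a : M) < 1}
      add_mem' := fun {a b} ha hb => (na (a : M) b).trans_lt (max_lt ha hb)
      zero_mem' := by show N ((0 : O) : M) < 1; simp
      smul_mem' := fun c a ha => by
        show N ((c : M) * a) < 1
        rw [map_mul]
        exact mul_lt_one_of_nonneg_of_lt_one_right c.2 (N.nonneg _) ha }
  have hI : ∀ a : O, a ∈ I ↔ N (a : M) < 1 := fun a => Iff.rfl
  have : I.IsPrime := by
    refine ⟨?_, fun {a b} hab => ?_⟩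
    · rw [Ideal.ne_top_iff_one, hI]; simp
    · rw [hI] at hab
      rw [hI, hI]
      by_contra hc
      push Not at hc
      have : N ((a * b : O) : M) = N (a : M) * N (b : M) := by simp
      rw [this] at hab
      nlinarith [hc.1, hc.2]
  refine ⟨I.ResidueField, inferInstance, inferInstance,
    fun a => if h : N a ≤ 1 then algebraMap O I.ResidueField ⟨a, h⟩ else 0, fun a ha R => ?_⟩
  have h1 : N (aeval a R) ≤ 1 := aeval_le_one N na triv a ha R
  have h2 : (aeval (⟨a, ha⟩ : O) R : O) = ⟨aeval a R, h1⟩ := by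
    apply Subtype.ext
    exact (aeval_algHom_apply O.val (⟨a, ha⟩ : O) R).symm
  simp only [dif_pos ha, dif_pos h1]
  rw [aeval_algebraMap_apply, h2]
  exact ⟨by rw [Ideal.algebraMap_residueField_eq_zero, hI], rfl⟩

theorem deg_le {k : Type} [Field k] [Algebra K k] (a : k) (ha : IsIntegral K a) (p : K[X]) :
    (minpoly K (aeval a p)).natDegree ≤ (minpoly K a).natDegree := by
  have := IntermediateField.adjoin.finiteDimensional ha
  let w : K⟮a⟯ := aeval (IntermediateField.AdjoinSimple.gen K a) p
  have hw : (w : k) = aeval a p :=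
    (aeval_algHom_apply K⟮a⟯.val (IntermediateField.AdjoinSimple.gen K a) p).symm
  rw [← hw, ← IntermediateField.minpoly_eq, ← IntermediateField.adjoin.finrank ha]
  exact minpoly.natDegree_le w

theorem ramified [CharZero K] (p u v : K[X]) (hu : Irreducible u) (hv : Irreducible v)
    (hd : 2 ≤ p.natDegree) (c : K) (h : v.comp p = C c * u ^ p.natDegree) :
    u.natDegree ≤ 1 := by
  obtain ⟨e, he⟩ : ∃ e, p.natDegree = e + 1 := ⟨p.natDegree - 1, by omega⟩
  have hs : IsCoprime (v.comp p) ((derivative v).comp p) := by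
    have := IsCoprime.map (show IsCoprime v (derivative v) from hv.separable) (compRingHom p)
    simpa using this
  have h1 : IsCoprime (u ^ e) ((derivative v).comp p) := by
    refine hs.of_isCoprime_of_dvd_left ?_
    rw [h, he, pow_succ]
    exact Dvd.dvd.mul_left (dvd_mul_right _ _) _
  have h2 : u ^ e ∣ derivative p * (derivative v).comp p := by
    rw [← derivative_comp, h, he, derivative_C_mul, derivative_pow_succ]
    exact Dvd.dvd.mul_left (Dvd.dvd.mul_right (dvd_mul_left _ _) _) _
  have h3 : u ^ e ∣ derivative p := h1.dvd_of_dvd_mul_right h2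
  have h4 : derivative p ≠ 0 := fun h0 => by
    have := derivative_eq_zero.mp h0
    omega
  have h5 := natDegree_le_of_dvd h3 h4
  have h6 := natDegree_derivative_le p
  rw [natDegree_pow] at h5
  have he1 : 1 ≤ e := by omega
  have : e * u.natDegree ≤ e * 1 := by omega
  exact Nat.le_of_mul_le_mul_left this he1

theorem geom (d : ℕ) (hd : 2 ≤ d) (A t : ℝ) (ht : 0 < t)
    (h : ∀ n : ℕ, t * (d : ℝ) ^ (2 * n) ≤ ((d : ℝ) * (d - 1)) ^ n * A) : False := by
  have hd' : (2 : ℝ) ≤ d := by exact_mod_cast hd
  have h0 : (0 : ℝ) < d := by linarith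
  have h1 : Tendsto (fun n : ℕ => (((d : ℝ) - 1) / d) ^ n * A) atTop (𝓝 (0 * A)) := by
    refine (tendsto_pow_atTop_nhds_zero_of_lt_one ?_ ?_).mul_const A
    · exact div_nonneg (by linarith) h0.le
    · rw [div_lt_one h0]; linarith
  rw [zero_mul] at h1
  have h2 : t ≤ 0 := by
    refine ge_of_tendsto' h1 fun n => ?_
    have h3 : (0 : ℝ) < (d : ℝ) ^ (2 * n) := by positivity
    have h4 : (((d : ℝ) - 1) / d) ^ n * A * (d : ℝ) ^ (2 * n) = ((d : ℝ) * (d - 1)) ^ n * A := by
      rw [pow_mul, mul_right_comm, ← mul_pow]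
      congr 2
      field_simp
    have := h n
    rw [← h4] at this
    exact le_of_mul_le_mul_right this h3
  linarith

theorem affine_iter {A : Type} [Field A] [Algebra K A] (a α : K) (x : ℤ → A)
    (hx : ∀ j, x (j + 1) = aeval (x j) (C α + C a * (X - C α))) (j : ℤ) (h : ℕ) :
    x (j + h) - algebraMap K A α = algebraMap K A (a ^ h) * (x j - algebraMap K A α) := by
  induction h with
  | zero => simp
  | succ h ih =>
    rw [Nat.cast_succ, ← add_assoc, hx, pow_succ, map_mul]
    simp only [map_add, map_mul, map_sub, aeval_C, aeval_X]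
    linear_combination (algebraMap K A a) * ih

theorem transl_iter {A : Type} [Field A] [Algebra K A] (b : K) (x : ℤ → A)
    (hx : ∀ j, x (j + 1) = aeval (x j) (X + C b)) (j : ℤ) (h : ℕ) :
    x (j + h) = x j + algebraMap K A (h * b) := by
  induction h with
  | zero => simp
  | succ h ih =>
    rw [Nat.cast_succ, ← add_assoc, hx, ih]
    simp only [map_add, map_mul, aeval_C, aeval_X, Nat.cast_succ, map_one, map_natCast]
    ring

end BACK

open BACK in
theorem back : S_BACK := by
  intro K M ι _ _ _ _ _ p q N x y G hp i h0 j0 R hR hRj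
  classical
  have hp0 : p ≠ 0 := by rintro rfl; simp at hp
  have hback : ∀ i' (j : ℤ) (n : ℕ),
      max 1 (N i' (x j)) ^ (p.natDegree ^ n) ≤ max 1 (N i' (x (j + n))) := by
    intro i' j n
    induction n with
    | zero => simp
    | succ n ih =>
      rw [Nat.cast_succ, ← add_assoc, G.recx, pow_succ, pow_mul]
      exact (pow_le_pow_left₀ (by positivity) ih _).trans
        (le_aeval (N i') (G.na i') (G.triv i') _ p hp)
  have hle : ∀ j, N i (x j) ≤ 1 := by
    intro j
    rcases le_total 0 j with hj | hj
    · induction j, hj using Int.leInduction with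
      | base => exact h0
      | succ j _ ih => rw [G.recx]; exact aeval_le_one (N i) (G.na i) (G.triv i) _ ih p
    · have h1 := hback i j (-j).toNat
      rw [show j + ((-j).toNat : ℤ) = 0 by omega, max_eq_left h0] at h1
      have h2 : max 1 (N i (x j)) ≤ 1 :=
        (pow_le_one_iff_of_nonneg (by positivity) (pow_ne_zero _ (by omega))).mp h1
      exact (le_max_right _ _).trans h2
  obtain ⟨k, _, _, r, hr⟩ := exists_res (N i) (G.na i) (G.triv i)
  obtain ⟨z, hz⟩ : ∃ z : ℤ → k, ∀ j, z j = r (x j) := ⟨_, fun _ => rfl⟩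
  have link : ∀ j (S : K[X]), aeval (z j) S = 0 ↔ N i (aeval (x j) S) < 1 := fun j S => by
    rw [hz]; exact (hr _ (hle j) S).1
  have recz : ∀ j, z (j + 1) = aeval (z j) p := fun j => by
    rw [hz, hz, G.recx]; exact (hr _ (hle j) p).2
  have far : ∀ j (S : K[X]), aeval (z j) S = 0 → ∀ n : ℕ, ∃ j', j + n ≤ j' ∧
      aeval (z j') S = 0 := by
    intro j S hS n
    induction n with
    | zero => exact ⟨j, by simp, hS⟩
    | succ n ih =>
      obtain ⟨j', h1, h2⟩ := ih
      obtain ⟨h, h3, h4⟩ := G.recur i j' S ((link _ _).mp h2)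
      exact ⟨j' + h, by omega, (link _ _).mpr h4⟩
  have hint : ∀ j, IsIntegral K (z j) := by
    intro j
    obtain ⟨j', h1, h2⟩ := far j0 R ((link _ _).mpr hRj) (j - j0).toNat
    have h3 : j ≤ j' := by omega
    refine IsAlgebraic.isIntegral ?_
    induction j, h3 using Int.leInductionDown with
    | base => exact ⟨R, hR, h2⟩
    | pred j hj ih =>
      refine IsAlgebraic.of_aeval p (by omega)
        (mem_nonZeroDivisors_of_ne_zero (leadingCoeff_ne_zero.mpr hp0)) ?_
      rw [← recz, sub_add_cancel]
      exact ih (by omega)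
  have hanti : Antitone fun j => (minpoly K (z j)).natDegree :=
    antitone_int_of_succ_le fun j => by
      simp only [recz]; exact deg_le _ (hint j) p
  have hdeg : ∀ j j', (minpoly K (z j)).natDegree ≤ (minpoly K (z j')).natDegree := by
    intro j j'
    obtain ⟨j'', h1, h2⟩ := far j _ (minpoly.aeval K (z j)) (j' - j).toNat
    have h3 := minpoly.eq_of_irreducible_of_monic (minpoly.irreducible (hint j)) h2
      (minpoly.monic (hint j))
    rw [h3]
    exact hanti (show j' ≤ j'' by omega)
  rcases eq_or_lt_of_le hp with hd | hd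
  · -- degree one
    obtain ⟨m, -, m', -, hlt, heq⟩ :=
      Set.Infinite.exists_lt_map_eq_of_mapsTo (s := {j | aeval (z j) R = 0}) (f := z)
        (t := R.rootSet k)
        (Set.infinite_of_forall_exists_gt fun a => by
          obtain ⟨j', h1, h2⟩ := far j0 R ((link _ _).mpr hRj) (a + 1 - j0).toNat
          exact ⟨j', h2, by omega⟩)
        (fun j hj => mem_rootSet.mpr ⟨hR, hj⟩) (rootSet_finite R k)
    obtain ⟨h, rfl⟩ : ∃ h : ℕ, m' = m + h := ⟨(m' - m).toNat, by omega⟩
    have hh : 1 ≤ h := by omega
    obtain ⟨a, b, hab⟩ := exists_eq_X_add_C_of_natDegree_le_one hd.ge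
    have ha0 : a ≠ 0 := by
      rintro rfl
      rw [hab] at hd
      simp at hd
    by_cases ha : a = 1
    · exfalso
      have hp' : p = X + C b := by rw [hab, ha]; simp
      have h1 := transl_iter b z (fun j => by rw [← hp']; exact recz j) m h
      have h2 := transl_iter b x (fun j => by rw [← hp']; exact G.recx j) m h
      have h3 : algebraMap K k (h * b) = 0 := by linear_combination -h1 - heq
      rw [(map_eq_zero _).mp h3, map_zero, add_zero] at h2
      exact G.inj m h hh h2
    · have h1a : 1 - a ≠ 0 := sub_ne_zero.mpr (Ne.symm ha)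
      obtain ⟨α, hα⟩ : ∃ α : K, b = α - a * α := ⟨b / (1 - a), by field_simp⟩
      have hp' : p = C α + C a * (X - C α) := by
        rw [hab, hα, map_sub, map_mul]; ring
      have h1 := affine_iter a α z (fun j => by rw [← hp']; exact recz j) m h
      have h2 := affine_iter a α x fun j => by rw [← hp']; exact G.recx j
      have h3 : a ^ h ≠ 1 := by
        intro h4
        have h5 := h2 m h
        rw [h4, map_one, one_mul] at h5
        exact G.inj m h hh (sub_left_injective h5)
      have h4 : z m - algebraMap K k α = 0 := by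
        have h5 : (algebraMap K k (a ^ h) - 1) * (z m - algebraMap K k α) = 0 := by
          linear_combination -h1 - heq
        refine (mul_eq_zero.mp h5).resolve_left fun h6 => h3 ?_
        exact (algebraMap K k).injective (by rw [map_one]; exact sub_eq_zero.mp h6)
      have h5 : N i (x m - algebraMap K M α) < 1 := by
        have := (link m (X - C α)).mp (by simpa using h4)
        simpa using this
      have h6 : ∀ j (n : ℕ), N i (x (j + n) - algebraMap K M α) = N i (x j - algebraMap K M α) :=
        fun j n => by rw [h2, map_mul, G.triv i _ (pow_ne_zero _ ha0), one_mul]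
      refine ⟨α, a, by rw [← hd, pow_one]; exact hp', ?_⟩
      rcases le_total 0 m with hm | hm
      · rw [← h6 0 m.toNat, show (0 : ℤ) + (m.toNat : ℤ) = m by omega]; exact h5
      · rw [← h6 m (-m).toNat, show m + ((-m).toNat : ℤ) = 0 by omega] at h5; exact h5
  · -- degree at least two
    obtain ⟨t, ht⟩ : ∃ t : ℤ → ℝ, ∀ j, t j = N i (aeval (x j) (minpoly K (z j))) :=
      ⟨_, fun _ => rfl⟩
    have hne : ∀ j, aeval (x j) (minpoly K (z j)) ≠ 0 := fun j h =>
      minpoly.ne_zero (hint j) (G.trans j _ h)
    have ht0 : ∀ j, 0 < t j := fun j => by rw [ht]; exact (N i).pos (hne j)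
    have ht1 : ∀ j, t j < 1 := fun j => by rw [ht]; exact (link _ _).mp (minpoly.aeval K _)
    have hτ : ∀ j, 0 < -Real.log (t j) := fun j => neg_pos.mpr (Real.log_neg (ht0 j) (ht1 j))
    have step : ∀ j, -Real.log (t (j + 1)) ≤ (p.natDegree : ℝ) * -Real.log (t j) ∧
        (-Real.log (t (j + 1)) ≤ ((p.natDegree : ℝ) - 1) * -Real.log (t j) ∨
          ∃ c : K, c ≠ 0 ∧ (minpoly K (z (j + 1))).comp p
            = C c * minpoly K (z j) ^ p.natDegree) := by
      intro j
      have hg := minpoly.natDegree_pos (hint (j + 1))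
      have hc0 : (minpoly K (z (j + 1))).comp p ≠ 0 := by
        intro h
        have := congrArg natDegree h
        rw [natDegree_comp, natDegree_zero] at this
        have := Nat.mul_pos hg hp
        omega
      obtain ⟨μ, W, hW, hμ⟩ := WfDvdMonoid.max_power_factor hc0 (minpoly.irreducible (hint j))
      have hW0 : W ≠ 0 := by rintro rfl; exact hW (dvd_zero _)
      have hW1 : N i (aeval (x j) W) = 1 :=
        le_antisymm (aeval_le_one _ (G.na i) (G.triv i) _ (hle j) W)
          (not_lt.mp fun h => hW (minpoly.dvd K _ ((link _ _).mpr h)))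
      have h1 : t (j + 1) = t j ^ μ := by
        rw [ht, ht, G.recx, ← aeval_comp, hμ, map_mul, map_mul, hW1, mul_one, map_pow, map_pow]
      have h2 := congrArg natDegree hμ
      rw [natDegree_comp, natDegree_mul (pow_ne_zero _ (minpoly.ne_zero (hint j))) hW0,
        natDegree_pow, le_antisymm (hdeg j (j + 1)) (hdeg (j + 1) j)] at h2
      have h3 : μ ≤ p.natDegree := by
        refine Nat.le_of_mul_le_mul_right (c := (minpoly K (z (j + 1))).natDegree) ?_ hg
        rw [mul_comm p.natDegree]; omega
      have h4 : -Real.log (t (j + 1)) = (μ : ℝ) * -Real.log (t j) := by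
        rw [h1, Real.log_pow]; ring
      rw [h4]
      refine ⟨mul_le_mul_of_nonneg_right (by exact_mod_cast h3) (hτ j).le, ?_⟩
      rcases eq_or_lt_of_le h3 with h5 | h5
      · right
        rw [h5, mul_comm p.natDegree] at h2
        obtain ⟨c, hc⟩ := natDegree_eq_zero.mp (show W.natDegree = 0 by omega)
        refine ⟨c, fun h => hW0 (by rw [← hc, h, map_zero]), ?_⟩
        rw [hμ, h5, hc, mul_comm]
      · left
        refine mul_le_mul_of_nonneg_right ?_ (hτ j).le
        have : ((μ + 1 : ℕ) : ℝ) ≤ p.natDegree := by exact_mod_cast h5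
        push_cast at this
        linarith
    obtain ⟨Λ, hΛ⟩ : ∃ Λ : ℝ, Λ = ∏ i' ∈ Finset.univ.erase i,
        max 1 (N i' (x 0)) ^ (minpoly K (z 0)).natDegree := ⟨_, rfl⟩
    have hΛ0 : 0 < Λ := by rw [hΛ]; positivity
    have low : ∀ n : ℕ, (p.natDegree : ℝ) ^ n * -Real.log (t (-n)) ≤ Real.log Λ := by
      intro n
      have h1 := G.pf (-n) (C (minpoly K (z (-n)))) (by rw [aevalAeval_C]; exact hne _)
      rw [aevalAeval_C, ← Finset.mul_prod_erase _ _ (Finset.mem_univ i), ← ht] at h1
      have h2 : 1 ≤ t (-n) ^ (p.natDegree ^ n) * Λ := by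
        refine (one_le_pow₀ (n := p.natDegree ^ n) h1).trans ?_
        rw [mul_pow, ← Finset.prod_pow, hΛ]
        refine mul_le_mul_of_nonneg_left (Finset.prod_le_prod (fun i' _ => by positivity)
          fun i' _ => ?_) (pow_nonneg (ht0 _).le _)
        have h3 := aeval_le (N i') (G.na i') (G.triv i') (x (-n)) (minpoly K (z (-n)))
        rw [le_antisymm (hdeg (-n) 0) (hdeg 0 (-n))] at h3
        have h4 := hback i' (-n) n
        rw [neg_add_cancel] at h4
        refine (pow_le_pow_left₀ ((N i').nonneg _) h3 _).trans ?_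
        rw [← pow_mul, mul_comm, pow_mul]
        exact pow_le_pow_left₀ (by positivity) h4 _
      have h3 := Real.log_nonneg h2
      rw [Real.log_mul (pow_pos (ht0 _) _).ne' hΛ0.ne', Real.log_pow] at h3
      push_cast at h3
      linarith
    have two : ∃ j : ℤ, j + 1 ≤ 0 ∧
        (∃ c : K, c ≠ 0 ∧ (minpoly K (z (j + 1))).comp p = C c * minpoly K (z j) ^ p.natDegree) ∧
        ∃ c : K, c ≠ 0 ∧ (minpoly K (z (j + 1 + 1))).comp p
          = C c * minpoly K (z (j + 1)) ^ p.natDegree := by
      by_contra hc
      have hd' : (2 : ℝ) ≤ p.natDegree := by exact_mod_cast hd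
      have h1 : ∀ j : ℤ, j + 1 ≤ 0 → -Real.log (t (j + 1 + 1))
          ≤ ((p.natDegree : ℝ) * (p.natDegree - 1)) * -Real.log (t j) := by
        intro j hj
        obtain ⟨a1, a2⟩ := step j
        obtain ⟨b1, b2⟩ := step (j + 1)
        rcases a2 with a2 | a2
        · calc _ ≤ _ := b1
            _ ≤ (p.natDegree : ℝ) * (((p.natDegree : ℝ) - 1) * -Real.log (t j)) :=
              mul_le_mul_of_nonneg_left a2 (by linarith)
            _ = _ := by ring
        · rcases b2 with b2 | b2
          · calc _ ≤ _ := b2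
              _ ≤ ((p.natDegree : ℝ) - 1) * ((p.natDegree : ℝ) * -Real.log (t j)) :=
                mul_le_mul_of_nonneg_left a1 (by linarith)
              _ = _ := by ring
          · exact absurd ⟨j, hj, a2, b2⟩ hc
      have h2 : ∀ n : ℕ, -Real.log (t 0)
          ≤ ((p.natDegree : ℝ) * (p.natDegree - 1)) ^ n * -Real.log (t (-((2 * n : ℕ) : ℤ))) := by
        intro n
        induction n with
        | zero => simp
        | succ n ih =>
          have h3 := h1 (-((2 * (n + 1) : ℕ) : ℤ)) (by omega)
          rw [show -((2 * (n + 1) : ℕ) : ℤ) + 1 + 1 = -((2 * n : ℕ) : ℤ) by omega] at h3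
          refine ih.trans ?_
          rw [pow_succ, mul_assoc]
          exact mul_le_mul_of_nonneg_left h3
            (pow_nonneg (mul_nonneg (by linarith) (by linarith)) _)
      refine geom p.natDegree hd (Real.log Λ) _ (hτ 0) fun n => ?_
      calc _ ≤ ((p.natDegree : ℝ) * (p.natDegree - 1)) ^ n * -Real.log (t (-((2 * n : ℕ) : ℤ)))
            * (p.natDegree : ℝ) ^ (2 * n) :=
            mul_le_mul_of_nonneg_right (h2 n) (by positivity)
        _ = ((p.natDegree : ℝ) * (p.natDegree - 1)) ^ n *
            ((p.natDegree : ℝ) ^ (2 * n) * -Real.log (t (-((2 * n : ℕ) : ℤ)))) := by ring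
        _ ≤ _ := mul_le_mul_of_nonneg_left (low (2 * n))
            (pow_nonneg (mul_nonneg (by linarith) (by linarith)) _)
    obtain ⟨j, hj, ⟨c, hc0, hc⟩, ⟨c', -, hc'⟩⟩ := two
    have hg1 := ramified p _ _ (minpoly.irreducible (hint j)) (minpoly.irreducible (hint (j + 1)))
      hd c hc
    have lin : ∀ j', ∃ α : K, minpoly K (z j') = X - C α := fun j' => by
      have h1 : (minpoly K (z j')).natDegree = 1 :=
        le_antisymm ((hdeg j' j).trans hg1) (minpoly.natDegree_pos (hint j'))
      exact ⟨-(minpoly K (z j')).coeff 0, by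
        rw [map_neg, sub_neg_eq_add]; exact (minpoly.monic (hint j')).eq_X_add_C h1⟩
    obtain ⟨α0, h0'⟩ := lin j
    obtain ⟨α1, h1'⟩ := lin (j + 1)
    obtain ⟨α2, h2'⟩ := lin (j + 1 + 1)
    rw [h0', h1', sub_comp, X_comp, C_comp] at hc
    rw [h1', h2', sub_comp, X_comp, C_comp] at hc'
    have hα : α1 = α0 := by
      obtain ⟨e, he⟩ : ∃ e, p.natDegree = e + 1 + 1 := ⟨p.natDegree - 2, by omega⟩
      have e1 := congrArg (fun S => (derivative S).eval α1) hc
      have e2 := congrArg (fun S => (derivative S).eval α1) hc'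
      simp only [he, derivative_sub, derivative_C, sub_zero, derivative_C_mul, derivative_pow_succ,
        derivative_X, mul_one, eval_mul, eval_C, eval_pow, eval_sub, eval_X, sub_self] at e1 e2
      rw [e2, zero_pow (Nat.succ_ne_zero e), mul_zero, mul_zero] at e1
      have e3 : ((e + 1 : ℕ) : K) + 1 ≠ 0 := by exact_mod_cast Nat.succ_ne_zero (e + 1)
      have e4 := (mul_eq_zero.mp ((mul_eq_zero.mp e1.symm).resolve_left hc0)).resolve_left e3
      exact sub_eq_zero.mp (pow_eq_zero_iff (Nat.succ_ne_zero e) |>.mp e4)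
    subst hα
    refine ⟨α1, c, by rw [← hc]; ring, ?_⟩
    have base : N i (x j - algebraMap K M α1) < 1 := by
      have := ht1 j
      rw [ht, h0'] at this
      simpa using this
    have fwd : ∀ j', j ≤ j' → N i (x j' - algebraMap K M α1) < 1 := by
      intro j' hj'
      induction j', hj' using Int.leInduction with
      | base => exact base
      | succ j' _ ih =>
        have e1 := congrArg (aeval (x j')) hc
        simp only [map_sub, map_mul, map_pow, aeval_C, aeval_X] at e1
        rw [G.recx, e1, map_mul, map_pow, G.triv i c hc0, one_mul]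
        exact pow_lt_one₀ ((N i).nonneg _) ih (by omega)
    exact fwd 0 (by omega)

end Pool.Agent.KSkew
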