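import Pool.Agent.MP_c8dfda_nt.Core2

/-
Row BAD: normalisation of an orbit at a place of bad reduction of the fibre map.
-/

open Polynomial Filter
open scoped IntermediateField

namespace Pool.Agent.KSkew

namespace Bad

section near

variable {M : Type} [Field M] {N : AbsoluteValue M ℝ}

lemma near_refl (a : M) : Near N a a := Or.inl rfl

lemma near_zero {a : M} (h : Near N a 0) : a = 0 := by
  rcases h with h | h
  · exact h
  · rw [map_zero] at h
    exact absurd h (not_lt.mpr (N.nonneg _))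

lemma near_lt {a b : M} (h : Near N a b) (hb : b ≠ 0) : N (a - b) < N b := by
  rcases h with h | h
  · rw [h, sub_self, map_zero]; exact N.pos hb
  · exact h

lemma near_eq (hN : IsNonarchimedean N) {a b : M} (h : Near N a b) : N a = N b := by
  rcases h with h | h
  · rw [h]
  · apply na_eq_of_sub_lt hN
    rwa [N.map_sub]

lemma near_mul (hN : IsNonarchimedean N) {a b c d : M} (h : Near N a b) (h' : Near N c d) :
    Near N (a * c) (b * d) := by
  by_cases hb : b = 0
  · subst hb; left; rw [near_zero h]; simp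
  by_cases hd : d = 0
  · subst hd; left; rw [near_zero h']; simp
  right
  have e : a * c - b * d = a * (c - d) + (a - b) * d := by ring
  rw [e, map_mul]
  apply na_add_lt hN
  · rw [map_mul, near_eq hN h]
    exact mul_lt_mul_of_pos_left (near_lt h' hd) (N.pos hb)
  · rw [map_mul]
    exact mul_lt_mul_of_pos_right (near_lt h hb) (N.pos hd)

lemma near_trans (hN : IsNonarchimedean N) {a b c : M} (h : Near N a b) (h' : Near N b c) :
    Near N a c := by
  by_cases hc : c = 0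
  · subst hc
    have hb := near_zero h'
    subst hb
    exact h
  have hb : b ≠ 0 := by
    intro hb
    have := near_eq hN h'
    rw [hb, map_zero] at this
    exact (N.pos hc).ne this
  right
  have e : a - c = (a - b) + (b - c) := by ring
  rw [e]
  apply na_add_lt hN
  · rw [← near_eq hN h']; exact near_lt h hb
  · exact near_lt h' hc

lemma near_pow (hN : IsNonarchimedean N) {a b : M} (h : Near N a b) (n : ℕ) :
    Near N (a ^ n) (b ^ n) := by
  induction n with
  | zero => simpa using near_refl (1 : M)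
  | succ n ih => rw [pow_succ, pow_succ]; exact near_mul hN ih h

lemma near_inv (hN : IsNonarchimedean N) {a b : M} (h : Near N a b) : Near N a⁻¹ b⁻¹ := by
  by_cases hb : b = 0
  · subst hb; left; rw [near_zero h]
  have hab := near_eq hN h
  have hbp := N.pos hb
  have ha : a ≠ 0 := by
    intro ha
    rw [ha, map_zero] at hab
    exact hbp.ne hab
  right
  have e : a⁻¹ - b⁻¹ = (b - a) * (a⁻¹ * b⁻¹) := by field_simp
  rw [e, map_mul, map_mul, map_inv₀, map_inv₀, hab, N.map_sub, ← mul_assoc]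
  have h1 : N (a - b) * (N b)⁻¹ < 1 := by
    rw [← div_eq_mul_inv, div_lt_one hbp]; exact near_lt h hb
  have h2 : 0 < (N b)⁻¹ := inv_pos.mpr hbp
  nlinarith

lemma near_zpow (hN : IsNonarchimedean N) {a b : M} (h : Near N a b) (n : ℤ) :
    Near N (a ^ n) (b ^ n) := by
  rcases n with n | n
  · simpa using near_pow hN h n
  · rw [zpow_negSucc, zpow_negSucc]
    exact near_inv hN (near_pow hN h _)

lemma root_le_one (hN : IsNonarchimedean N) (P : M[X]) (hP : P.Monic)
    (hc : ∀ i, N (P.coeff i) ≤ 1) {r : M} (hr : P.eval r = 0) : N r ≤ 1 := by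
  by_contra hlt
  push Not at hlt
  rw [eval_eq_sum_range, Finset.sum_range_succ, hP.coeff_natDegree, one_mul] at hr
  have hpos : 0 < N r ^ P.natDegree := pow_pos (lt_trans one_pos hlt) _
  have h1 : N (∑ i ∈ Finset.range P.natDegree, P.coeff i * r ^ i) < N r ^ P.natDegree := by
    apply na_sum_lt hN _ _ hpos
    intro i hi
    rw [map_mul, map_pow]
    have h2 : N r ^ i < N r ^ P.natDegree := pow_lt_pow_right₀ hlt (Finset.mem_range.mp hi)
    have h3 : 0 < N r ^ i := pow_pos (lt_trans one_pos hlt) _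
    nlinarith [hc i, N.nonneg (P.coeff i)]
  rw [eq_neg_of_add_eq_zero_left hr, N.map_neg, map_pow] at h1
  exact lt_irrefl _ h1

variable {K : Type} [Field K] [Algebra K M]

lemma triv_le (htr : ∀ c : K, c ≠ 0 → N (algebraMap K M c) = 1) (c : K) :
    N (algebraMap K M c) ≤ 1 := by
  by_cases h : c = 0
  · simp [h]
  · exact (htr c h).le

lemma int_le_one (hN : IsNonarchimedean N) (htr : ∀ c : K, c ≠ 0 → N (algebraMap K M c) = 1)
    {r : M} (hr : IsIntegral K r) : N r ≤ 1 := by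
  apply root_le_one hN ((minpoly K r).map (algebraMap K M)) ((minpoly.monic hr).map _)
  · intro i
    rw [coeff_map]
    exact triv_le htr _
  · rw [eval_map_algebraMap]
    exact minpoly.aeval K r

lemma int_eq_one (hN : IsNonarchimedean N) (htr : ∀ c : K, c ≠ 0 → N (algebraMap K M c) = 1)
    {r : M} (hr : IsIntegral K r) (h0 : r ≠ 0) : N r = 1 := by
  have h1 := int_le_one hN htr hr
  have h2 := int_le_one hN htr (hr.isAlgebraic.inv.isIntegral)
  rw [map_inv₀] at h2
  have h3 := N.pos h0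
  exact le_antisymm h1 ((inv_le_one₀ h3).mp h2)

end near

section poly

variable {R : Type} [Field R]

/-- The monic polynomial of degree `d` with lower coefficients `c`. -/
noncomputable def mp (d : ℕ) (c : ℕ → R) : R[X] :=
  X ^ d + ∑ i ∈ Finset.range d, C (c i) * X ^ i

lemma mp_coeff (d : ℕ) (c : ℕ → R) (i : ℕ) :
    (mp d c).coeff i = if i = d then 1 else if i < d then c i else 0 := by
  simp only [mp, coeff_add, coeff_X_pow, finsetSum_coeff, coeff_C_mul, mul_ite, mul_one,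
    mul_zero, Finset.sum_ite_eq, Finset.mem_range]
  by_cases h : i = d
  · simp [h]
  · simp [h]

lemma mp_deg (d : ℕ) (c : ℕ → R) : (mp d c).Monic ∧ (mp d c).natDegree = d := by
  have h1 : (mp d c).natDegree ≤ d := by
    rw [natDegree_le_iff_coeff_eq_zero]
    intro i hi
    rw [mp_coeff, if_neg hi.ne', if_neg (not_lt.mpr hi.le)]
  have h2 : (mp d c).coeff d = 1 := by rw [mp_coeff, if_pos rfl]
  exact ⟨monic_of_natDegree_le_of_coeff_eq_one d h1 h2,
    natDegree_eq_of_le_of_coeff_ne_zero h1 (by rw [h2]; exact one_ne_zero)⟩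

lemma mp_eval (d : ℕ) (c : ℕ → R) (w : R) :
    (mp d c).eval w = w ^ d + ∑ i ∈ Finset.range d, c i * w ^ i := by
  simp [mp, eval_finsetSum]

lemma mp_map {S : Type} [Field S] (f : R →+* S) (d : ℕ) (c : ℕ → R) :
    (mp d c).map f = mp d fun i => f (c i) := by
  simp [mp, Polynomial.map_sum]

lemma two_roots [IsAlgClosed R] [CharZero R] (d : ℕ) (c : ℕ → R) (hd : 1 ≤ d)
    (h1 : c (d - 1) = 0) {i : ℕ} (hi : i < d) (h2 : c i ≠ 0) :
    ∃ r ∈ (mp d c).roots, ∃ r' ∈ (mp d c).roots, r ≠ r' := by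
  by_contra hcon
  push Not at hcon
  obtain ⟨hm, hdeg⟩ := mp_deg d c
  have hcard : (mp d c).roots.card = d := by
    rw [IsAlgClosed.card_roots_eq_natDegree, hdeg]
  obtain ⟨r, hr⟩ : ∃ r, r ∈ (mp d c).roots := by
    apply Multiset.card_pos_iff_exists_mem.mp
    omega
  have hrep : (mp d c).roots = Multiset.replicate d r :=
    Multiset.eq_replicate.mpr ⟨hcard, fun b hb => hcon b hb r hr⟩
  have hg : mp d c = (X - C r) ^ d := by
    have := (IsAlgClosed.splits (mp d c)).eq_prod_roots_of_monic hm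
    rw [hrep] at this
    simpa using this
  have hn : (mp d c).nextCoeff = 0 := by
    rw [nextCoeff_of_natDegree_pos (by omega), hdeg, mp_coeff, if_neg (by omega),
      if_pos (by omega), h1]
  rw [hg, (monic_X_sub_C r).nextCoeff_pow, nextCoeff_X_sub_C, nsmul_eq_mul] at hn
  have hr0 : r = 0 := by
    rcases mul_eq_zero.mp hn with h | h
    · exact absurd (Nat.cast_eq_zero.mp h) (by omega)
    · exact neg_eq_zero.mp h
  have h3 := mp_coeff d c i
  rw [if_neg hi.ne, if_pos hi, hg, hr0, map_zero, sub_zero, coeff_X_pow, if_neg hi.ne] at h3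
  exact h2 h3.symm

end poly

lemma slope {K : Type} [Field K] (d d₁ : ℕ) (β : ℕ → K) (δ : ℕ → ℤ)
    (h : ∃ i < d, β i ≠ 0 ∧ -δ d * ((d : ℤ) - i) < ((d : ℤ) - d₁) * (δ i - δ d))
    (hd : d₁ < d) :
    ∃ (m : ℕ) (s : ℤ), 1 ≤ m ∧ 1 ≤ m * δ d + ((d : ℤ) - d₁) * s ∧
      (∀ i < d, β i ≠ 0 → m * (δ i - δ d) - s * ((d : ℤ) - i) ≤ 0) ∧
      ∃ i < d, β i ≠ 0 ∧ m * (δ i - δ d) - s * ((d : ℤ) - i) = 0 := by
  classical
  obtain ⟨i₁, hi₁, hβ₁, hbad⟩ := h
  obtain ⟨i₀, hi₀, hmax⟩ := Finset.exists_max_image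
    ((Finset.range d).filter fun i => β i ≠ 0)
    (fun i => ((δ i - δ d : ℤ) : ℚ) / (((d : ℤ) - i : ℤ) : ℚ)) ⟨i₁, by simp [hi₁, hβ₁]⟩
  simp only [Finset.mem_filter, Finset.mem_range] at hi₀ hmax
  have hm : ((d - i₀ : ℕ) : ℤ) = (d : ℤ) - i₀ := by omega
  have key : ∀ i < d, β i ≠ 0 →
      ((d : ℤ) - i₀) * (δ i - δ d) - (δ i₀ - δ d) * ((d : ℤ) - i) ≤ 0 := by
    intro i hi hβ
    have h1 := hmax i ⟨hi, hβ⟩
    have p1 : (0 : ℚ) < (((d : ℤ) - i : ℤ) : ℚ) := Int.cast_pos.mpr (by omega)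
    have p2 : (0 : ℚ) < (((d : ℤ) - i₀ : ℤ) : ℚ) := Int.cast_pos.mpr (by omega)
    rw [div_le_div_iff₀ p1 p2] at h1
    have h2 : (δ i - δ d) * ((d : ℤ) - i₀) ≤ (δ i₀ - δ d) * ((d : ℤ) - i) := by
      exact_mod_cast h1
    linarith
  refine ⟨d - i₀, δ i₀ - δ d, by omega, ?_, ?_, i₀, hi₀.1, hi₀.2, ?_⟩
  · rw [hm]
    have k1 := key i₁ hi₁ hβ₁
    have p1 : (0 : ℤ) < (d : ℤ) - i₁ := by omega
    have p2 : (0 : ℤ) < (d : ℤ) - i₀ := by omega
    have p3 : (0 : ℤ) < (d : ℤ) - d₁ := by omega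
    have k2 := mul_lt_mul_of_pos_left hbad p2
    have k3 := mul_le_mul_of_nonneg_left k1 p3.le
    have k4 : 0 < (((d : ℤ) - i₀) * δ d + ((d : ℤ) - d₁) * (δ i₀ - δ d)) * ((d : ℤ) - i₁) := by
      nlinarith
    have k5 := (mul_pos_iff_of_pos_right p1).mp k4
    omega
  · rw [hm]; exact key
  · rw [hm]; ring

lemma core (h2 : S_ESC) (h3 : S_CORE) (K A : Type) [Field K] [CharZero K] [Field A]
    [Algebra K A] [IsAlgClosed A] (N : AbsoluteValue A ℝ) (L : IntermediateField K A)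
    (hN : IsNonarchimedean N) (htr : ∀ c : K, c ≠ 0 → N (algebraMap K A c) = 1)
    (d d₁ : ℕ) (l : K) (β : ℕ → K) (δ : ℕ → ℤ) (c₀ : ℝ) (ξ z u : ℕ → A) (b : ℕ → ℕ → A)
    (x : A) (hconj : ∀ β β' : A, IsIntegral L β → minpoly L β = minpoly L β' → N β = N β')
    (himm : ∀ z ∈ L, N z ≤ 1 → ∃ c : K, N (z - algebraMap K A c) ≤ (N (ξ 0))⁻¹)
    (hξL : ξ 0 ∈ L) (hd₁ : 1 ≤ d₁) (hd : d₁ < d) (hl : l ≠ 0) (hξ : 1 < N (ξ 0))
    (hrec : ∀ j, Near N (ξ (j + 1)) (algebraMap K A l * ξ j ^ d₁)) (hβd : β d ≠ 0)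
    (hβ1 : β (d - 1) = 0)
    (hb : ∀ j, ∀ i ≤ d, b j i ∈ L ∧ Near N (b j i) (algebraMap K A (β i) * ξ j ^ δ i))
    (hz : ∀ j, z (j + 1) = ∑ i ∈ Finset.range (d + 1), b j i * z j ^ i) (hx : x ∈ L)
    (hu : ∀ j, u j ∈ L ∧ N (u j) ≤ Real.exp (c₀ * (d₁ : ℝ) ^ j) ∧
      N (z j) ≤ Real.exp (c₀ * (d₁ : ℝ) ^ j))
    (hbad : ∃ i < d, β i ≠ 0 ∧ -δ d * ((d : ℤ) - i) < ((d : ℤ) - d₁) * (δ i - δ d)) (c : ℝ) :
    ∃ (k : ℕ) (t : Fin (d ^ k * d₁ ^ k) × Fin (d ^ k) × Fin (d ^ k) → K), t ≠ 0 ∧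
      N (TS t x (u 0 + z 0) (u k + z k)) ≤
        Real.exp (-(c * ((d : ℝ) ^ k * (d₁ : ℝ) ^ k))) := by
  classical
  have hchar : CharZero A := charZero_of_injective_algebraMap (algebraMap K A).injective
  obtain ⟨m, s, hm, hΓ, hε, i₀, hi₀, hβ₀, hε₀⟩ := slope d d₁ β δ hbad hd
  obtain ⟨θ, hθ⟩ := IsAlgClosed.exists_pow_nat_eq (ξ 0) (n := m) hm
  obtain ⟨lam, hlam⟩ := IsAlgClosed.exists_pow_nat_eq (algebraMap K A l) (n := m) hm
  have hNlam : N lam = 1 := by
    have h := htr l hl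
    rw [← hlam, map_pow] at h
    exact (pow_eq_one_iff_of_nonneg (N.nonneg _) (by omega)).mp h
  have hNθ : 1 < N θ := by
    rw [← hθ, map_pow] at hξ
    exact (one_lt_pow_iff_of_nonneg (N.nonneg _) (by omega)).mp hξ
  obtain ⟨η, hη0, hηs⟩ : ∃ η : ℕ → A, η 0 = θ ∧ ∀ j, η (j + 1) = lam * η j ^ d₁ :=
    ⟨fun j => Nat.rec θ (fun _ y => lam * y ^ d₁) j, rfl, fun _ => rfl⟩
  have hrs : ∀ j, N (η (j + 1)) = N (η j) ^ d₁ := fun j => by
    rw [hηs, map_mul, map_pow, hNlam, one_mul]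
  have hr1 : ∀ j, 1 < N (η j) := by
    intro j
    induction j with
    | zero => rwa [hη0]
    | succ j ih => rw [hrs]; exact one_lt_pow₀ ih (by omega)
  have hr0 : ∀ j, 0 < N (η j) := fun j => lt_trans one_pos (hr1 j)
  have hη : ∀ j, η j ≠ 0 := fun j => (N.pos_iff).mp (hr0 j)
  have hlog : ∀ j, Real.log (N (η j)) = Real.log (N θ) * (d₁ : ℝ) ^ j := by
    intro j
    induction j with
    | zero => simp [hη0]
    | succ j ih => rw [hrs, Real.log_pow, ih]; ring
  have hγ : 0 < Real.log (N θ) := Real.log_pos hNθ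
  have hξη : ∀ j, Near N (ξ j) (η j ^ m) := by
    intro j
    induction j with
    | zero => rw [hη0, hθ]; exact near_refl _
    | succ j ih =>
      refine near_trans hN (hrec j) ?_
      have e : η (j + 1) ^ m = algebraMap K A l * (η j ^ m) ^ d₁ := by
        rw [hηs, mul_pow, hlam, ← pow_mul, ← pow_mul, mul_comm d₁ m]
      rw [e]
      exact near_mul hN (near_refl _) (near_pow hN ih _)
  have hbη : ∀ j, ∀ i ≤ d, Near N (b j i) (algebraMap K A (β i) * η j ^ ((m : ℤ) * δ i)) := by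
    intro j i hi
    refine near_trans hN (hb j i hi).2 (near_mul hN (near_refl _) ?_)
    rw [zpow_mul, zpow_natCast]
    exact near_zpow hN (hξη j) _
  have hbN : ∀ j, ∀ i ≤ d, β i ≠ 0 → N (b j i) = N (η j) ^ ((m : ℤ) * δ i) := by
    intro j i hi h0
    rw [near_eq hN (hbη j i hi), map_mul, htr _ h0, one_mul, map_zpow₀]
  have hb0 : ∀ j, ∀ i ≤ d, β i = 0 → b j i = 0 := by
    intro j i hi h0
    have := hbη j i hi
    rw [h0, map_zero, zero_mul] at this
    exact near_zero this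
  have hbd : ∀ j, b j d ≠ 0 := by
    intro j h0
    have := hbN j d le_rfl hβd
    rw [h0, map_zero] at this
    exact (zpow_pos (hr0 j) _).ne this
  have hesc : ∀ j, N (z j) ^ 1 ≤ N (η j) ^ s := by
    apply h2 A N hN d d₁ 1 ((m : ℤ) * δ d) s (fun j => N (η j)) b z hd₁ hd le_rfl
      (hr1 0).le hrs (by push_cast; linarith) (fun j => hbN j d le_rfl hβd) _ hz
      ⟨c₀, fun j => (hu j).2.2⟩
    intro j i hi
    rw [pow_one]
    by_cases h0 : β i = 0
    · rw [hb0 j i hi.le h0, map_zero]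
      exact (zpow_pos (hr0 j) _).le
    · rw [hbN j i hi.le h0]
      apply zpow_le_zpow_right₀ (hr1 j).le
      have := hε i hi h0
      push_cast
      linarith
  obtain ⟨π, hπ⟩ : ∃ π : ℕ → A, ∀ j, π j = η j ^ s := ⟨_, fun _ => rfl⟩
  have hπ0 : ∀ j, π j ≠ 0 := fun j => by rw [hπ]; exact zpow_ne_zero _ (hη j)
  have hπN : ∀ j, N (π j) = N (η j) ^ s := fun j => by rw [hπ, map_zpow₀]
  obtain ⟨γ, hγi⟩ : ∃ γ : ℕ → K, ∀ i, γ i =
      if m * (δ i - δ d) - s * ((d : ℤ) - i) = 0 then β i / β d else 0 := ⟨_, fun _ => rfl⟩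
  obtain ⟨g, hg⟩ : ∃ g : A[X], g = mp d fun i => algebraMap K A (γ i) := ⟨_, rfl⟩
  have hgm : g.Monic := by rw [hg]; exact (mp_deg _ _).1
  have hgd : g.natDegree = d := by rw [hg]; exact (mp_deg _ _).2
  have hint : ∀ r ∈ g.roots, IsIntegral K r := by
    intro r hr
    refine ⟨mp d γ, (mp_deg _ _).1, ?_⟩
    rw [eval₂_eq_eval_map, mp_map, ← hg]
    exact (mem_roots hgm.ne_zero).mp hr
  obtain ⟨S, hS⟩ : ∃ S : Set A, S = insert θ (insert lam (g.roots.toFinset : Set A)) :=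
    ⟨_, rfl⟩
  have hSfin : Finite S := by
    rw [hS]
    exact (((g.roots.toFinset.finite_toSet).insert lam).insert θ).to_subtype
  have hLE : ∀ y ∈ L, y ∈ IntermediateField.adjoin L S := fun y hy =>
    (IntermediateField.adjoin L S).algebraMap_mem ⟨y, hy⟩
  have hSE : ∀ y ∈ S, y ∈ IntermediateField.adjoin L S := fun y hy =>
    IntermediateField.subset_adjoin L S hy
  have hfin : FiniteDimensional L (IntermediateField.adjoin L S) := by
    apply IntermediateField.finiteDimensional_adjoin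
    intro y hy
    rw [hS] at hy
    rcases hy with rfl | rfl | hy
    · apply IsIntegral.of_pow (n := m) hm
      rw [hθ]
      exact isIntegral_algebraMap (x := (⟨ξ 0, hξL⟩ : L))
    · apply IsIntegral.of_pow (n := m) hm
      rw [hlam]
      exact isIntegral_algebraMap (x := (⟨algebraMap K A l, L.algebraMap_mem l⟩ : L))
    · exact (hint y (by simpa using hy)).tower_top
  have hηE : ∀ j, η j ∈ IntermediateField.adjoin L S := by
    intro j
    induction j with
    | zero => rw [hη0]; exact hSE _ (by simp [hS])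
    | succ j ih => rw [hηs]; exact mul_mem (hSE _ (by simp [hS])) (pow_mem ih _)
  have hπE : ∀ j, π j ∈ IntermediateField.adjoin L S := fun j => by
    rw [hπ]; exact zpow_mem (hηE j) _
  have hbE : ∀ j, ∀ i ≤ d, b j i ∈ IntermediateField.adjoin L S := fun j i hi =>
    hLE _ (hb j i hi).1
  have hc₁ : ∀ j : ℕ, c₀ * (d₁ : ℝ) ^ j ≤ max c₀ (s * Real.log (N θ)) * (d₁ : ℝ) ^ j :=
    fun j => mul_le_mul_of_nonneg_right (le_max_left _ _) (by positivity)
  have hmain := h3 K A N L (N (ξ 0)) hN hξ (triv_le htr) hconj himm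
    (IntermediateField.adjoin L S) hfin d d₁ (Real.log (N θ)) (max c₀ (s * Real.log (N θ)))
    (fun j => z j / π j) (fun j => b j d * π j ^ d / π (j + 1)) u π
    (fun j => mp d fun i => b j i * π j ^ i / (b j d * π j ^ d)) g x hd₁ (by omega) hγ hgm hgd
    ?_ ?_ ?_ ?_ (hLE x hx) ?_ c
  · obtain ⟨k, t, ht, hk⟩ := hmain
    refine ⟨k, t, ht, ?_⟩
    simpa only [mul_div_cancel₀ _ (hπ0 _)] using hk
  · intro r hr
    refine ⟨hSE r ?_, int_le_one hN htr (hint r hr)⟩
    rw [hS]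
    exact Or.inr (Or.inr (Finset.mem_coe.mpr (Multiset.mem_toFinset.mpr hr)))
  · have h1 : algebraMap K A (γ (d - 1)) = 0 := by
      rw [hγi, hβ1]; simp
    have h4 : algebraMap K A (γ i₀) ≠ 0 := by
      rw [hγi, if_pos hε₀]
      exact (_root_.map_ne_zero _).mpr (div_ne_zero hβ₀ hβd)
    obtain ⟨r, hr, r', hr', hne⟩ :=
      two_roots d (fun i => algebraMap K A (γ i)) (by omega) h1 hi₀ h4
    rw [← hg] at hr hr'
    exact ⟨r, hr, r', hr', int_eq_one hN htr ((hint r hr).sub (hint r' hr'))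
      (sub_ne_zero.mpr hne)⟩
  · intro j
    refine ⟨(mp_deg _ _).1, (mp_deg _ _).2, fun i => ?_⟩
    rw [hg, mp_coeff, mp_coeff]
    by_cases hid : i = d
    · simp [hid]
    by_cases hi : i < d
    swap
    · simp [hid, hi]
    simp only [if_neg hid, if_pos hi]
    refine ⟨div_mem (mul_mem (hbE j i hi.le) (pow_mem (hπE j) _))
      (mul_mem (hbE j d le_rfl) (pow_mem (hπE j) _)), ?_⟩
    by_cases h0 : β i = 0
    · rw [hb0 j i hi.le h0, hγi, h0]; simp
    have hnear : Near N (b j i * π j ^ i / (b j d * π j ^ d))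
        (algebraMap K A (β i / β d) * η j ^ (m * (δ i - δ d) - s * ((d : ℤ) - i))) := by
      have h5 := near_mul hN (near_mul hN (hbη j i hi.le) (near_refl (π j ^ i)))
        (near_inv hN (near_mul hN (hbη j d le_rfl) (near_refl (π j ^ d))))
      have e : algebraMap K A (β i / β d) * η j ^ (m * (δ i - δ d) - s * ((d : ℤ) - i)) =
          algebraMap K A (β i) * η j ^ ((m : ℤ) * δ i) * π j ^ i *
            (algebraMap K A (β d) * η j ^ ((m : ℤ) * δ d) * π j ^ d)⁻¹ := by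
        have e1 : (m : ℤ) * (δ i - δ d) - s * ((d : ℤ) - i) =
            ((m : ℤ) * δ i + s * i) - ((m : ℤ) * δ d + s * d) := by ring
        rw [e1, zpow_sub₀ (hη j), zpow_add₀ (hη j), zpow_add₀ (hη j), zpow_mul (η j) s,
          zpow_mul (η j) s, ← hπ, zpow_natCast, zpow_natCast, map_div₀]
        have h6 : algebraMap K A (β d) ≠ 0 := (_root_.map_ne_zero _).mpr hβd
        have h7 : η j ^ ((m : ℤ) * δ d) ≠ 0 := zpow_ne_zero _ (hη j)
        have h8 := hπ0 j
        field_simp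
      rw [e, div_eq_mul_inv]
      exact h5
    have hq : β i / β d ≠ 0 := div_ne_zero h0 hβd
    rw [hγi]
    by_cases he : m * (δ i - δ d) - s * ((d : ℤ) - i) = 0
    · rw [he, zpow_zero, mul_one] at hnear
      rw [if_pos he, ← htr _ hq]
      exact near_lt hnear ((_root_.map_ne_zero _).mpr hq)
    · rw [if_neg he, map_zero, sub_zero, near_eq hN hnear, map_mul, htr _ hq, one_mul,
        map_zpow₀]
      exact zpow_lt_one_of_neg₀ (hr1 j) (lt_of_le_of_ne (hε i hi h0) he)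
  · intro j
    refine ⟨?_, ?_, div_mem (mul_mem (hbE j d le_rfl) (pow_mem (hπE j) _)) (hπE _), ?_⟩
    · have := hesc j
      rw [pow_one] at this
      rw [map_div₀, hπN, div_le_one (zpow_pos (hr0 j) _)]
      exact this
    · have h6 := hbd j
      have h7 := hπ0 j
      have h8 := hπ0 (j + 1)
      rw [hz, mp_eval, Finset.sum_range_succ, mul_add, Finset.mul_sum, add_div, Finset.sum_div,
        add_comm]
      congr 1
      · rw [div_pow]; field_simp
      · refine Finset.sum_congr rfl fun i _ => ?_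
        rw [div_pow]; field_simp
    · rw [← hlog, Real.exp_log (hr0 j), map_div₀, map_mul, map_pow, hπN, hπN, hrs,
        hbN j d le_rfl hβd, ← zpow_natCast, ← zpow_natCast, ← zpow_mul, ← zpow_mul,
        ← zpow_add₀ (hr0 j).ne', ← zpow_sub₀ (hr0 j).ne']
      have h9 := zpow_le_zpow_right₀ (hr1 j).le
        (show (1 : ℤ) ≤ m * δ d + s * d - d₁ * s by linarith)
      rwa [zpow_one] at h9
  · intro j
    refine ⟨hLE _ (hu j).1, hπE j, (hu j).2.1.trans (Real.exp_le_exp.mpr (hc₁ j)), ?_⟩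
    rw [hπN, ← Real.exp_log (zpow_pos (hr0 j) s), Real.log_zpow, hlog, ← mul_assoc]
    exact Real.exp_le_exp.mpr
      (mul_le_mul_of_nonneg_right (le_max_right _ _) (by positivity))

end Bad

theorem bad (h1 : S_EXT) (h2 : S_ESC) (h3 : S_CORE) : S_BAD := by
  intro K M _ _ _ _ N hN htr d d₁ l β δ c₀ ξ z u b x hd₁ hd hl hξ hrec hβd hβ1 hb hz hx hu
    hbad c
  obtain ⟨Ω, _, _, _, N', φ, L, hN', hφ, hξL, hconj, himm⟩ := h1 K M N hN htr (ξ 0) hξ
  have hL : ∀ y ∈ K⟮ξ 0⟯, φ y ∈ L := by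
    have : K⟮ξ 0⟯ ≤ L.comap φ := IntermediateField.adjoin_simple_le_iff.mpr hξL
    exact fun y hy => this hy
  have hnear : ∀ a a' : M, Near N a a' → Near N' (φ a) (φ a') := by
    intro a a' h
    rcases h with h | h
    · left; rw [h]
    · right; rwa [← map_sub, hφ, hφ]
  obtain ⟨k, t, ht, hk⟩ := Bad.core h2 h3 K Ω N' L hN'
    (fun c hc => by rw [← φ.commutes, hφ]; exact htr c hc) d d₁ l β δ c₀
    (fun j => φ (ξ j)) (fun j => φ (z j)) (fun j => φ (u j)) (fun j i => φ (b j i)) (φ x)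
    hconj (by simpa only [hφ] using himm) hξL hd₁ hd hl (by simpa only [hφ] using hξ)
    (fun j => by simpa only [map_mul, map_pow, AlgHom.commutes] using hnear _ _ (hrec j))
    hβd hβ1
    (fun j i hi => ⟨hL _ (hb j i hi).1, by
      simpa only [map_mul, map_zpow₀, AlgHom.commutes] using hnear _ _ (hb j i hi).2⟩)
    (fun j => by simp only [hz, map_sum, map_mul, map_pow]) (hL x hx)
    (fun j => ⟨hL _ (hu j).1, by simpa only [hφ] using (hu j).2⟩) hbad c
  refine ⟨k, t, ht, ?_⟩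
  rw [← hφ]
  simpa only [TS, map_sum, map_mul, map_pow, map_add, AlgHom.commutes] using hk

end Pool.Agent.KSkew
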