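import Mathlib.Algebra.Lie.OfAssociative
import Pool.Agent.MP_c8dfda_nt.Core2

/-
Row CORE: the auxiliary polynomial for a normalised orbit.
-/

open Polynomial Filter
open scoped IntermediateField

namespace Pool.Agent.KSkew

section step

variable {K L E A : Type} [Field K] [Field L] [Field E] [Field A] [Algebra K L] [Algebra K E]
  [Algebra K A] [Algebra L E] [Algebra L A] [Algebra E A] [IsScalarTower K L E]
  [IsScalarTower K E A] [IsScalarTower K L A] [IsScalarTower L E A]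
  {N : AbsoluteValue A ℝ} (hN : IsNonarchimedean N)

include hN in
lemma core_step [IsAlgClosed A] [FiniteDimensional L E] (h1 : S_SPLIT) (h2 : S_COUNT) {τ : ℝ}
    (hτ : 1 < τ) (hK : ∀ c : K, N (algebraMap K A c) ≤ 1)
    (hI : ∀ z : L, N (algebraMap L A z) ≤ 1 →
      ∃ c : K, N (algebraMap L A z - algebraMap K A c) ≤ τ⁻¹)
    (hconj : ∀ β β' : A, IsIntegral L β → minpoly L β = minpoly L β' → N β = N β')
    {d d₁ : ℕ} (k : ℕ) {c₁ ε : ℝ} {w : ℕ → A} {a u v γ : ℕ → E} {G : ℕ → E[X]} {g : A[X]}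
    {x φ : E} (hd₁ : 1 ≤ d₁) (hd : 0 < d) (hc₁ : 0 ≤ c₁) (hg : g.Monic) (hgd : g.natDegree = d)
    (hg2 : ∃ r ∈ g.roots, ∃ r' ∈ g.roots, N (r - r') = 1)
    (hG : ∀ j, (G j).Monic ∧ (G j).natDegree = d ∧
      ∀ i, N (algebraMap E A ((G j).coeff i) - g.coeff i) < 1)
    (hw1 : ∀ j, N (w j) ≤ 1) (hw : ∀ j, w (j + 1) = algebraMap E A (a j) * aeval (w j) (G j))
    (ha : ∀ j, 1 < N (algebraMap E A (a j)))
    (hγ : ∀ j, N (w j - algebraMap E A (γ j)) < 1)
    (hx : N (algebraMap E A x) ≤ Real.exp c₁)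
    (hu : ∀ j, N (algebraMap E A (u j)) ≤ Real.exp (c₁ * (d₁ : ℝ) ^ j))
    (hv : ∀ j, N (algebraMap E A (v j)) ≤ Real.exp (c₁ * (d₁ : ℝ) ^ j))
    (hε1 : ε < 1) (hφ : N (w k - algebraMap E A φ) ≤ ε) (T s : ℕ)
    (hdim : Module.finrank L E * (T * (d - 1) ^ k) * s < d ^ k * d₁ ^ k * (d ^ k * d ^ k)) :
    ∃ t : Fin (d ^ k * d₁ ^ k) × Fin (d ^ k) × Fin (d ^ k) → K, t ≠ 0 ∧
      N (TS t (algebraMap E A x) (algebraMap E A (u 0) + algebraMap E A (v 0) * w 0)
        (algebraMap E A (u k) + algebraMap E A (v k) * w k)) ≤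
      max (ε ^ T * Real.exp (3 * c₁ * ((d : ℝ) ^ k * (d₁ : ℝ) ^ k)))
        (Real.exp (3 * c₁ * ((d : ℝ) ^ k * (d₁ : ℝ) ^ k)) / τ ^ s) := by
  classical
  set ι := algebraMap E A with hι
  let a' : ℕ → A := fun j => ι (a j)
  let G' : ℕ → A[X] := fun j => (G j).map ι
  have hQ : ∀ j, (Qit a G j).map ι = Qit a' G' j := Qit_map ι a G
  have hw' : ∀ j, w (j + 1) = a' j * (G' j).eval (w j) := fun j => by
    rw [hw, eval_map_algebraMap]
  have hG' : ∀ j, (G' j).Monic ∧ (G' j).natDegree = d ∧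
      ∀ i, N ((G' j).coeff i - g.coeff i) < 1 := fun j =>
    ⟨(hG j).1.map ι, by rw [natDegree_map, (hG j).2.1], fun i => by
      rw [coeff_map]; exact (hG j).2.2 i⟩
  have ha0 : ∀ j, a' j ≠ 0 := fun j h => by
    have := ha j
    rw [show ι (a j) = 0 from h, map_zero] at this
    linarith
  have hev := Qit_eval hw'
  have hdeg := Qit_natDegree ha0 fun j => (hG' j).2.1
  have hε0 : 0 ≤ ε := (apply_nonneg _ _).trans hφ
  obtain ⟨ρ, hρ, hρ1⟩ := exists_radius hN (z := w 0) (Qit a' G' k - C (w k))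
    (by rw [natDegree_sub_C, hdeg]; exact pow_pos hd k) (by simp [hev]) one_pos
  have hstep : ∀ j, GN hN (w 0) hρ (Qit a' G' (j + 1) - C (w (j + 1))) ≤ 1 →
      GN hN (w 0) hρ (Qit a' G' j - C (w j)) < 1 := fun j h => by
    have := step_shrink hN (z := w 0) hρ (Q := Qit a' G' j) (hG' j).1
      (by rw [(hG' j).2.1]; exact hd) (ha j) (by rw [hev, ← hw']; exact h)
    rwa [hev] at this
  have hle : ∀ j ≤ k, GN hN (w 0) hρ (Qit a' G' j - C (w j)) ≤ 1 := fun j hj => by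
    induction hj using Nat.decreasingInduction with
    | self => exact hρ1.le
    | of_succ j _ ih => exact (hstep j ih).le
  have hlt : ∀ j < k, GN hN (w 0) hρ (Qit a' G' j - C (w j)) < 1 := fun j hj =>
    hstep j (hle _ hj)
  have hQ1 : ∀ j ≤ k, GN hN (w 0) hρ (Qit a' G' j) ≤ 1 := fun j hj => by
    have := na_add_le (GN_na hN hρ) (hle j hj) (show GN hN (w 0) hρ (C (w j)) ≤ 1 by
      simpa using hw1 j)
    simpa using this
  have hP : (Qit a G k - C φ).map ι = Qit a' G' k - C (ι φ) := by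
    rw [Polynomial.map_sub, hQ, map_C]
  have hP0' : Qit a' G' k - C (ι φ) ≠ 0 := fun h => by
    have := natDegree_sub_C (p := Qit a' G' k) (a := ι φ)
    rw [h, hdeg, natDegree_zero] at this
    exact absurd this.symm (pow_pos hd k).ne'
  have hP0 : Qit a G k - C φ ≠ 0 := fun h => hP0' (by rw [← hP, h, Polynomial.map_zero])
  have hP1 : GN hN (w 0) hρ (Qit a' G' k - C (ι φ)) = 1 := by
    rw [← hρ1]
    apply na_eq_of_sub_lt (GN_na hN hρ)
    rw [hρ1, show Qit a' G' k - C (w k) - (Qit a' G' k - C (ι φ)) = C (ι φ - w k) by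
      rw [C_sub]; ring, GN_C, N.map_sub]
    exact hφ.trans_lt hε1
  obtain ⟨F, F', hF, hFF, hr, hr'⟩ := h1 L E A N hconj (w 0) ρ _ hP0
  have hFF' : Qit a' G' k - C (ι φ) = F.map ι * F'.map ι := by
    rw [← hP, hFF, Polynomial.map_mul]
  have hc : ∀ r : A, aeval r F = 0 → ∀ R : E[X],
      GN hN r hρ (R.map ι) = GN hN (w 0) hρ (R.map ι) := fun r h R => by
    obtain ⟨r', -, h3, h4⟩ := hr r h
    rw [GN_conj hN hρ h4, GN_center hN hρ h3.le]
  have hgain : N (aeval (w 0) F) ≤ ε * GN hN (w 0) hρ (F.map ι) := by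
    have e1 : N (aeval (w 0) F') = GN hN (w 0) hρ (F'.map ι) := by
      rw [← eval_map_algebraMap]
      refine eval_eq_GN hN hρ _ fun r h => hr' r ?_
      rw [← eval_map_algebraMap]
      exact (mem_roots'.1 h).2
    have e2 : N (aeval (w 0) F) * N (aeval (w 0) F') ≤ ε := by
      rw [← map_mul, ← eval_map_algebraMap, ← eval_map_algebraMap, ← eval_mul, ← hFF']
      simpa [hev] using hφ
    rw [hFF', map_mul] at hP1
    rw [e1] at e2
    calc N (aeval (w 0) F)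
        = N (aeval (w 0) F) * GN hN (w 0) hρ (F'.map ι) * GN hN (w 0) hρ (F.map ι) := by
          rw [mul_assoc, mul_comm (GN hN (w 0) hρ (F'.map ι)), hP1, mul_one]
      _ ≤ _ := mul_le_mul_of_nonneg_right e2 (apply_nonneg _ _)
  have hγ1 : ∀ j, N (ι (γ j)) ≤ 1 := fun j => by
    have := na_sub_le hN (hw1 j) (hγ j).le
    simpa using this
  have hφ1 : N (ι φ) ≤ 1 := by
    have := na_sub_le hN (hw1 k) (hφ.trans hε1.le)
    simpa using this
  have hFdeg : F.natDegree ≤ (d - 1) ^ k := by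
    refine le_trans ?_ (itin_count hN hd hg hgd hg2 hG' ha hγ1 k (ι φ) hφ1)
    rw [← natDegree_map ι, ← card_roots_eq]
    apply Multiset.card_le_card
    rw [Multiset.le_filter]
    refine ⟨roots.le_of_dvd hP0' ⟨_, hFF'⟩, fun r h j hj => ?_⟩
    obtain ⟨r', -, h3, h4⟩ := hr r (by
      rw [← eval_map_algebraMap]; exact (mem_roots'.1 h).2)
    have h5 := h4 (Qit a G j - C (γ j))
    rw [← eval_map_algebraMap, ← eval_map_algebraMap, Polynomial.map_sub, hQ, map_C, eval_sub,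
      eval_sub, eval_C, eval_C] at h5
    rw [h5]
    have h6 := (eval_le_GN hN hρ (Qit a' G' j - C (w j)) (w := r')
      (by rw [N.map_sub]; exact h3.le)).trans_lt (hlt j hj)
    have := na_add_lt hN h6 (hγ j)
    simpa using this
  have hlin : ∀ j ≤ k, GN hN (w 0) hρ ((C (u j) + C (v j) * Qit a G j).map ι) ≤
      Real.exp (c₁ * (d₁ : ℝ) ^ j) := fun j hj => by
    rw [Polynomial.map_add, Polynomial.map_mul, map_C, map_C, hQ]
    refine na_add_le (GN_na hN hρ) (by simpa using hu j) ?_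
    rw [map_mul, GN_C]
    calc _ ≤ Real.exp (c₁ * (d₁ : ℝ) ^ j) * 1 :=
          mul_le_mul (hv j) (hQ1 j hj) (apply_nonneg _ _) (Real.exp_pos _).le
      _ = _ := mul_one _
  let B : Fin (d ^ k * d₁ ^ k) × Fin (d ^ k) × Fin (d ^ k) → E[X] := fun s =>
    C x ^ (s.1 : ℕ) * (C (u 0) + C (v 0) * Qit a G 0) ^ (s.2.1 : ℕ) *
      (C (u k) + C (v k) * Qit a G k) ^ (s.2.2 : ℕ)
  obtain ⟨t, ht0, ht⟩ := lin_step hN h2 hτ hK hI hρ hF hc hε0 hgain B
    (Ab := Real.exp (3 * c₁ * ((d : ℝ) ^ k * (d₁ : ℝ) ^ k))) (Real.exp_pos _).le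
    (fun s => by
      simp only [B, Polynomial.map_mul (p := _ * _), Polynomial.map_mul (p := C x ^ _),
        Polynomial.map_pow, map_mul, map_pow, map_C, GN_C]
      have b1 : ((s.1 : ℕ) : ℝ) ≤ (d : ℝ) ^ k * (d₁ : ℝ) ^ k := by exact_mod_cast s.1.2.le
      have b2 : ((s.2.1 : ℕ) : ℝ) ≤ (d : ℝ) ^ k := by exact_mod_cast s.2.1.2.le
      have b3 : ((s.2.2 : ℕ) : ℝ) ≤ (d : ℝ) ^ k := by exact_mod_cast s.2.2.2.le
      have b4 : (1 : ℝ) ≤ (d₁ : ℝ) ^ k := one_le_pow₀ (by exact_mod_cast hd₁)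
      have b5 : (0 : ℝ) ≤ (d : ℝ) ^ k := by positivity
      calc _ ≤ Real.exp c₁ ^ (s.1 : ℕ) * Real.exp (c₁ * (d₁ : ℝ) ^ 0) ^ (s.2.1 : ℕ) *
            Real.exp (c₁ * (d₁ : ℝ) ^ k) ^ (s.2.2 : ℕ) := by
            gcongr
            · exact hlin 0 (Nat.zero_le _)
            · exact hlin k le_rfl
        _ ≤ _ := by
            rw [← Real.exp_nat_mul, ← Real.exp_nat_mul, ← Real.exp_nat_mul, ← Real.exp_add,
              ← Real.exp_add, Real.exp_le_exp, pow_zero, mul_one]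
            have b6 : ((s.2.1 : ℕ) : ℝ) ≤ (d : ℝ) ^ k * (d₁ : ℝ) ^ k := by nlinarith
            have b7 : ((s.2.2 : ℕ) : ℝ) * (d₁ : ℝ) ^ k ≤ (d : ℝ) ^ k * (d₁ : ℝ) ^ k := by gcongr
            nlinarith [mul_le_mul_of_nonneg_left b1 hc₁, mul_le_mul_of_nonneg_left b6 hc₁,
              mul_le_mul_of_nonneg_left b7 hc₁]) T s
    (by
      rw [Fintype.card_prod, Fintype.card_prod, Fintype.card_fin, Fintype.card_fin]
      refine lt_of_le_of_lt ?_ hdim
      gcongr)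
  refine ⟨t, ht0, le_trans (le_of_eq ?_) ht⟩
  have hq : ∀ j, aeval (w 0) (Qit a G j) = w j := fun j => by
    rw [← eval_map_algebraMap, hQ, hev]
  simp only [TS, B, map_mul, map_pow, map_add, aeval_C, hq, hι]

end step

lemma exists_pow_gap (d C : ℕ) (hd : 1 ≤ d) : ∃ k, C * (d - 1) ^ k < d ^ k := by
  have hd' : (0 : ℝ) < d := by exact_mod_cast hd
  obtain ⟨k, hk⟩ := exists_pow_lt_of_lt_one (show (0 : ℝ) < 1 / (C + 1) by positivity)
    (show ((d - 1 : ℕ) : ℝ) / d < 1 by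
      rw [div_lt_one hd']; exact_mod_cast Nat.sub_lt hd one_pos)
  refine ⟨k, ?_⟩
  rw [div_pow, div_lt_div_iff₀ (by positivity) (by positivity)] at hk
  have h : ((d - 1 : ℕ) : ℝ) ^ k * (C + 1) < (d : ℝ) ^ k := by linarith
  have h' : (d - 1) ^ k * (C + 1) < d ^ k := by exact_mod_cast h
  nlinarith [Nat.zero_le ((d - 1) ^ k)]

theorem core (h1 : S_SPLIT) (h2 : S_COUNT) : S_CORE := by
  intro K A _ _ _ _ N L τ hN hτ hK hconj hI E hE d d₁ γ c₀ w a u v G g x hd₁ hd hγ hg hgd hgr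
    hg2 hG hw hx hu c
  classical
  have hd0 : 0 < d := by omega
  have hdR : (0 : ℝ) < d := by exact_mod_cast hd0
  have hd₁R : ∀ j, (1 : ℝ) ≤ (d₁ : ℝ) ^ j := fun j => one_le_pow₀ (by exact_mod_cast hd₁)
  have ha : ∀ j, 1 < N (a j) := fun j =>
    lt_of_lt_of_le (Real.one_lt_exp_iff.2 (mul_pos hγ (by linarith [hd₁R j]))) (hw j).2.2.2
  have hsm : ∀ j, N ((G j).eval (w j)) ≤ Real.exp (-(γ * (d₁ : ℝ) ^ j)) := fun j => by
    have h3 := (hw (j + 1)).1
    rw [(hw j).2.1, map_mul] at h3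
    rw [Real.exp_neg, ← one_div, le_div_iff₀ (Real.exp_pos _), mul_comm]
    exact le_trans (mul_le_mul_of_nonneg_right (hw j).2.2.2 (apply_nonneg _ _)) h3
  have hit : ∀ j, ∃ r ∈ g.roots, N (w j - r) < 1 := fun j =>
    exists_itin hN hg (by omega) (fun i => ((hG j).2.2 i).2) (hw j).1
      ((hsm j).trans_lt (Real.exp_lt_one_iff.2 (by nlinarith [hd₁R j])))
  choose γ' hγ'r hγ' using hit
  have hlift : ∀ j, ∃ P : E[X], P.map (algebraMap E A) = G j ∧ P.Monic := fun j => by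
    obtain ⟨P, hP, -, hm⟩ := lifts_and_degree_eq_and_monic (f := algebraMap E A) (p := G j)
      (by
        rw [lifts_iff_coeff_lifts]
        exact fun i => ⟨⟨_, ((hG j).2.2 i).1⟩, rfl⟩) (hG j).1
    exact ⟨P, hP, hm⟩
  choose GE hGE hGEm using hlift
  set c₁ : ℝ := |c₀| + N x with hc₁
  have hc₁0 : 0 ≤ c₁ := by positivity
  have hlog : 0 < Real.log τ := Real.log_pos hτ
  obtain ⟨n₁, hn₁⟩ := exists_nat_ge ((3 * c₁ + |c|) / (γ / d))
  obtain ⟨n₂, hn₂⟩ := exists_nat_ge ((3 * c₁ + |c|) / Real.log τ)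
  rw [div_le_iff₀ (by positivity)] at hn₁ hn₂
  obtain ⟨k, hk⟩ := exists_pow_gap d (Module.finrank L E * d * n₁ * n₂) hd0
  obtain ⟨φ, hφr, hφ⟩ := exists_near_root (N := N) (hG k).1 (by rw [(hG k).2.1]; exact hd0) (w k)
  have hφ0 : aeval φ (GE k) = 0 := by
    rw [← eval_map_algebraMap, hGE]; exact (mem_roots'.1 hφr).2
  have hφi : IsIntegral E φ := ⟨GE k, hGEm k, hφ0⟩
  have hGEd : ∀ j, (GE j).natDegree = d := fun j => by
    rw [← natDegree_map (algebraMap E A), hGE, (hG j).2.1]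
  have : FiniteDimensional E E⟮φ⟯ := IntermediateField.adjoin.finiteDimensional hφi
  have : FiniteDimensional L E⟮φ⟯ := Module.Finite.trans E _
  have hrk : Module.finrank L E⟮φ⟯ ≤ Module.finrank L E * d := by
    rw [← Module.finrank_mul_finrank L E E⟮φ⟯, IntermediateField.adjoin.finrank hφi, ← hGEd k]
    exact Nat.mul_le_mul_left _ (natDegree_le_natDegree (minpoly.min E φ (hGEm k) hφ0))
  have hφε : N (w k - φ) ≤ Real.exp (-(γ / d * (d₁ : ℝ) ^ k)) := by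
    rw [(hG k).2.1] at hφ
    refine le_of_pow_le_pow_left₀ hd0.ne' (Real.exp_pos _).le (hφ.trans ((hsm k).trans ?_))
    rw [← Real.exp_nat_mul]
    apply le_of_eq
    congr 1
    field_simp
  let _ : Algebra K E⟮φ⟯ := ((algebraMap L E⟮φ⟯).comp (algebraMap K L)).toAlgebra
  have : IsScalarTower K L E⟮φ⟯ := IsScalarTower.of_algebraMap_eq fun _ => rfl
  have : IsScalarTower K E⟮φ⟯ A := IsScalarTower.of_algebraMap_eq fun _ => rfl
  have : IsScalarTower L E⟮φ⟯ A := IsScalarTower.of_algebraMap_eq fun _ => rfl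
  have hε1 : Real.exp (-(γ / d * (d₁ : ℝ) ^ k)) < 1 := by
    have h3 : 0 < γ / d * (d₁ : ℝ) ^ k := mul_pos (by positivity) (by linarith [hd₁R k])
    exact Real.exp_lt_one_iff.2 (by linarith)
  let e : ∀ z : A, z ∈ E → E⟮φ⟯ := fun z hz => algebraMap E E⟮φ⟯ ⟨z, hz⟩
  have hc₀ : ∀ j, c₀ * (d₁ : ℝ) ^ j ≤ c₁ * (d₁ : ℝ) ^ j := fun j =>
    mul_le_mul_of_nonneg_right ((le_abs_self _).trans
      (le_add_of_nonneg_right (apply_nonneg _ _))) (by positivity)
  obtain ⟨t, ht0, ht⟩ := core_step (K := K) (L := L) (E := E⟮φ⟯) hN h1 h2 hτ hK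
    (fun z hz => hI z z.2 hz) hconj k (c₁ := c₁) (w := w) (a := fun j => e _ (hw j).2.2.1)
    (u := fun j => e _ (hu j).1) (v := fun j => e _ (hu j).2.1)
    (γ := fun j => e _ (hgr _ (hγ'r j)).1) (G := fun j => (GE j).map (algebraMap E E⟮φ⟯))
    (x := e _ hx) (φ := ⟨φ, IntermediateField.mem_adjoin_simple_self E φ⟩) hd₁ hd0 hc₁0 hg hgd
    hg2 (fun j => ⟨(hGEm j).map _, by rw [natDegree_map, hGEd], fun i => by
      rw [coeff_map, ← IsScalarTower.algebraMap_apply, ← coeff_map, hGE]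
      exact ((hG j).2.2 i).2⟩) (fun j => (hw j).1)
    (fun j => by
      rw [aeval_map_algebraMap, ← eval_map_algebraMap, hGE]
      exact (hw j).2.1) ha hγ'
    (le_trans (by linarith [Real.add_one_le_exp (N x)])
      (Real.exp_le_exp.2 (le_add_of_nonneg_left (abs_nonneg c₀))) : N x ≤ _)
    (fun j => (hu j).2.2.1.trans (Real.exp_le_exp.2 (hc₀ j)))
    (fun j => (hu j).2.2.2.trans (Real.exp_le_exp.2 (hc₀ j)))
    hε1 hφε
    (n₁ * d ^ k) (n₂ * (d ^ k * d₁ ^ k))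
    (by
      calc _ ≤ Module.finrank L E * d * (n₁ * d ^ k * (d - 1) ^ k) * (n₂ * (d ^ k * d₁ ^ k)) := by
            gcongr
        _ = d ^ k * d₁ ^ k * (d ^ k * (Module.finrank L E * d * n₁ * n₂ * (d - 1) ^ k)) := by
            ring
        _ < _ := by
            have : 0 < d₁ := hd₁
            gcongr)
  refine ⟨k, t, ht0, le_trans ht (max_le ?_ ?_)⟩
  · rw [← Real.exp_nat_mul, ← Real.exp_add, Real.exp_le_exp]
    push_cast
    have hX : 0 ≤ (d : ℝ) ^ k * (d₁ : ℝ) ^ k := by positivity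
    nlinarith [mul_le_mul_of_nonneg_right hn₁ hX, mul_le_mul_of_nonneg_right (le_abs_self c) hX]
  · rw [← Real.exp_log (show 0 < τ by linarith), ← Real.exp_nat_mul, ← Real.exp_sub,
      Real.exp_le_exp]
    push_cast
    have hX : 0 ≤ (d : ℝ) ^ k * (d₁ : ℝ) ^ k := by positivity
    nlinarith [mul_le_mul_of_nonneg_right hn₂ hX, mul_le_mul_of_nonneg_right (le_abs_self c) hX]

end Pool.Agent.KSkew
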