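import Pool.Agent.MP_c8dfda_nt.Core2

/-
Row COUNT: the number of linear conditions needed to lower a norm.
-/

namespace Pool.Agent.KSkew

namespace COUNT

open Module

theorem step {K V : Type} [Field K] [AddCommGroup V] [Module K V] [FiniteDimensional K V]
    (U U' : Submodule K V) (r : ℕ)
    (h : ∀ v : Fin (r + 1) → V, (∀ i, v i ∈ U) →
      ∃ c : Fin (r + 1) → K, (∃ i, c i ≠ 0) ∧ ∑ i, c i • v i ∈ U') :
    finrank K U ≤ finrank K U' + r := by
  have h1 : finrank K (U.map U'.mkQ) ≤ r := by
    by_contra hc
    obtain ⟨w, hw⟩ := exists_linearIndependent_of_le_finrank (R := K) (M := U.map U'.mkQ)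
      (n := r + 1) (by omega)
    choose v hv hv' using fun i => Submodule.mem_map.1 (w i).2
    obtain ⟨c, ⟨i, hi⟩, hc⟩ := h v hv
    refine hi (Fintype.linearIndependent_iff.1 hw c ?_ i)
    apply Subtype.ext
    have h0 : U'.mkQ (∑ i, c i • v i) = 0 := (Submodule.Quotient.mk_eq_zero U').2 hc
    rw [map_sum] at h0
    simp only [map_smul, hv'] at h0
    simpa using h0
  have h2 := LinearMap.finrank_range_add_finrank_ker (U'.mkQ ∘ₗ U.subtype)
  rw [LinearMap.range_comp, Submodule.range_subtype, LinearMap.ker_comp, Submodule.ker_mkQ] at h2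
  have h3 : finrank K (U'.comap U.subtype) ≤ finrank K U' := by
    rw [← Submodule.finrank_map_subtype_eq U (U'.comap U.subtype)]
    exact Submodule.finrank_mono (Submodule.map_comap_le _ _)
  omega

theorem sum_le {W ι : Type} [AddCommGroup W] (ν : W → ℝ)
    (hadd : ∀ a b, ν (a + b) ≤ max (ν a) (ν b)) (B : ℝ) (h0 : ν 0 ≤ B) (s : Finset ι)
    (w : ι → W) (hw : ∀ i, ν (w i) ≤ B) : ν (∑ i ∈ s, w i) ≤ B := by
  classical
  induction s using Finset.induction_on with
  | empty => simpa using h0
  | insert a s ha ih =>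
    rw [Finset.sum_insert ha]
    exact (hadd _ _).trans (max_le (hw a) ih)

end COUNT

open Module in
theorem count : S_COUNT := by
  intro K L V W _ _ _ _ _ _ _ _ _ _ _ n τ hτ hK himm ν hν hadd hsmul f A hA s hs
  have hτ0 : 0 < τ := by linarith
  have hν0 : ν 0 = 0 := by
    have := hsmul 0 0
    simpa using this
  have hA0 : 0 ≤ A := (hν _).trans (hA 0)
  have hB : ∀ t : ℕ, 0 ≤ A / τ ^ t := fun t => by positivity
  let U : ℕ → Submodule K V := fun t =>
    { carrier := {v | ν (f v) ≤ A / τ ^ t}
      add_mem' := fun {a b} ha hb => by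
        change ν (f (a + b)) ≤ _
        rw [map_add]
        exact (hadd _ _).trans (max_le ha hb)
      zero_mem' := by
        change ν (f 0) ≤ _
        rw [map_zero, hν0]
        exact hB t
      smul_mem' := fun c v hv => by
        change ν (f (c • v)) ≤ _
        rw [map_smul, ← algebraMap_smul L c (f v), hsmul]
        exact (mul_le_of_le_one_left (hν _) (hK c)).trans hv }
  have hU : ∀ t v, v ∈ U t ↔ ν (f v) ≤ A / τ ^ t := fun _ _ => Iff.rfl
  have hstep : ∀ t, finrank K (U t) ≤ finrank K (U (t + 1)) + finrank L W := by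
    intro t
    refine COUNT.step _ _ _ fun v hv => ?_
    have hdep : ¬ LinearIndependent L fun i => f (v i) := fun hl => by
      have := hl.fintype_card_le_finrank
      simp at this
    obtain ⟨g, hg, j, hj⟩ := Fintype.not_linearIndependent_iff.1 hdep
    obtain ⟨k, -, hk⟩ := Finset.exists_max_image Finset.univ (fun i => n (g i))
      Finset.univ_nonempty
    have hk0 : 0 < n (g k) := (n.pos hj).trans_le (hk j (Finset.mem_univ _))
    have hk1 : g k ≠ 0 := n.pos_iff.1 hk0
    choose c hc using fun i => himm (g i / g k) (by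
      rw [map_div₀, div_le_one hk0]
      exact hk i (Finset.mem_univ _))
    refine ⟨c, ⟨k, fun h0 => ?_⟩, ?_⟩
    · have h1 := hc k
      rw [h0, div_self hk1, map_zero, sub_zero, map_one] at h1
      exact absurd (inv_lt_one_of_one_lt₀ hτ) (not_lt.2 h1)
    · have hz : ∑ i, (g i / g k) • f (v i) = 0 := by
        have : ∑ i, (g i / g k) • f (v i) = (g k)⁻¹ • ∑ i, g i • f (v i) := by
          rw [Finset.smul_sum]
          exact Finset.sum_congr rfl fun i _ => by rw [smul_smul, div_eq_inv_mul]
        rw [this, hg, smul_zero]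
      have he : f (∑ i, c i • v i) = ∑ i, (algebraMap K L (c i) - g i / g k) • f (v i) := by
        simp only [sub_smul, Finset.sum_sub_distrib, hz, sub_zero, map_sum, map_smul,
          algebraMap_smul]
      rw [hU, he]
      refine COUNT.sum_le ν hadd _ (hν0 ▸ hB _) _ _ fun i => ?_
      rw [hsmul, n.map_sub, pow_succ, ← div_div, div_eq_inv_mul _ τ]
      exact mul_le_mul (hc i) (hv i) (hν _) (by positivity)
  have hall : ∀ t, finrank K V ≤ finrank K (U t) + finrank L W * t := by
    intro t
    induction t with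
    | zero =>
      have : U 0 = ⊤ := eq_top_iff.2 fun v _ => (hU 0 v).2 (by simpa using hA v)
      rw [this, finrank_top]
      omega
    | succ t ih =>
      have := hstep t
      rw [Nat.mul_succ]
      omega
  have hpos : U s ≠ ⊥ := fun h => by
    have := hall s
    rw [h, finrank_bot] at this
    omega
  obtain ⟨v, hv, hv0⟩ := Submodule.exists_mem_ne_zero_of_ne_bot hpos
  exact ⟨v, hv0, hv⟩

end Pool.Agent.KSkew
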