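import Pool.Agent.MP_c8dfda_nt.Core2

/-
Rows ESC and REC: the escape lemma and the recentred fibre map.
-/

open Polynomial Filter
open scoped Polynomial.Bivariate Topology

namespace Pool.Agent.KSkew

namespace ESC

theorem step {M : Type} [Field M] {N : AbsoluteValue M ℝ} (hN : IsNonarchimedean N)
    {d m : ℕ} {e s : ℤ} {r κ : ℝ} {b : ℕ → M} {z : M} (hm : 1 ≤ m) (hr : 0 < r) (hκ : 1 < κ)
    (hz : N z ^ m = κ * r ^ s) (hd : N (b d) = r ^ e)
    (hb : ∀ i < d, N (b i) ^ m ≤ r ^ (m * e + s * ((d : ℤ) - i))) :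
    N (∑ i ∈ Finset.range (d + 1), b i * z ^ i) ^ m = r ^ (m * e + s * d) * κ ^ d := by
  have hκ0 : 0 < κ := by linarith
  have e1 : ∀ i : ℕ, r ^ (m * e + s * ((d : ℤ) - i)) * (κ * r ^ s) ^ i =
      r ^ (m * e + s * d) * κ ^ i := fun i => by
    rw [mul_pow, ← zpow_natCast (r ^ s), ← zpow_mul, mul_left_comm, ← zpow_add₀ hr.ne', mul_comm]
    congr 2
    ring
  have e2 : ∀ i, N (b i * z ^ i) ^ m = N (b i) ^ m * (κ * r ^ s) ^ i := fun i => by
    rw [map_mul, map_pow, mul_pow, ← pow_mul, mul_comm i, pow_mul, hz]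
  have top : N (b d * z ^ d) ^ m = r ^ (m * e + s * d) * κ ^ d := by
    rw [e2, ← e1, hd, ← zpow_natCast (r ^ e), ← zpow_mul]
    congr 2
    ring
  have hp : 0 < r ^ (m * e + s * d) := zpow_pos hr _
  have low : ∀ i ∈ Finset.range d, N (b i * z ^ i) < N (b d * z ^ d) := fun i hi => by
    have hi' := Finset.mem_range.1 hi
    refine lt_of_pow_lt_pow_left₀ m (N.nonneg _) ?_
    rw [top, e2]
    refine (mul_le_mul_of_nonneg_right (hb i hi') (by positivity)).trans_lt ?_
    rw [e1]
    exact mul_lt_mul_of_pos_left (pow_lt_pow_right₀ hκ hi') hp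
  have pos : 0 < N (b d * z ^ d) := by
    refine (N.nonneg _).lt_of_ne fun h => ?_
    rw [← h, zero_pow (by omega)] at top
    exact absurd top (by positivity)
  rw [← top, na_eq_of_sub_lt hN (a := b d * z ^ d)]
  rw [Finset.sum_range_succ, sub_add_cancel_right, N.map_neg]
  exact na_sum_lt hN _ _ pos low

/-- The Taylor coefficients at the centre, with the denominators cleared. -/
noncomputable def B {K : Type} [Field K] (q : K[X][Y]) (i : ℕ) : K[X] :=
  ∑ k ∈ Finset.range (q.natDegree + 1),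
    (k.choose i : K[X]) * q.coeff k * cv q ^ (k - i) * q.leadingCoeff ^ (q.natDegree - (k - i))

theorem B_top {K : Type} [Field K] (q : K[X][Y]) :
    B q q.natDegree = q.leadingCoeff * q.leadingCoeff ^ q.natDegree := by
  rw [B, Finset.sum_range_succ, Finset.sum_eq_zero fun k hk => by
    rw [Nat.choose_eq_zero_of_lt (Finset.mem_range.1 hk)]
    simp]
  simp

theorem B_sub {K : Type} [Field K] [CharZero K] (q : K[X][Y]) (h : 1 ≤ q.natDegree) :
    B q (q.natDegree - 1) = 0 := by
  obtain ⟨n, hn⟩ : ∃ n, q.natDegree = n + 1 := ⟨q.natDegree - 1, by omega⟩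
  have hl : q.coeff (n + 1) = q.leadingCoeff := by rw [← hn, coeff_natDegree]
  have hc : ((n + 1 : ℕ) : K[X]) * cv q = -q.coeff n := by
    rw [cv, hn, Nat.add_sub_cancel, mul_neg, ← mul_assoc, ← C_eq_natCast, ← C_mul,
      mul_inv_cancel₀ (Nat.cast_ne_zero.2 n.succ_ne_zero), C_1, one_mul]
  rw [B, hn, Nat.add_sub_cancel, Finset.sum_range_succ, Finset.sum_range_succ,
    Finset.sum_eq_zero fun k hk => by
      rw [Nat.choose_eq_zero_of_lt (Finset.mem_range.1 hk)]
      simp]
  rw [Nat.choose_self, Nat.choose_succ_self_right, Nat.sub_self, Nat.add_sub_cancel_left, hl,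
    Nat.add_sub_cancel, Nat.sub_zero]
  linear_combination q.leadingCoeff ^ (n + 1) * hc

theorem expand {K F : Type} [Field K] [Field F] [Algebra K F] (q : K[X][Y]) (s t : F)
    (ha : aeval s q.leadingCoeff ≠ 0) :
    aevalAeval s t q = ∑ i ∈ Finset.range (q.natDegree + 1),
      aeval s (B q i) / aeval s q.leadingCoeff ^ q.natDegree * (t - ctr q s) ^ i := by
  have e1 : aevalAeval s t q =
      ∑ k ∈ Finset.range (q.natDegree + 1), aeval s (q.coeff k) * t ^ k := by
    conv_lhs => rw [q.as_sum_range_C_mul_X_pow]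
    simp [map_sum]
  have e2 : ∀ k ∈ Finset.range (q.natDegree + 1), t ^ k = ∑ i ∈ Finset.range (q.natDegree + 1),
      (t - ctr q s) ^ i * ctr q s ^ (k - i) * (k.choose i : F) := fun k hk => by
    conv_lhs => rw [← sub_add_cancel t (ctr q s), add_pow]
    refine Finset.sum_subset (Finset.range_mono (Finset.mem_range.1 hk)) fun i _ hi => ?_
    rw [Nat.choose_eq_zero_of_lt (by simpa using hi)]
    simp
  rw [e1, Finset.sum_congr rfl fun k hk => by rw [e2 k hk, Finset.mul_sum], Finset.sum_comm]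
  refine Finset.sum_congr rfl fun i _ => ?_
  rw [B, map_sum, Finset.sum_div, Finset.sum_mul]
  refine Finset.sum_congr rfl fun k hk => ?_
  obtain ⟨n, hn⟩ : ∃ n, q.natDegree = k - i + n :=
    ⟨q.natDegree - (k - i), by have := Finset.mem_range.1 hk; omega⟩
  have e3 : ctr q s ^ (k - i) =
      aeval s (cv q) ^ (k - i) / aeval s q.leadingCoeff ^ (k - i) := by rw [ctr, div_pow]
  rw [e3, hn, Nat.add_sub_cancel_left]
  simp only [map_mul, map_pow, map_natCast, pow_add]
  field_simp

end ESC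

theorem esc : S_ESC := by
  intro M _ N hN d d₁ m e s ρ b z h1 hd hm hρ0 hρ he hbd hb hz ⟨c, hc⟩ j
  have r1 : ∀ j, 1 ≤ ρ j := fun j => by
    induction j with
    | zero => exact hρ0
    | succ j ih => rw [hρ]; exact one_le_pow₀ ih
  have r0 : ∀ j, 0 < ρ j := fun j => one_pos.trans_le (r1 j)
  have rl : ∀ j, Real.log (ρ j) = (d₁ : ℝ) ^ j * Real.log (ρ 0) := fun j => by
    induction j with
    | zero => simp
    | succ j ih => rw [hρ, Real.log_pow, ih]; ring
  set κ : ℕ → ℝ := fun j => N (z j) ^ m / ρ j ^ s with hκ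
  have k1 : ∀ j, N (z j) ^ m = κ j * ρ j ^ s := fun j =>
    (div_mul_cancel₀ _ (zpow_pos (r0 j) s).ne').symm
  have st : ∀ j, 1 < κ j → κ j ^ d ≤ κ (j + 1) := fun j hj => by
    have h := ESC.step hN hm (r0 j) hj (k1 j) (hbd j) (hb j)
    rw [← hz] at h
    have e1 : κ (j + 1) = ρ j ^ (e * m + ((d : ℤ) - d₁) * s) * κ j ^ d := by
      change N (z (j + 1)) ^ m / ρ (j + 1) ^ s = _
      rw [h, hρ, ← zpow_natCast (ρ j) d₁, ← zpow_mul, mul_div_right_comm, ← zpow_sub₀ (r0 j).ne']
      congr 2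
      ring
    rw [e1]
    exact le_mul_of_one_le_left (by positivity) (one_le_zpow₀ (r1 j) he)
  by_contra hlt
  have hj : 1 < κ j := (one_lt_div (zpow_pos (r0 j) s)).2 (not_le.1 hlt)
  have it : ∀ n, κ j ^ d ^ n ≤ κ (j + n) := fun n => by
    induction n with
    | zero => simp
    | succ n ih =>
      have h2 : 1 < κ (j + n) := (one_lt_pow₀ hj (pow_ne_zero _ (by omega))).trans_le ih
      rw [pow_succ, pow_mul]
      exact (pow_le_pow_left₀ (by positivity) ih d).trans (st _ h2)
  have up : ∀ j, κ j ≤ Real.exp ((m * c - s * Real.log (ρ 0)) * (d₁ : ℝ) ^ j) := fun j => by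
    have e1 : ρ j ^ s = Real.exp (s * Real.log (ρ j)) := by
      rw [← Real.log_zpow, Real.exp_log (zpow_pos (r0 j) s)]
    change N (z j) ^ m / ρ j ^ s ≤ _
    rw [div_le_iff₀ (zpow_pos (r0 j) s), e1, ← Real.exp_add, rl j]
    refine (pow_le_pow_left₀ (N.nonneg _) (hc j) m).trans (le_of_eq ?_)
    rw [← Real.exp_nat_mul]
    congr 1
    ring
  have hL : 0 < Real.log (κ j) := Real.log_pos hj
  have d0 : (0 : ℝ) < d₁ := by exact_mod_cast h1
  have bd : ∀ n, ((d : ℝ) / d₁) ^ n ≤
      (m * c - s * Real.log (ρ 0)) * (d₁ : ℝ) ^ j / Real.log (κ j) := fun n => by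
    have h := Real.log_le_log (by positivity) ((it n).trans (up _))
    rw [Real.log_exp, Real.log_pow, pow_add] at h
    rw [div_pow, div_le_div_iff₀ (by positivity) hL]
    push_cast at h
    linarith
  obtain ⟨n, hn⟩ := pow_unbounded_of_one_lt
    ((m * c - s * Real.log (ρ 0)) * (d₁ : ℝ) ^ j / Real.log (κ j))
    ((one_lt_div d0).2 (by exact_mod_cast hd) : (1 : ℝ) < d / d₁)
  exact absurd (bd n) (not_le.2 hn)

theorem recA : S_REC := by
  intro K _ _ p q hq
  refine ⟨fun i => ESC.B q i * q.leadingCoeff.comp p -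
    if i = 0 then (cv q).comp p * q.leadingCoeff ^ q.natDegree else 0, ?_, ?_, ?_⟩
  · beta_reduce
    rw [if_neg (by omega), sub_zero, ESC.B_top, Dn, mul_assoc]
  · beta_reduce
    rw [if_neg (by omega), sub_zero, ESC.B_sub q (by omega), zero_mul]
  · intro F _ _ s t hD
    beta_reduce
    rw [Dn, map_mul, map_pow, aeval_comp] at hD ⊢
    have h1 : aeval s q.leadingCoeff ≠ 0 := fun h => hD (by rw [h, zero_pow (by omega), zero_mul])
    have h2 := right_ne_zero_of_mul hD
    rw [ESC.expand q s t h1, Finset.sum_range_succ', Finset.sum_range_succ', add_sub_assoc]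
    congr 1
    · refine Finset.sum_congr rfl fun i _ => ?_
      rw [if_neg (Nat.add_one_ne_zero i), sub_zero, map_mul, aeval_comp, mul_div_mul_right _ _ h2]
    · rw [if_pos rfl, pow_zero, mul_one, mul_one, map_sub, map_mul, map_mul, map_pow, aeval_comp,
        aeval_comp, ctr]
      field_simp

end Pool.Agent.KSkew
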