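import Mathlib.Analysis.Normed.Unbundled.SpectralNorm
import Mathlib.Analysis.Normed.Field.Instances
import Mathlib.Topology.Separation.CompletelyRegular
import Pool.Agent.MP_c8dfda_nt.Core2

/-! Row EXT: completion, algebraic closure and the closure of the field generated by `ξ`. -/

open Polynomial Filter IntermediateField
open scoped Topology

namespace Pool.Agent.KSkew

namespace EXT

section

variable {K Ω : Type} [Field K] [NormedField Ω] [IsUltrametricDist Ω] [Algebra K Ω]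

theorem norm_aeval (hK : ∀ c : K, c ≠ 0 → ‖algebraMap K Ω c‖ = 1) {ξ : Ω} (hξ : 1 < ‖ξ‖)
    (A : K[X]) (hA : A ≠ 0) : ‖aeval ξ A‖ = ‖ξ‖ ^ A.natDegree := by
  induction h : A.natDegree using Nat.strong_induction_on generalizing A with
  | _ n ih =>
  have h1 : ‖aeval ξ (C A.leadingCoeff * X ^ A.natDegree)‖ = ‖ξ‖ ^ n := by
    rw [map_mul, aeval_C, aeval_X_pow, norm_mul, hK _ (leadingCoeff_ne_zero.2 hA), one_mul,
      norm_pow, h]
  rw [← A.eraseLead_add_C_mul_X_pow, map_add]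
  by_cases h0 : A.eraseLead = 0
  · rw [h0, map_zero, zero_add, h1]
  · have h2 : A.eraseLead.natDegree < n :=
      h ▸ (A.eraseLead_natDegree_lt_or_eraseLead_eq_zero).resolve_right h0
    have h3 : ‖aeval ξ A.eraseLead‖ < ‖aeval ξ (C A.leadingCoeff * X ^ A.natDegree)‖ := by
      rw [h1, ih _ h2 _ h0 rfl]
      exact pow_lt_pow_right₀ hξ h2
    rw [IsUltrametricDist.norm_add_eq_max_of_norm_ne_norm h3.ne, max_eq_right h3.le, h1]

theorem imm0 (hK : ∀ c : K, c ≠ 0 → ‖algebraMap K Ω c‖ = 1) {ξ : Ω} (hξ : 1 < ‖ξ‖) {z : Ω}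
    (hz : z ∈ K⟮ξ⟯) (h1 : ‖z‖ ≤ 1) : ∃ c : K, ‖z - algebraMap K Ω c‖ ≤ ‖ξ‖⁻¹ := by
  have x0 : 0 < ‖ξ‖ := one_pos.trans hξ
  obtain ⟨A, B, rfl⟩ := (mem_adjoin_simple_iff K z).1 hz
  by_cases hB : B = 0
  · exact ⟨0, by simp [hB]⟩
  have nB := norm_aeval hK hξ B hB
  have pB : 0 < ‖aeval ξ B‖ := nB ▸ pow_pos x0 _
  have hd : A.natDegree ≤ B.natDegree := by
    by_cases hA : A = 0
    · simp [hA]
    · rw [norm_div, div_le_one pB, norm_aeval hK hξ A hA, nB] at h1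
      exact (pow_le_pow_iff_right₀ hξ).1 h1
  refine ⟨A.coeff B.natDegree / B.leadingCoeff, ?_⟩
  set c := A.coeff B.natDegree / B.leadingCoeff with hc
  have e : aeval ξ A / aeval ξ B - algebraMap K Ω c = aeval ξ (A - C c * B) / aeval ξ B := by
    rw [map_sub, map_mul, aeval_C, sub_div, mul_div_cancel_right₀ _ (norm_pos_iff.1 pB)]
  rw [e, norm_div, div_le_iff₀ pB]
  by_cases hD : A - C c * B = 0
  · rw [hD, map_zero, norm_zero]
    positivity
  have h2 : (A - C c * B).natDegree < B.natDegree := by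
    refine lt_of_le_of_ne ((natDegree_sub_le _ _).trans
      (max_le hd (natDegree_C_mul_le _ _))) fun h => leadingCoeff_ne_zero.2 hD ?_
    rw [leadingCoeff, h, coeff_sub, coeff_C_mul, hc, coeff_natDegree,
      div_mul_cancel₀ _ (leadingCoeff_ne_zero.2 hB), sub_self]
  rw [norm_aeval hK hξ _ hD, nB, le_inv_mul_iff₀ x0, ← pow_succ']
  exact pow_le_pow_right₀ hξ.le h2

theorem imm (hK : ∀ c : K, c ≠ 0 → ‖algebraMap K Ω c‖ = 1) {ξ : Ω} (hξ : 1 < ‖ξ‖) {z : Ω}
    (hz : z ∈ closure (K⟮ξ⟯ : Set Ω)) (h1 : ‖z‖ ≤ 1) :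
    ∃ c : K, ‖z - algebraMap K Ω c‖ ≤ ‖ξ‖⁻¹ := by
  obtain ⟨w, hw, h⟩ := Metric.mem_closure_iff.1 hz ‖ξ‖⁻¹ (inv_pos.2 (one_pos.trans hξ))
  have h2 : ‖w‖ ≤ 1 := by
    have := IsUltrametricDist.norm_add_le_max (w - z) z
    rw [sub_add_cancel, ← dist_eq_norm, dist_comm] at this
    exact this.trans (max_le (h.le.trans (inv_le_one_of_one_le₀ hξ.le)) h1)
  obtain ⟨c, hc⟩ := imm0 hK hξ hw h2
  have := IsUltrametricDist.norm_add_le_max (z - w) (w - algebraMap K Ω c)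
  rw [sub_add_sub_cancel, ← dist_eq_norm z w] at this
  exact ⟨c, this.trans (max_le h.le hc)⟩

theorem conj (L : IntermediateField K Ω) (hL : IsComplete (L : Set Ω)) {ξ : Ω} (hξ : 1 < ‖ξ‖)
    (hm : ξ ∈ L) {β : Ω} (hβ : IsIntegral L β) :
    ‖β‖ = spectralValue (R := L.toSubfield) (minpoly L β) := by
  let _ : NontriviallyNormedField L :=
    { (inferInstanceAs (NormedField L.toSubfield) : NormedField L) with
      non_trivial := ⟨⟨ξ, hm⟩, hξ⟩ }
  have : CompleteSpace L := hL.completeSpace_coe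
  have : IsUltrametricDist L := inferInstanceAs (IsUltrametricDist L.toSubfield)
  have := adjoin.finiteDimensional hβ
  have h := spectralNorm_unique_field_norm_ext (K := L) (L := L⟮β⟯)
    (f := (NormedField.toAbsoluteValue Ω).comp (L⟮β⟯.val : L⟮β⟯ →+* Ω).injective)
    (fun _ => rfl) (AdjoinSimple.gen L β)
  rw [spectralNorm, minpoly_gen] at h
  exact h

theorem core {F : Type} [NormedField F] [CompleteSpace F] (ψ : F →+* Ω) (hψ : Isometry ψ)
    (hK : ∀ c : K, c ≠ 0 → ‖algebraMap K Ω c‖ = 1) (hr : ∀ c : K, algebraMap K Ω c ∈ ψ.fieldRange)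
    {ξ : Ω} (hξ : 1 < ‖ξ‖) (hm : ξ ∈ ψ.fieldRange) : ∃ L : IntermediateField K Ω, ξ ∈ L ∧
      (∀ β β' : Ω, IsIntegral L β → minpoly L β = minpoly L β' → ‖β‖ = ‖β'‖) ∧
      ∀ z ∈ L, ‖z‖ ≤ 1 → ∃ c : K, ‖z - algebraMap K Ω c‖ ≤ ‖ξ‖⁻¹ := by
  let L : IntermediateField K Ω := K⟮ξ⟯.toSubfield.topologicalClosure.toIntermediateField
    fun c => Subfield.le_topologicalClosure _ (K⟮ξ⟯.algebraMap_mem c)
  have h1 : IsComplete (Set.range ψ) := hψ.isUniformInducing.isComplete_range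
  have h2 : (K⟮ξ⟯ : Set Ω) ⊆ Set.range ψ :=
    show K⟮ξ⟯ ≤ ψ.fieldRange.toIntermediateField hr from adjoin_simple_le_iff.2 hm
  have hL : IsComplete (closure (K⟮ξ⟯ : Set Ω)) := fun f hf hs => by
    obtain ⟨x, -, hx⟩ := h1 f hf (hs.trans (principal_mono.2 (closure_minimal h2 h1.isClosed)))
    have := hf.1
    exact ⟨x, isClosed_closure.mem_of_tendsto (f := id) hx (le_principal_iff.1 hs), hx⟩
  have hx : ξ ∈ L := Subfield.le_topologicalClosure _ (mem_adjoin_simple_self K ξ)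
  refine ⟨L, hx, fun β β' hβ e => ?_, fun z hz => imm hK hξ hz⟩
  have hβ' : IsIntegral L β' := minpoly.ne_zero_iff.1 (e ▸ minpoly.ne_zero hβ)
  rw [conj L hL hξ hx hβ, conj L hL hξ hx hβ', e]

end

theorem ultra {M : Type} [Field M] {N : AbsoluteValue M ℝ} (hN : IsNonarchimedean N) :
    IsUltrametricDist N.Completion := by
  refine IsUltrametricDist.isUltrametricDist_of_isNonarchimedean_norm fun x y => ?_
  induction x, y using UniformSpace.Completion.induction_on₂ with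
  | hp => exact isClosed_le (by fun_prop) (by fun_prop)
  | ih a b =>
    rw [← UniformSpace.Completion.coe_add]
    simp only [UniformSpace.Completion.norm_coe]
    exact hN _ _

theorem step (K M F : Type) [Field K] [Field M] [Algebra K M] [NontriviallyNormedField F]
    [CompleteSpace F] [IsUltrametricDist F] (N : AbsoluteValue M ℝ) (κ : M →+* F)
    (hκ : ∀ a, ‖κ a‖ = N a) (hK : ∀ c : K, c ≠ 0 → N (algebraMap K M c) = 1) (ξ : M)
    (hξ : 1 < N ξ) :
    ∃ (Ω : Type) (_ : Field Ω) (_ : Algebra K Ω) (_ : IsAlgClosed Ω) (N' : AbsoluteValue Ω ℝ)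
      (φ : M →ₐ[K] Ω) (L : IntermediateField K Ω),
      IsNonarchimedean N' ∧ (∀ a, N' (φ a) = N a) ∧ φ ξ ∈ L ∧
      (∀ β β' : Ω, IsIntegral L β → minpoly L β = minpoly L β' → N' β = N' β') ∧
      ∀ z ∈ L, N' z ≤ 1 → ∃ c : K, N' (z - algebraMap K Ω c) ≤ (N ξ)⁻¹ := by
  let _ : NormedField (AlgebraicClosure F) := spectralNorm.normedField F _
  have hna : IsNonarchimedean (norm : AlgebraicClosure F → ℝ) := isNonarchimedean_spectralNorm
  have := IsUltrametricDist.isUltrametricDist_of_isNonarchimedean_norm hna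
  let ψ := algebraMap F (AlgebraicClosure F)
  have hψ : ∀ a, ‖ψ a‖ = ‖a‖ := spectralNorm_extends
  let A : Algebra K (AlgebraicClosure F) := ((ψ.comp κ).comp (algebraMap K M)).toAlgebra
  have h1 : ∀ a, ‖ψ (κ a)‖ = N a := fun a => (hψ _).trans (hκ a)
  obtain ⟨L, h2, h3, h4⟩ := core (K := K) ψ (AddMonoidHomClass.isometry_of_norm ψ hψ)
    (fun c hc => (h1 _).trans (hK c hc)) (fun c => ⟨_, rfl⟩) (ξ := ψ (κ ξ)) (h1 ξ ▸ hξ) ⟨_, rfl⟩
  exact ⟨AlgebraicClosure F, inferInstance, A, inferInstance, NormedField.toAbsoluteValue _,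
    ⟨ψ.comp κ, fun _ => rfl⟩, L, hna, h1, h2, h3, h1 ξ ▸ h4⟩

end EXT

theorem ext : S_EXT := by
  intro K M _ _ _ N hN hK ξ hξ
  let κ : M →+* N.Completion :=
    UniformSpace.Completion.coeRingHom.comp (WithAbs.equiv N).symm.toRingHom
  have hκ : ∀ a, ‖κ a‖ = N a := fun a => UniformSpace.Completion.norm_coe (WithAbs.toAbs N a)
  have := EXT.ultra hN
  let _ : NontriviallyNormedField N.Completion :=
    { (inferInstance : NormedField N.Completion) with non_trivial := ⟨κ ξ, hκ ξ ▸ hξ⟩ }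
  exact EXT.step K M N.Completion N κ hκ hK ξ hξ

end Pool.Agent.KSkew
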