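import Pool.Agent.MP_c8dfda_nt.Core2

/-
A limit system exists only in the rigid case.
-/

open Polynomial
open scoped Polynomial.Bivariate

namespace Pool.Agent.KSkew

namespace FinRow

variable {K M : Type} [Field K] [Field M] [Algebra K M]

section one

variable {N : AbsoluteValue M ℝ} (hN : IsNonarchimedean N)
  (ht : ∀ c : K, c ≠ 0 → N (algebraMap K M c) = 1) {x : M}
include hN ht

lemma ev_le {ρ : ℝ} (hρ : 1 ≤ ρ) (hx : N x ≤ ρ) (R : K[X]) : N (aeval x R) ≤ ρ ^ R.natDegree := by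
  rw [aeval_eq_sum_range]
  refine na_sum_le hN _ _ (by positivity) fun i hi => ?_
  have h1 : N (algebraMap K M (R.coeff i)) ≤ 1 := by
    rcases eq_or_ne (R.coeff i) 0 with c | c
    · simp [c]
    · exact (ht _ c).le
  rw [Algebra.smul_def, map_mul, map_pow]
  refine (mul_le_of_le_one_left (by positivity) h1).trans
    ((pow_le_pow_left₀ (apply_nonneg _ _) hx _).trans (pow_le_pow_right₀ hρ ?_))
  exact Nat.lt_succ_iff.1 (Finset.mem_range.1 hi)

lemma ev_one (hx : N x ≤ 1) (R : K[X]) : N (aeval x R) ≤ 1 := by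
  simpa using ev_le hN ht le_rfl hx R

lemma ev_eq (hx : 1 < N x) {R : K[X]} (hR : R ≠ 0) : N (aeval x R) = N x ^ R.natDegree := by
  have h1 : N (aeval x (C R.leadingCoeff * X ^ R.natDegree)) = N x ^ R.natDegree := by
    simp [ht _ (leadingCoeff_ne_zero.2 hR)]
  rw [← h1]
  refine na_eq_of_sub_lt hN ?_
  rw [N.map_sub, ← map_sub, self_sub_C_mul_X_pow, h1]
  rcases eraseLead_natDegree_lt_or_eraseLead_eq_zero R with c | c
  · exact (ev_le hN ht hx.le le_rfl _).trans_lt (pow_lt_pow_right₀ hx c)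
  · rw [c, map_zero, map_zero]
    positivity

lemma ev_lt (hx : 1 < N x) {B R : K[X]} (h : B.degree < R.degree) :
    N (aeval x B) * N x ≤ N (aeval x R) := by
  rcases eq_or_ne B 0 with rfl | c
  · simp
  rw [ev_eq hN ht hx c, ev_eq hN ht hx (ne_zero_of_degree_gt h), ← pow_succ]
  exact pow_le_pow_right₀ hx.le (natDegree_lt_natDegree c h)

lemma ev_zero (hx : N x < 1) {R : K[X]} (hR : R.coeff 0 ≠ 0) : N (aeval x R) = 1 := by
  rw [← ht _ hR]
  refine na_eq_of_sub_lt hN ?_
  rw [N.map_sub, ht _ hR]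
  conv_lhs => rw [← divX_mul_X_add R]
  simp only [map_add, map_mul, aeval_X, aeval_C, coeff_add, mul_coeff_zero, coeff_X_zero, mul_zero,
    coeff_C_zero, zero_add, add_sub_cancel_right]
  exact mul_lt_one_of_nonneg_of_lt_one_right (ev_one hN ht hx.le _) (apply_nonneg _ _) hx

end one

lemma mono_of {f : K[X]} (h : f.natDegree ≤ f.natTrailingDegree) :
    f = C f.leadingCoeff * X ^ f.natDegree := by
  ext n
  rw [coeff_C_mul_X_pow]
  split_ifs with c
  · rw [c, coeff_natDegree]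
  · rcases lt_or_gt_of_ne c with c | c
    · exact coeff_eq_zero_of_lt_natTrailingDegree (c.trans_le h)
    · exact coeff_eq_zero_of_natDegree_lt c

/-- The product formula is violated unless the leading coefficient is a monomial. -/
lemma key {ι : Type} [Fintype ι] {p : K[X]} {q : K[X][Y]} {N : ι → AbsoluteValue M ℝ}
    {x y : ℤ → M} (h : GSys p q N x y) {n e : ℕ} {a : K[X]} (hn : 0 < n)
    (ha : q.leadingCoeff = X ^ e * a) (hc : IsCoprime (X ^ e) a) (hd : 0 < a.natDegree)
    (hp : ∏ i, N i (x 0) = 1 ∨ e = 0)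
    (hl : ∀ i, (1 < N i (x 0) ∧
        N i (y 0 - ctr q (x 0)) ^ n * N i (x 0) ^ q.leadingCoeff.natDegree ≤ 1) ∨
      (N i (x 0) ≤ 1 ∧ N i (aeval (x 0) a) = 1 ∧
        N i (y 0 - ctr q (x 0)) ^ n * N i (x 0) ^ e ≤ 1)) : False := by
  have a0 : a ≠ 0 := ne_zero_of_natDegree_gt hd
  have x0 : x 0 ≠ 0 := fun c => X_ne_zero (h.trans 0 X (by simpa using c))
  have a1 : aeval (x 0) a ≠ 0 := fun c => a0 (h.trans 0 a c)
  obtain ⟨u, v, huv⟩ := hc
  obtain ⟨B, T, hB, hT⟩ : ∃ B T : K[X], B.degree < a.degree ∧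
      X ^ (e / n) * cv q = T * a + B * X ^ e :=
    ⟨X ^ (e / n) * cv q * u % a, X ^ (e / n) * cv q * v + X ^ (e / n) * cv q * u / a * X ^ e,
      degree_mod_lt _ a0, by
        linear_combination -(X ^ (e / n) * cv q) * huv -
          X ^ e * EuclideanDomain.div_add_mod (X ^ (e / n) * cv q * u) a⟩
  obtain ⟨z, hz⟩ : ∃ z, z = y 0 - ctr q (x 0) := ⟨_, rfl⟩
  obtain ⟨w, hw⟩ : ∃ w, w = x 0 ^ (e / n) * z + aeval (x 0) B / aeval (x 0) a := ⟨_, rfl⟩
  have hV : aevalAeval (x 0) (y 0) (C (X ^ (e + e / n)) * Y - C T : K[X][Y]) = x 0 ^ e * w := by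
    have := congrArg (aeval (x 0)) hT
    simp only [map_add, map_mul, map_pow, aeval_X] at this
    simp only [map_sub, map_mul, aevalAeval_C, aevalAeval_Y, hw, hz, ctr, ha, map_pow, aeval_X,
      pow_add]
    field_simp
    linear_combination this
  have hV0 : x 0 ^ e * w ≠ 0 := fun c => by
    have := congrArg (coeff · 1) (h.ind _ (hV.trans c))
    simp [-map_pow] at this
  have h1 := h.pf 0 _ (hV ▸ hV0)
  rw [hV] at h1
  have w0 : ∀ i, 0 < N i w := fun i => (N i).pos (right_ne_zero_of_mul hV0)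
  have r0 : ∀ i, 0 < N i (x 0) := fun i => (N i).pos x0
  have h2 : ∀ m : ℕ, m ≤ e → (∏ i, N i (x 0)) ^ m = 1 := fun m hm => by
    rcases hp with c | c
    · rw [c, one_pow]
    · rw [show m = 0 by omega, pow_zero]
  simp only [map_mul, map_pow, Finset.prod_mul_distrib, Finset.prod_pow, h2 e le_rfl,
    one_mul] at h1
  have h3 : 1 ≤ ∏ i, N i w ^ n * N i (x 0) ^ (e % n) := by
    rw [Finset.prod_mul_distrib, Finset.prod_pow, Finset.prod_pow, h2 _ (Nat.mod_le _ _), mul_one]
    exact one_le_pow₀ h1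
  rw [← hz] at hl
  have h4 : ∀ i, N i w ^ n * N i (x 0) ^ (e % n) ≤ N i z ^ n * N i (x 0) ^ e ∨
      N i w ^ n * N i (x 0) ^ (e % n) ≤
        (N i (aeval (x 0) B) / N i (aeval (x 0) a)) ^ n * N i (x 0) ^ (e % n) := fun i => by
    rcases le_max_iff.1 (hw ▸ h.na i _ _ : N i w ≤ _) with c | c
    · left
      rw [map_mul, map_pow] at c
      calc _ ≤ (N i (x 0) ^ (e / n) * N i z) ^ n * N i (x 0) ^ (e % n) := by gcongr
        _ = N i z ^ n * N i (x 0) ^ (n * (e / n) + e % n) := by ring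
        _ = _ := by rw [Nat.div_add_mod]
    · right
      rw [map_div₀] at c
      gcongr
  have h5 : ∀ i, 1 < N i (x 0) → N i w ^ n * N i (x 0) ^ (e % n) < 1 := fun i hi => by
    rcases h4 i with c | c
    · have c1 := ((hl i).resolve_right fun c => absurd hi (not_lt.2 c.1)).2
      rw [ha, natDegree_mul (by simp) a0, natDegree_X_pow, pow_add, ← mul_assoc] at c1
      have c2 : 1 < N i (x 0) ^ a.natDegree := one_lt_pow₀ hi hd.ne'
      refine c.trans_lt (lt_of_mul_lt_mul_right (a := N i (x 0) ^ a.natDegree) ?_ (by positivity))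
      linarith
    · have c1 : N i (aeval (x 0) B) / N i (aeval (x 0) a) ≤ (N i (x 0))⁻¹ := by
        rw [div_le_iff₀ ((N i).pos a1), ← div_eq_inv_mul, le_div_iff₀ (r0 i)]
        exact ev_lt (h.na i) (h.triv i) hi hB
      refine c.trans_lt (lt_of_le_of_lt (b := (N i (x 0))⁻¹ ^ n * N i (x 0) ^ (e % n))
        (by gcongr) ?_)
      rw [inv_pow, ← div_eq_inv_mul, div_lt_one (by positivity)]
      exact pow_lt_pow_right₀ hi (Nat.mod_lt _ hn)
  obtain ⟨i, hi⟩ := h.big
  refine absurd h3 (not_le.2 ((Finset.prod_lt_prod (g := fun _ => 1) (fun i _ => ?_) (fun j _ => ?_)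
    ⟨i, Finset.mem_univ _, h5 i hi⟩).trans_eq Finset.prod_const_one))
  · exact mul_pos (pow_pos (w0 i) _) (pow_pos (r0 i) _)
  rcases hl j with c | ⟨c1, c2, c3⟩
  · exact (h5 j c.1).le
  rcases h4 j with c | c
  · exact c.trans c3
  rw [c2, div_one] at c
  exact c.trans (mul_le_one₀ (pow_le_one₀ (apply_nonneg _ _) (ev_one (h.na j) (h.triv j) c1 B))
    (by positivity) (pow_le_one₀ (apply_nonneg _ _) c1))

/-- Monomial coefficients of the resonant degrees give the rigid case. -/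
lemma rigid_of {p : K[X]} {q : K[X][Y]} {A : ℕ → K[X]} (hA : RecA p q A) {a k : K} {e n : ℕ}
    (ha : a ≠ 0) (hk : k ≠ 0) (h1 : q.leadingCoeff = C a * X ^ e) (h2 : Dn p q = C k * X ^ n)
    (h3 : e = 0 ∨ ∃ l : K, p = C l * X ^ p.natDegree)
    (h4 : ∀ i < q.natDegree, A i ≠ 0 → (A i).natDegree ≤ (A i).natTrailingDegree ∧
      ((q.natDegree : ℤ) - p.natDegree) * (((A i).natDegree : ℤ) - n) =
        e * ((i : ℤ) - p.natDegree)) : Rigid p q := by
  have b1 : A q.natDegree = C (a * k) * X ^ (e + n) := by rw [hA.1, h1, h2, map_mul]; ring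
  have b2 : (A q.natDegree).natDegree = e + n := by
    rw [b1, natDegree_C_mul_X_pow _ _ (mul_ne_zero ha hk)]
  have b3 : (A q.natDegree).leadingCoeff / k = a := by
    rw [b1, leadingCoeff_C_mul_X_pow, mul_div_cancel_right₀ _ hk]
  refine ⟨e, fun i => (A i).leadingCoeff / k, fun i => (A i).natDegree - n, b3.trans_ne ha,
    fun i hi c => ?_, h3, by rw [h1]; simp only [b3], fun s t hs _ => ?_⟩
  · rcases hi.lt_or_eq with hi | rfl
    · exact (h4 i hi fun c' => c (by simp [c'])).2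
    · simp only [b2]
      push_cast
      ring
  have b4 : aeval s (Dn p q) = k * s ^ n := by simp [h2]
  have := hA.2.2 K s t (by rw [b4]; positivity)
  rw [coe_aevalAeval_eq_evalEval, b4, coe_aeval_eq_eval] at this
  refine this.trans (Finset.sum_congr rfl fun i hi => ?_)
  have b5 : A i = C (A i).leadingCoeff * X ^ (A i).natDegree := by
    rcases (Nat.lt_succ_iff.1 (Finset.mem_range.1 hi)).lt_or_eq with hi | rfl
    · rcases eq_or_ne (A i) 0 with c | c
      · simp [c]
      · exact mono_of (h4 i hi c).1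
    · rw [b2, b1, leadingCoeff_C_mul_X_pow]
  conv_lhs => rw [b5]
  simp only [eval_mul, eval_C, eval_pow, eval_X, zpow_sub₀ hs, zpow_natCast]
  field_simp

end FinRow

open FinRow in
theorem fin (h1 : S_REC) (h2 : S_LOC) (h3 : S_BACK) : S_FIN := by
  intro K M ι _ _ _ _ _ p q N x y h hd1 hd hdi
  obtain ⟨A, hA⟩ := h1 K p q (by omega)
  have L := h2 K M ι p q N x y A _ _ h rfl rfl hd1 hd hA
  have a0 : q.leadingCoeff ≠ 0 := leadingCoeff_ne_zero.2 (ne_zero_of_natDegree_gt hd)
  obtain ⟨i₀, hi₀⟩ := h.big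
  have hI := ((L i₀).1 hi₀).1
  have hn : (0 : ℤ) < (q.natDegree : ℤ) - p.natDegree := by omega
  have hx : ∀ i, N i (x 0) ≤ 1 → ∀ j : ℕ, N i (x j) ≤ 1 := fun i hi j => by
    induction j with
    | zero => exact hi
    | succ j ih =>
      rw [Nat.cast_succ, h.recx]
      exact ev_one (h.na i) (h.triv i) ih p
  have hB : ∀ i, N i (x 0) ≤ 1 → (∀ (j : ℕ) (R : K[X]), R ≠ 0 → N i (aeval (x j) R) = 1) ∨
      ∃ α l : K, p = C α + C l * (X - C α) ^ p.natDegree ∧
        N i (x 0 - algebraMap K M α) < 1 := fun i hi => by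
    refine or_iff_not_imp_left.2 fun c => ?_
    push Not at c
    obtain ⟨j, R, c1, c2⟩ := c
    exact h3 K M ι p q N x y h hd1 i hi j R c1
      ((ev_one (h.na i) (h.triv i) (hx i hi j) R).lt_of_ne c2)
  rcases Nat.eq_zero_or_pos q.leadingCoeff.natDegree with he | he
  · obtain ⟨a, ha⟩ := natDegree_eq_zero.1 he
    have c0 : a ≠ 0 := fun c => a0 (by rw [← ha, c, map_zero])
    have hD : Dn p q = C (a ^ (q.natDegree + 1)) * X ^ 0 := by simp [Dn, ← ha, pow_succ]
    refine rigid_of hA c0 (pow_ne_zero _ c0) (e := 0) (by simp [ha]) hD (Or.inl rfl)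
      fun i hi c => ?_
    have := hI i hi c
    rw [he, hD, natDegree_C_mul_X_pow _ _ (pow_ne_zero _ c0), Nat.cast_zero, zero_mul,
      sub_zero] at this
    have c1 : (A i).natDegree = 0 := by
      have := nonpos_of_mul_nonpos_right this hn
      omega
    simp [c1]
  rcases hdi with ⟨l, hl⟩ | hno
  swap
  · refine (key h (n := q.natDegree - p.natDegree) (e := 0) (a := q.leadingCoeff) (by omega)
      (by simp) (by simpa using isCoprime_one_left) he (Or.inr rfl) fun i => ?_).elim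
    rcases lt_or_ge 1 (N i (x 0)) with c | c
    · exact Or.inl ⟨c, ((L i).1 c).2⟩
    rcases hB i c with c1 | ⟨α, l, c1, -⟩
    · exact Or.inr ⟨c, c1 0 _ a0, by
        simpa using pow_le_one₀ (apply_nonneg _ _) ((L i).2.2 c1)⟩
    · exact absurd c1 (hno α l)
  have l0 : l ≠ 0 := fun c => by
    rw [c, map_zero, zero_mul] at hl
    simp [hl] at hd1
  have x0 : x 0 ≠ 0 := fun c => X_ne_zero (h.trans 0 X (by simpa using c))
  have hp : ∏ i, N i (x 0) = 1 :=
    le_antisymm (h.unit l hl) (by simpa using h.pf 0 (C X) (by simpa using x0))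
  obtain ⟨a, ha, a1⟩ := exists_eq_pow_rootMultiplicity_mul_and_not_dvd _ a0 0
  rw [rootMultiplicity_eq_natTrailingDegree', map_zero, sub_zero] at ha
  rw [map_zero, sub_zero] at a1
  rcases Nat.eq_zero_or_pos a.natDegree with hf | hf
  · obtain ⟨i₁, hi₁⟩ : ∃ i, N i (x 0) < 1 := by
      by_contra c
      push Not at c
      have := Finset.prod_lt_prod (s := Finset.univ) (f := fun _ => (1 : ℝ))
        (g := fun i => N i (x 0)) (fun _ _ => one_pos) (fun i _ => c i) ⟨i₀, Finset.mem_univ _, hi₀⟩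
      simp [hp] at this
    have hZ := ((L i₁).2.1 l hl hi₁).1
    obtain ⟨b, rfl⟩ := natDegree_eq_zero.1 hf
    have b0 : b ≠ 0 := fun c => a1 (by simp [c])
    generalize q.leadingCoeff.natTrailingDegree = e at ha hZ
    rw [mul_comm] at ha
    have hD : Dn p q = C (b ^ (q.natDegree + 1) * l ^ e) *
        X ^ (e * q.natDegree + p.natDegree * e) := by
      rw [Dn, ha]
      generalize p.natDegree = m at hl
      simp only [hl, mul_comp, C_comp, pow_comp, X_comp, map_mul, map_pow]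
      ring
    have k0 : b ^ (q.natDegree + 1) * l ^ e ≠ 0 := by positivity
    refine rigid_of hA b0 k0 ha hD (Or.inr ⟨l, hl⟩) fun i hi c => ?_
    have c1 := hI i hi c
    have c2 := hZ i hi c
    have c3 := natTrailingDegree_le_natDegree (A i)
    rw [ha, hD, natDegree_C_mul_X_pow _ _ k0, natDegree_C_mul_X_pow _ _ b0] at c1
    rw [hD, natTrailingDegree_mul_X_pow (C_ne_zero.2 k0), natTrailingDegree_C, zero_add] at c2
    have c4 := le_of_mul_le_mul_left (c1.trans c2) hn
    refine ⟨by omega, le_antisymm c1 (c2.trans (mul_le_mul_of_nonneg_left (by omega) hn.le))⟩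
  refine (key h (n := q.natDegree - p.natDegree) (by omega) ha
    ((irreducible_X.coprime_iff_not_dvd.2 a1).pow_left) hf (Or.inl hp) fun i => ?_).elim
  rcases lt_trichotomy 1 (N i (x 0)) with c | c | c
  · exact Or.inl ⟨c, ((L i).1 c).2⟩
  swap
  · exact Or.inr ⟨c.le, ev_zero (h.na i) (h.triv i) c fun c' => a1 (X_dvd_iff.2 c'),
      ((L i).2.1 l hl c).2⟩
  rcases hB i c.ge with c1 | ⟨α, l', c1, c2⟩
  · exact Or.inr ⟨c.ge, c1 0 _ (ne_zero_of_natDegree_gt hf), by
      simpa [← c] using pow_le_one₀ (apply_nonneg _ _) ((L i).2.2 c1)⟩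
  refine absurd c2 (not_lt.2 (c.le.trans_eq ?_))
  suffices α = 0 by simp [this]
  have c3 := h.inj 0 1 le_rfl
  rw [Nat.cast_one, h.recx] at c3
  generalize p.natDegree = m at hl c1 hd1
  rw [hl] at c1 c3
  rcases hd1.lt_or_eq with c4 | rfl
  · have := congrArg (fun f => f.derivative.eval α) c1
    simp [derivative_pow, l0, show m - 1 ≠ 0 by omega, show m ≠ 0 by omega] at this
    exact this
  · have := congrArg (eval α) c1
    by_contra c5
    have c6 : l = 1 := mul_right_cancel₀ c5 (by simpa using this)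
    simp [c6] at c3

end Pool.Agent.KSkew
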