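import Mathlib.Tactic.Monotonicity.Lemmas
import Mathlib.Order.Filter.FilterProduct
import Mathlib.Order.Interval.Finset.Box
import Pool.Agent.MP_c8dfda_nt.Core2

/-
Row GS: the limit system on the field of moderate germs.
-/

open Polynomial Filter Height
open scoped Polynomial.Bivariate Topology

namespace Pool.Agent.KSkew

namespace GS

section Places

open AdmissibleAbsValues

variable {K : Type} [Field K] [AdmissibleAbsValues K]

/-- The nonarchimedean places. -/
abbrev NA (K : Type) [Field K] [AdmissibleAbsValues K] : Type := (nonarchAbsVal (K := K))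

/-- The index set of the places that are kept. -/
abbrev Ix (S : Finset (NA K)) : Type := Fin (archAbsVal (K := K)).toList.length ⊕ S

/-- The places that are kept. -/
noncomputable def pl (S : Finset (NA K)) : Ix S → AbsoluteValue K ℝ
  | Sum.inl i => (archAbsVal (K := K)).toList[i.1]
  | Sum.inr v => v.1.1

lemma prod_pl (S : Finset (NA K)) (f : AbsoluteValue K ℝ → ℝ) :
    ∏ i, f (pl S i) = ((archAbsVal (K := K)).map f).prod * ∏ v ∈ S, f v.1 := by
  rw [Fintype.prod_sum_type]
  congr 1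
  · have := Fin.prod_univ_fun_getElem (archAbsVal (K := K)).toList f
    simp only [pl]
    rw [this, ← Multiset.prod_coe, ← Multiset.map_coe, Multiset.coe_toList]
  · simp only [pl]
    exact Finset.prod_coe_sort S fun v => f v.1

lemma fin_max (a : K) : (Function.mulSupport fun v : NA K => max (v.1 a) 1).Finite := by
  by_cases ha : a = 0
  · simp [ha]
  · refine Set.Finite.subset (hasFiniteMulSupport ha) fun v hv => ?_
    intro h
    apply hv
    have h' : v.1 a = 1 := h
    simp [h']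

lemma one_le_arch (a : K) : 1 ≤ ((archAbsVal (K := K)).map fun v => max (v a) 1).prod :=
  Multiset.one_le_prod_map fun _ _ => le_max_right ..

lemma prod_max_le (S : Finset (NA K)) (a : K) : ∏ i, max (pl S i a) 1 ≤ mulHeight₁ a := by
  classical
  rw [prod_pl S fun v => max (v a) 1, mulHeight₁_eq]
  refine mul_le_mul_of_nonneg_left ?_ (zero_le_one.trans (one_le_arch a))
  rw [finprod_eq_prod_of_mulSupport_subset (s := (fin_max a).toFinset ∪ S) _ (by
    intro v hv; simp only [Finset.coe_union, Set.Finite.coe_toFinset]; exact Or.inl hv)]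
  exact Finset.prod_le_prod_of_subset_of_one_le Finset.subset_union_right
    (fun _ _ => by positivity) fun _ _ _ => le_max_right ..

lemma log_le (S : Finset (NA K)) (i : Ix S) (a : K) : Real.log (pl S i a) ≤ logHeight₁ a := by
  have h1 : max (pl S i a) 1 ≤ ∏ i, max (pl S i a) 1 := by
    simpa using Finset.prod_le_prod_of_subset_of_one_le (f := fun i => max (pl S i a) 1)
      (Finset.subset_univ {i}) (fun _ _ => by positivity) fun _ _ _ => le_max_right ..
  by_cases ha : a = 0
  · simp [ha]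
  · exact Real.log_le_log ((pl S i).pos ha)
      ((le_max_left _ _).trans (h1.trans (prod_max_le S a)))

lemma abs_log_le (S : Finset (NA K)) (i : Ix S) (a : K) :
    |Real.log (pl S i a)| ≤ logHeight₁ a := by
  refine abs_le.2 ⟨?_, log_le S i a⟩
  have := log_le S i a⁻¹
  rw [map_inv₀, Real.log_inv, logHeight₁_inv] at this
  linarith

lemma height_le (S : Finset (NA K)) (a : K) (ha : ∀ v : NA K, v ∉ S → v.1 a ≤ 1) :
    logHeight₁ a ≤ ∑ i, max (Real.log (pl S i a)) 0 := by
  have h1 : mulHeight₁ a = ∏ i, max (pl S i a) 1 := by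
    rw [prod_pl S fun v => max (v a) 1, mulHeight₁_eq]
    congr 1
    refine finprod_eq_prod_of_mulSupport_subset _ fun v hv => ?_
    by_contra h
    exact hv (max_eq_right (ha v h))
  rw [logHeight₁_eq_log_mulHeight₁, h1, Real.log_prod fun _ _ => by positivity]
  refine Finset.sum_le_sum fun i _ => ?_
  rcases le_total (pl S i a) 1 with h | h
  · rw [max_eq_right h, Real.log_one]; exact le_max_right ..
  · rw [max_eq_left h]; exact le_max_left ..

lemma pf_loc (S : Finset (NA K)) (B : NA K → ℝ) (hB : (Function.mulSupport B).Finite)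
    (hB1 : ∀ v, 1 ≤ B v) : ∃ C : ℝ, ∀ a : K, a ≠ 0 → (∀ v : NA K, v ∉ S → v.1 a ≤ B v) →
      0 ≤ ∑ i, Real.log (pl S i a) + C := by
  classical
  have hC : (1 : ℝ) ≤ ∏ v ∈ hB.toFinset, B v := by
    simpa using Finset.prod_le_prod (s := hB.toFinset) (f := fun _ => (1 : ℝ))
      (fun _ _ => zero_le_one) fun v _ => hB1 v
  refine ⟨Real.log (∏ v ∈ hB.toFinset, B v), fun a ha h => ?_⟩
  have hp : ∀ i ∈ (Finset.univ : Finset (Ix S)), pl S i a ≠ 0 := fun i _ => ((pl S i).pos ha).ne'
  rw [← Real.log_prod hp, ← Real.log_mul (Finset.prod_ne_zero_iff.2 hp) (by positivity)]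
  refine Real.log_nonneg ?_
  rw [prod_pl S fun v => v a, ← product_formula ha, mul_assoc]
  refine mul_le_mul_of_nonneg_left ?_ (Multiset.prod_nonneg fun b hb => ?_)
  · have hF : (Function.mulSupport fun v : NA K => v.1 a).Finite := hasFiniteMulSupport ha
    set Z := hF.toFinset ∪ S ∪ hB.toFinset with hZ
    have hSZ : S ⊆ Z := fun v hv => by simp [hZ, hv]
    rw [finprod_eq_prod_of_mulSupport_subset (s := Z) _ (by
      intro v hv; simp only [hZ, Finset.coe_union, Set.Finite.coe_toFinset]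
      exact Or.inl (Or.inl hv)), ← Finset.prod_sdiff hSZ, mul_comm]
    refine mul_le_mul_of_nonneg_left ?_ (Finset.prod_nonneg fun v _ => v.1.nonneg a)
    calc ∏ v ∈ Z \ S, v.1 a ≤ ∏ v ∈ Z \ S, B v :=
          Finset.prod_le_prod (fun v _ => v.1.nonneg a) fun v hv => h v (Finset.mem_sdiff.1 hv).2
      _ ≤ ∏ v ∈ Z, B v := Finset.prod_le_prod_of_subset_of_one_le Finset.sdiff_subset
          (fun v _ => zero_le_one.trans (hB1 v)) fun v _ _ => hB1 v
      _ = ∏ v ∈ hB.toFinset, B v := by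
          refine (Finset.prod_subset Finset.subset_union_right fun v _ hv => ?_).symm
          simpa using hv
  · obtain ⟨v, -, rfl⟩ := Multiset.mem_map.1 hb
    exact v.nonneg a

/-- Sequences that are uniformly bounded outside `S`. -/
def bdd (S : Finset (NA K)) : Subalgebra K (ℕ → K) where
  carrier := {s | ∃ B : NA K → ℝ, (Function.mulSupport B).Finite ∧ (∀ v, 1 ≤ B v) ∧
    ∀ n, ∀ v : NA K, v ∉ S → v.1 (s n) ≤ B v}
  mul_mem' := by
    rintro s t ⟨B, h1, h2, h3⟩ ⟨B', h1', h2', h3'⟩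
    refine ⟨fun v => B v * B' v, (h1.union h1').subset (Function.mulSupport_mul B B'),
      fun v => one_le_mul_of_one_le_of_one_le (h2 v) (h2' v), fun n v hv => ?_⟩
    rw [Pi.mul_apply, map_mul]
    exact mul_le_mul (h3 n v hv) (h3' n v hv) (v.1.nonneg _) (zero_le_one.trans (h2 v))
  add_mem' := by
    rintro s t ⟨B, h1, h2, h3⟩ ⟨B', h1', h2', h3'⟩
    refine ⟨fun v => B v * B' v, (h1.union h1').subset (Function.mulSupport_mul B B'),
      fun v => one_le_mul_of_one_le_of_one_le (h2 v) (h2' v), fun n v hv => ?_⟩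
    refine (isNonarchimedean v.1 v.2 (s n) (t n)).trans (max_le ?_ ?_)
    · exact (h3 n v hv).trans (le_mul_of_one_le_right (zero_le_one.trans (h2 v)) (h2' v))
    · exact (h3' n v hv).trans (le_mul_of_one_le_left (zero_le_one.trans (h2' v)) (h2 v))
  algebraMap_mem' c := ⟨fun v => max (v.1 c) 1, fin_max c, fun _ => le_max_right ..,
    fun _ _ _ => le_max_left ..⟩

lemma bdd_evalEval (S : Finset (NA K)) {s t : ℕ → K} (hs : s ∈ bdd S) (ht : t ∈ bdd S)
    (P : K[X][Y]) : (fun n => P.evalEval (s n) (t n)) ∈ bdd S := by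
  have h1 : ∀ R : K[X], (fun n => R.eval (s n)) ∈ bdd S := by
    intro R
    induction R using Polynomial.induction_on' with
    | add a b ha hb => simp only [eval_add]; exact (bdd S).add_mem ha hb
    | monomial n a =>
      simp only [eval_monomial]
      exact (bdd S).mul_mem ((bdd S).algebraMap_mem a) ((bdd S).pow_mem hs n)
  induction P using Polynomial.induction_on' with
  | add a b ha hb => simp only [evalEval_add]; exact (bdd S).add_mem ha hb
  | monomial n a =>
    have := (bdd S).mul_mem (h1 a) ((bdd S).pow_mem ht n)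
    convert this using 2 with m
    simp [← C_mul_X_pow_eq_monomial, evalEval_mul, evalEval_pow, evalEval_C]

/-- The valuation ring of a nonarchimedean place. -/
def vr (v : NA K) : Subring K where
  carrier := {a | v.1 a ≤ 1}
  mul_mem' := fun {a b} ha hb => by
    simpa using mul_le_one₀ (a := v.1 a) ha (v.1.nonneg b) hb
  one_mem' := by simp
  add_mem' := fun {a b} ha hb => (isNonarchimedean v.1 v.2 a b).trans (max_le ha hb)
  zero_mem' := by simp
  neg_mem' := fun {a} ha => by simpa using ha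

omit [AdmissibleAbsValues K] in
lemma eval_mem {O : Subring K} {R : K[X]} (hR : ∀ i, R.coeff i ∈ O) {a : K} (ha : a ∈ O) :
    R.eval a ∈ O := by
  rw [eval_eq_sum_range]
  exact O.sum_mem fun i _ => O.mul_mem (hR i) (O.pow_mem ha i)

omit [AdmissibleAbsValues K] in
lemma evalEval_mem {O : Subring K} {P : K[X][Y]} (hP : ∀ j i, (P.coeff j).coeff i ∈ O) {a b : K}
    (ha : a ∈ O) (hb : b ∈ O) : P.evalEval a b ∈ O := by
  rw [evalEval, eval_eq_sum_range (p := P), eval_finsetSum]
  refine O.sum_mem fun j _ => ?_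
  rw [eval_mul, eval_pow, eval_C]
  exact O.mul_mem (eval_mem (hP j) ha) (O.pow_mem hb j)

lemma exists_S (E : Set K) (hE : E.Finite) :
    ∃ S : Finset (NA K), ∀ v : NA K, v ∉ S → ∀ c ∈ E, c ≠ 0 → v.1 c = 1 := by
  have : (⋃ c ∈ E \ {0}, Function.mulSupport fun v : NA K => v.1 c).Finite :=
    (hE.subset Set.sdiff_subset).biUnion fun c hc => hasFiniteMulSupport hc.2
  refine ⟨this.toFinset, fun v hv c hc h0 => ?_⟩
  by_contra h
  exact hv (this.mem_toFinset.2 (Set.mem_biUnion (x := c) ⟨hc, h0⟩ h))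

end Places

section Germs

variable {K : Type} [Field K] [AdmissibleAbsValues K] (U : Ultrafilter ℕ) (H : ℕ → ℝ)

/-- Sequences whose height is at most a multiple of `H`. -/
def Mod (s : ℕ → K) : Prop := ∃ c : ℝ, ∀ᶠ n in (U : Filter ℕ), logHeight₁ (s n) ≤ c * H n

variable {H} (hH : ∀ n, 1 ≤ H n)

include hH in
lemma mod_const (a : K) : Mod U H fun _ => a :=
  ⟨logHeight₁ a, Eventually.of_forall fun n =>
    le_mul_of_one_le_right (zero_le_logHeight₁ a) (hH n)⟩

/-- The field of moderate germs. -/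
def MF (K : Type) [Field K] [AdmissibleAbsValues K] (U : Ultrafilter ℕ) {H : ℕ → ℝ}
    (hH : ∀ n, 1 ≤ H n) : Subfield (Germ (U : Filter ℕ) K) where
  carrier := {g | ∃ s : ℕ → K, (s : Germ (U : Filter ℕ) K) = g ∧ Mod U H s}
  mul_mem' := by
    rintro _ _ ⟨s, rfl, c, hs⟩ ⟨t, rfl, c', ht⟩
    refine ⟨s * t, rfl, c + c', ?_⟩
    filter_upwards [hs, ht] with n h1 h2
    have := logHeight₁_mul_le (s n) (t n)
    rw [Pi.mul_apply]; linarith
  one_mem' := ⟨fun _ => 1, rfl, mod_const U hH 1⟩
  add_mem' := by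
    rintro _ _ ⟨s, rfl, c, hs⟩ ⟨t, rfl, c', ht⟩
    refine ⟨s + t, rfl, totalWeight K * Real.log 2 + c + c', ?_⟩
    filter_upwards [hs, ht] with n h1 h2
    have := logHeight₁_add_le (s n) (t n)
    have h3 : (totalWeight K : ℝ) * Real.log 2 ≤ totalWeight K * Real.log 2 * H n :=
      le_mul_of_one_le_right (by positivity) (hH n)
    rw [Pi.add_apply]; linarith
  zero_mem' := ⟨fun _ => 0, rfl, mod_const U hH 0⟩
  neg_mem' := by
    rintro _ ⟨s, rfl, c, hs⟩
    exact ⟨-s, rfl, c, by simpa using hs⟩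
  inv_mem' := by
    rintro _ ⟨s, rfl, c, hs⟩
    exact ⟨s⁻¹, rfl, c, by simpa only [Pi.inv_apply, logHeight₁_inv] using hs⟩

/-- Constants. -/
def cst : K →+* MF K U hH :=
  RingHom.codRestrict ((Germ.coeRingHom (U : Filter ℕ)).comp (Pi.constRingHom ℕ K)) (MF K U hH)
    fun a => ⟨fun _ => a, rfl, mod_const U hH a⟩

noncomputable instance : Algebra K (MF K U hH) := (cst U hH).toAlgebra

variable {U hH}

/-- `s` represents `g`. -/
def Rep (g : MF K U hH) (s : ℕ → K) : Prop := (s : Germ (U : Filter ℕ) K) = g.1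

lemma rep_const (a : K) : Rep (algebraMap K (MF K U hH) a) fun _ => a := rfl

lemma Rep.add {g g' : MF K U hH} {s t : ℕ → K} (h : Rep g s) (h' : Rep g' t) :
    Rep (g + g') fun n => s n + t n := by
  unfold Rep at *
  rw [Subfield.coe_add, ← h, ← h']; rfl

lemma Rep.mul {g g' : MF K U hH} {s t : ℕ → K} (h : Rep g s) (h' : Rep g' t) :
    Rep (g * g') fun n => s n * t n := by
  unfold Rep at *
  rw [Subfield.coe_mul, ← h, ← h']; rfl

lemma Rep.pow {g : MF K U hH} {s : ℕ → K} (h : Rep g s) (k : ℕ) :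
    Rep (g ^ k) fun n => s n ^ k := by
  induction k with
  | zero => simpa using rep_const (U := U) (hH := hH) (1 : K)
  | succ k ih => simpa only [pow_succ] using ih.mul h

lemma Rep.ae {g : MF K U hH} {s : ℕ → K} (h : Rep g s) (R : K[X]) :
    Rep (aeval g R) fun n => R.eval (s n) := by
  induction R using Polynomial.induction_on' with
  | add a b ha hb => simpa only [map_add, eval_add] using ha.add hb
  | monomial k a => simpa only [aeval_monomial, eval_monomial] using (rep_const a).mul (h.pow k)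

lemma Rep.ae2 {g g' : MF K U hH} {s t : ℕ → K} (h : Rep g s) (h' : Rep g' t) (P : K[X][Y]) :
    Rep (aevalAeval g g' P) fun n => P.evalEval (s n) (t n) := by
  induction P using Polynomial.induction_on' with
  | add a b ha hb => simpa only [map_add, evalEval_add] using ha.add hb
  | monomial k a =>
    have := (h.ae a).mul (h'.pow k)
    simpa only [← C_mul_X_pow_eq_monomial, map_mul, map_pow, aevalAeval_C, aevalAeval_Y,
      evalEval_mul, evalEval_pow, evalEval_C, evalEval_X] using this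

lemma Rep.eq_iff {g g' : MF K U hH} {s t : ℕ → K} (h : Rep g s) (h' : Rep g' t) :
    g = g' ↔ ∀ᶠ n in (U : Filter ℕ), s n = t n := by
  unfold Rep at *
  rw [Subtype.ext_iff, ← h, ← h']
  exact Germ.coe_eq

lemma Rep.zero_iff {g : MF K U hH} {s : ℕ → K} (h : Rep g s) :
    g = 0 ↔ ∀ᶠ n in (U : Filter ℕ), s n = 0 :=
  h.eq_iff (t := fun _ => 0) rfl

lemma Rep.ne {g : MF K U hH} {s : ℕ → K} (h : Rep g s) (hg : g ≠ 0) :
    ∀ᶠ n in (U : Filter ℕ), s n ≠ 0 :=
  Ultrafilter.eventually_not.2 fun h0 => hg (h.zero_iff.2 h0)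

lemma exists_rep (g : MF K U hH) : ∃ s, Rep g s := ⟨g.2.choose, g.2.choose_spec.1⟩

variable {v : AbsoluteValue K ℝ}

/-- The normalised limit of the logarithm of the absolute value. -/
noncomputable def ell (v : AbsoluteValue K ℝ) (g : MF K U hH) : ℝ :=
  limUnder (U : Filter ℕ) fun n => Real.log (v (g.2.choose n)) / H n

lemma Rep.tend (hv : ∀ a, |Real.log (v a)| ≤ logHeight₁ a) {g : MF K U hH} {s : ℕ → K}
    (h : Rep g s) : Tendsto (fun n => Real.log (v (s n)) / H n) U (𝓝 (ell v g)) := by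
  obtain ⟨h0, c, hc⟩ := g.2.choose_spec
  have h1 : ∃ L, Tendsto (fun n => Real.log (v (g.2.choose n)) / H n) U (𝓝 L) := by
    obtain ⟨L, -, hL⟩ := (isCompact_Icc (a := -c) (b := c)).ultrafilter_le_nhds
      (U.map fun n => Real.log (v (g.2.choose n)) / H n) (by
        rw [le_principal_iff]
        change ∀ᶠ n in (U : Filter ℕ), -c ≤ Real.log (v (g.2.choose n)) / H n ∧
          Real.log (v (g.2.choose n)) / H n ≤ c
        filter_upwards [hc] with n hn
        have hp : 0 < H n := zero_lt_one.trans_le (hH n)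
        refine abs_le.1 ?_
        rw [abs_div, abs_of_pos hp, div_le_iff₀ hp]
        exact (hv _).trans hn)
    exact ⟨L, hL⟩
  refine (tendsto_nhds_limUnder h1).congr' ?_
  filter_upwards [(Rep.eq_iff (g := g) h0 h).1 rfl] with n hn
  rw [hn]

variable (hv : ∀ a, |Real.log (v a)| ≤ logHeight₁ a) (hT : Tendsto H U atTop)

include hv in
lemma ell_mul {g g' : MF K U hH} (hg : g ≠ 0) (hg' : g' ≠ 0) :
    ell v (g * g') = ell v g + ell v g' := by
  obtain ⟨s, hs⟩ := exists_rep g
  obtain ⟨t, ht⟩ := exists_rep g'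
  refine tendsto_nhds_unique ((hs.mul ht).tend hv) (((hs.tend hv).add (ht.tend hv)).congr' ?_)
  filter_upwards [hs.ne hg, ht.ne hg'] with n h1 h2
  rw [map_mul, Real.log_mul (v.pos h1).ne' (v.pos h2).ne', add_div]

include hv hT in
lemma ell_add {g g' : MF K U hH} (hg : g ≠ 0) (hg' : g' ≠ 0) (h : g + g' ≠ 0) :
    ell v (g + g') ≤ max (ell v g) (ell v g') := by
  obtain ⟨s, hs⟩ := exists_rep g
  obtain ⟨t, ht⟩ := exists_rep g'
  have h0 : Tendsto (fun n => Real.log 2 / H n) U (𝓝 0) := hT.const_div_atTop _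
  have := h0.add ((hs.tend hv).max (ht.tend hv))
  rw [zero_add] at this
  refine le_of_tendsto_of_tendsto ((hs.add ht).tend hv) this ?_
  filter_upwards [hs.ne hg, ht.ne hg', (hs.add ht).ne h] with n h1 h2 h3
  have hp : 0 < H n := zero_lt_one.trans_le (hH n)
  rw [max_div_div_right hp.le, ← add_div]
  refine div_le_div_of_nonneg_right ?_ hp.le
  have h4 := v.add_le (s n) (t n)
  rcases le_total (v (s n)) (v (t n)) with h5 | h5
  · refine le_trans ?_ (add_le_add_right (le_max_right _ _) _)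
    rw [← Real.log_mul two_ne_zero (v.pos h2).ne']
    exact Real.log_le_log (v.pos h3) (by linarith)
  · refine le_trans ?_ (add_le_add_right (le_max_left _ _) _)
    rw [← Real.log_mul two_ne_zero (v.pos h1).ne']
    exact Real.log_le_log (v.pos h3) (by linarith)

open Classical in
/-- The limit absolute value as a function. -/
noncomputable def nf (v : AbsoluteValue K ℝ) (g : MF K U hH) : ℝ :=
  if g = 0 then 0 else Real.exp (ell v g)

lemma nf_nonneg (g : MF K U hH) : 0 ≤ nf v g := by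
  unfold nf; split_ifs <;> positivity

lemma nf_ne {g : MF K U hH} (hg : g ≠ 0) : nf v g = Real.exp (ell v g) := if_neg hg

lemma nf_zero : nf v (0 : MF K U hH) = 0 := if_pos rfl

include hv hT in
lemma nf_add (g g' : MF K U hH) : nf v (g + g') ≤ max (nf v g) (nf v g') := by
  by_cases h : g + g' = 0
  · rw [h, nf_zero]; exact (nf_nonneg g).trans (le_max_left ..)
  by_cases hg : g = 0
  · rw [hg, zero_add]; exact le_max_right ..
  by_cases hg' : g' = 0
  · rw [hg', add_zero]; exact le_max_left ..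
  rw [nf_ne h, nf_ne hg, nf_ne hg', ← Real.exp_monotone.map_max]
  exact Real.exp_le_exp.2 (ell_add hv hT hg hg' h)

/-- The limit absolute value. -/
noncomputable def NV : AbsoluteValue (MF K U hH) ℝ where
  toFun := nf v
  map_mul' g g' := by
    by_cases hg : g = 0
    · simp [hg, nf_zero]
    by_cases hg' : g' = 0
    · simp [hg', nf_zero]
    rw [nf_ne hg, nf_ne hg', nf_ne (mul_ne_zero hg hg'), ell_mul hv hg hg', Real.exp_add]
  nonneg' := nf_nonneg
  eq_zero' g := ⟨fun h => by
    by_contra hg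
    exact (Real.exp_pos _).ne' ((nf_ne hg).symm.trans h), fun h => by rw [h]; exact nf_zero⟩
  add_le' g g' := (nf_add hv hT g g').trans (max_le_add_of_nonneg (nf_nonneg _) (nf_nonneg _))

lemma NV_ne {g : MF K U hH} (hg : g ≠ 0) : NV hv hT g = Real.exp (ell v g) := nf_ne hg

end Germs

lemma up_iter {H : ℕ → ℝ} {d c : ℝ} (hd : 0 ≤ d) (h : ∀ n, H (n + 1) ≤ d * H n + c) (j : ℕ) :
    ∃ e : ℝ, ∀ n, H (n + j) ≤ d ^ j * H n + e := by
  induction j with
  | zero => exact ⟨0, fun n => by simp⟩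
  | succ j ih =>
    obtain ⟨e, he⟩ := ih
    refine ⟨d * e + c, fun n => ?_⟩
    have h1 := h (n + j)
    have h2 := mul_le_mul_of_nonneg_left (he n) hd
    rw [← add_assoc, pow_succ]
    nlinarith

lemma down_iter {H : ℕ → ℝ} {c : ℝ} (h : ∀ n, H n ≤ H (n + 1) + c) (j n : ℕ) :
    H n ≤ H (n + j) + c * j := by
  induction j with
  | zero => simp
  | succ j ih =>
    have := h (n + j)
    rw [← add_assoc]; push_cast; linarith

lemma shift_bound {H : ℕ → ℝ} {d c : ℝ} (hH : ∀ n, 1 ≤ H n) (hd : 0 ≤ d)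
    (h : ∀ n, H (n + 1) ≤ d * H n + c) (h' : ∀ n, H n ≤ H (n + 1) + c) (j : ℤ) :
    ∃ C : ℝ, ∀ᶠ n : ℕ in atTop, H ((n : ℤ) + j).toNat ≤ C * H n := by
  rcases Int.eq_nat_or_neg j with ⟨k, rfl | rfl⟩
  · obtain ⟨e, he⟩ := up_iter hd h k
    refine ⟨d ^ k + |e|, Eventually.of_forall fun n => ?_⟩
    have h1 : ((n : ℤ) + k).toNat = n + k := by omega
    have h2 : |e| ≤ |e| * H n := le_mul_of_one_le_right (abs_nonneg e) (hH n)
    have := he n
    have := le_abs_self e
    rw [h1]; linarith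
  · refine ⟨1 + |c * k|, ?_⟩
    filter_upwards [eventually_ge_atTop k] with n hn
    have h1 := down_iter h' k ((n : ℤ) + -(k : ℤ)).toNat
    have h2 : ((n : ℤ) + -(k : ℤ)).toNat + k = n := by omega
    have h3 : |c * k| ≤ |c * k| * H n := le_mul_of_one_le_right (abs_nonneg _) (hH n)
    have := le_abs_self (c * k)
    rw [h2] at h1; linarith

lemma shift_tend (j : ℤ) : Tendsto (fun n : ℕ => ((n : ℤ) + j).toNat) atTop atTop :=
  tendsto_atTop_atTop.2 fun b => ⟨b + j.natAbs, fun n hn => by omega⟩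

lemma sum_lim {ι : Type} [Fintype ι] {U : Ultrafilter ℕ} {H : ℕ → ℝ} (hH : ∀ n, 1 ≤ H n)
    (hT : Tendsto H U atTop) {f : ι → ℕ → ℝ} {L : ι → ℝ} {C : ℝ}
    (hf : ∀ i, Tendsto (fun n => f i n / H n) U (𝓝 (L i)))
    (h : ∀ᶠ n in (U : Filter ℕ), 0 ≤ ∑ i, f i n + C) : 0 ≤ ∑ i, L i := by
  have h1 := (tendsto_finsetSum Finset.univ fun i _ => hf i).add (hT.const_div_atTop C)
  rw [add_zero] at h1
  refine ge_of_tendsto h1 ?_
  filter_upwards [h] with n hn
  rw [← Finset.sum_div, ← add_div]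
  exact div_nonneg hn (zero_le_one.trans (hH n))

end GS

open GS in
theorem gs (h1 : S_UF) (h2 : S_INJ) (h3 : S_WDML) (h4 : S_HQ) : S_GS := by
  intro K _ _ p q x y ho hz hd ⟨cy, hcy⟩
  classical
  obtain ⟨U, hU⟩ := h1
  have hinj := h2 K p q x y ho hz
  set H : ℕ → ℝ := fun n => logHeight₁ (x n) + 1 with hHdef
  have hH : ∀ n, 1 ≤ H n := fun n => le_add_of_nonneg_left (zero_le_logHeight₁ _)
  have hHp : ∀ n, 0 < H n := fun n => zero_lt_one.trans_le (hH n)
  have hp0 : p ≠ 0 := by rintro rfl; simp at hd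
  have hd1 : (1 : ℝ) ≤ p.natDegree := by exact_mod_cast hd
  obtain ⟨c, hup, hdown⟩ : ∃ c : ℝ, (∀ n, H (n + 1) ≤ p.natDegree * H n + c) ∧
      ∀ n, H n ≤ H (n + 1) + c := by
    obtain ⟨c, hc, h⟩ := h4 K (p.map C)
    have hn : (p.map (C : K →+* K[X])).natDegree = p.natDegree :=
      natDegree_map_eq_of_injective C_injective p
    have hl : ((p.map (C : K →+* K[X])).leadingCoeff).eval 0 ≠ 0 := by
      rw [leadingCoeff_map_of_injective C_injective, eval_C]
      exact leadingCoeff_ne_zero.2 hp0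
    refine ⟨c, fun n => ?_, fun n => ?_⟩
    · have := (h 0 (x n)).1
      rw [evalEval_map_C, ← ho.1, hn, logHeight₁_zero] at this
      simp only [hHdef]; nlinarith
    · have := (h 0 (x n)).2 hl
      rw [evalEval_map_C, ← ho.1, hn, logHeight₁_zero] at this
      have h0 := zero_le_logHeight₁ (x n)
      simp only [hHdef]; nlinarith
  have hT : Tendsto H U atTop := by
    refine Tendsto.mono_left (tendsto_atTop.2 fun b => ?_) hU.1
    have hf := (NumberField.finite_setOfPred_logHeight₁_le K b).preimage hinj.injOn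
    rw [← Nat.cofinite_eq_atTop]
    filter_upwards [hf.compl_mem_cofinite] with n hn
    have : b < logHeight₁ (x n) := not_le.1 hn
    simp only [hHdef]; linarith
  obtain ⟨S, hS⟩ := exists_S (K := K) (Set.range p.coeff ∪ (⋃ r ∈ Set.range q.coeff,
    Set.range r.coeff) ∪ {x 0, y 0}) ((p.finite_range_coeff.union
      (q.finite_range_coeff.biUnion fun r _ => r.finite_range_coeff)).union (Set.toFinite _))
  have hS1 : ∀ v : NA K, v ∉ S → ∀ a ∈ Set.range p.coeff ∪ (⋃ r ∈ Set.range q.coeff,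
      Set.range r.coeff) ∪ {x 0, y 0}, a ∈ vr v := by
    intro v hv a ha
    by_cases h0 : a = 0
    · rw [h0]; exact zero_mem _
    · exact (hS v hv a ha h0).le
  have hint : ∀ v : NA K, v ∉ S → ∀ n, x n ∈ vr v ∧ y n ∈ vr v := by
    intro v hv n
    induction n with
    | zero => exact ⟨hS1 v hv _ (by simp), hS1 v hv _ (by simp)⟩
    | succ n ih =>
      rw [ho.1, ho.2]
      exact ⟨eval_mem (fun i => hS1 v hv _ (Or.inl (Or.inl ⟨i, rfl⟩))) ih.1,
        evalEval_mem (fun j i => hS1 v hv _ (Or.inl (Or.inr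
          (Set.mem_biUnion (x := q.coeff j) ⟨j, rfl⟩ ⟨i, rfl⟩)))) ih.1 ih.2⟩
  have hy' : ∀ n, logHeight₁ (y n) ≤ |cy| * H n := fun n =>
    (hcy n).trans (mul_le_mul_of_nonneg_right (le_abs_self cy) (hHp n).le)
  have hmx : ∀ j : ℤ, Mod U H fun n => x ((n : ℤ) + j).toNat := by
    intro j
    obtain ⟨C, hC⟩ := shift_bound hH (zero_le_one.trans hd1) hup hdown j
    refine ⟨C, ?_⟩
    filter_upwards [hU.1 hC] with n hn
    have : H ((n : ℤ) + j).toNat ≤ C * H n := hn
    simp only [hHdef] at this ⊢; linarith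
  have hmy : ∀ j : ℤ, Mod U H fun n => y ((n : ℤ) + j).toNat := by
    intro j
    obtain ⟨C, hC⟩ := shift_bound hH (zero_le_one.trans hd1) hup hdown j
    refine ⟨|cy| * C, ?_⟩
    filter_upwards [hU.1 hC] with n hn
    rw [mul_assoc]
    exact (hy' _).trans (mul_le_mul_of_nonneg_left hn (abs_nonneg cy))
  let x' : ℤ → MF K U hH := fun j => ⟨_, _, rfl, hmx j⟩
  let y' : ℤ → MF K U hH := fun j => ⟨_, _, rfl, hmy j⟩
  have rx : ∀ j, Rep (x' j) fun n => x ((n : ℤ) + j).toNat := fun j => rfl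
  have ry : ∀ j, Rep (y' j) fun n => y ((n : ℤ) + j).toNat := fun j => rfl
  have rx0 : Rep (x' 0) x := by simpa using rx 0
  have hv := abs_log_le S
  have hev : ∀ j : ℤ, ∀ᶠ n : ℕ in (U : Filter ℕ), 0 ≤ (n : ℤ) + j := fun j =>
    hU.1 ((eventually_ge_atTop j.natAbs).mono fun n hn => by omega)
  have htr : ∀ j (R : K[X]), aeval (x' j) R = 0 → R = 0 := by
    intro j R hR
    by_contra h0
    have hf : (x ⁻¹' {a | R.IsRoot a}).Finite := (finite_setOfPred_isRoot h0).preimage hinj.injOn
    have h5 : ∀ᶠ m in atTop, R.eval (x m) ≠ 0 := by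
      rw [← Nat.cofinite_eq_atTop]; exact hf.compl_mem_cofinite
    obtain ⟨n, h6, h7⟩ := ((((rx j).ae R).zero_iff.1 hR).and
      (((shift_tend j).mono_left hU.1).eventually h5)).exists
    exact h7 h6
  have hx0 : x' 0 ≠ 0 := fun h => X_ne_zero (htr 0 X (by simpa using h))
  have hprod : ∀ g : MF K U hH, g ≠ 0 →
      ∏ i, NV (hv i) hT g = Real.exp (∑ i, ell (pl S i) g) := by
    intro g hg
    rw [Real.exp_sum]
    exact Finset.prod_congr rfl fun i _ => NV_ne _ _ hg
  refine ⟨MF K U hH, inferInstance, inferInstance, Ix S, inferInstance,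
    fun i => NV (hv i) hT, x', y', ?_⟩
  refine ⟨fun i => nf_add (hv i) hT, fun i a ha => ?_, fun j => ?_, fun j => ?_, fun P hP => ?_,
    htr, fun j P hP => ?_, fun l hl => ?_, ⟨|cy|, fun i j => ?_⟩, ?_, fun i j R hR => ?_,
    fun j h hh he => ?_⟩
  · rw [NV_ne _ _ ((_root_.map_ne_zero _).2 ha),
      tendsto_nhds_unique ((rep_const a).tend (hv i)) (hT.const_div_atTop _), Real.exp_zero]
  · refine ((rx (j + 1)).eq_iff ((rx j).ae p)).2 ?_
    filter_upwards [hev j] with n hn
    rw [← ho.1]; congr 1; omega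
  · refine ((ry (j + 1)).eq_iff ((rx j).ae2 (ry j) q)).2 ?_
    filter_upwards [hev j] with n hn
    rw [← ho.2]; congr 1; omega
  · exact h3 K p q x y U ho hz hU P (by simpa using ((rx 0).ae2 (ry 0) P).zero_iff.1 hP)
  · have hr := (rx j).ae2 (ry j) P
    obtain ⟨B, hB, hB1, hB2⟩ := bdd_evalEval S (s := fun n : ℕ => x ((n : ℤ) + j).toNat)
      (t := fun n : ℕ => y ((n : ℤ) + j).toNat)
      ⟨fun _ => 1, by simp, fun _ => le_rfl, fun n v h => (hint v h _).1⟩
      ⟨fun _ => 1, by simp, fun _ => le_rfl, fun n v h => (hint v h _).2⟩ P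
    obtain ⟨C, hC⟩ := pf_loc S B hB hB1
    rw [hprod _ hP]
    exact Real.one_le_exp (sum_lim hH hT (fun i => hr.tend (hv i))
      ((hr.ne hP).mono fun n hn => hC _ hn (hB2 n)))
  · have hl0 : l ≠ 0 := by rintro rfl; exact hp0 (by simpa using hl)
    have hstep : ∀ n, x (n + 1) = l * x n ^ p.natDegree := fun n => by
      rw [ho.1]; conv_lhs => rw [hl]
      simp
    have h00 : x 0 ≠ 0 := fun h => by
      have := hstep 0
      rw [h, zero_pow (by omega), mul_zero, ← h] at this
      exact one_ne_zero (hinj this)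
    have hu : ∀ v : NA K, v ∉ S → ∀ n, v.1 (x n) = 1 := by
      intro v h n
      have hlv : v.1 l = 1 := hS v h l (Or.inl (Or.inl ⟨p.natDegree, by
        conv_lhs => rw [hl]
        simp⟩)) hl0
      induction n with
      | zero => exact hS v h _ (by simp) h00
      | succ n ih => rw [hstep, map_mul, map_pow, hlv, ih, one_pow, one_mul]
    obtain ⟨C, hC⟩ := pf_loc S (fun _ => 1) (by simp) fun _ => le_rfl
    rw [hprod _ hx0, Real.exp_le_one_iff, ← neg_nonneg, ← Finset.sum_neg_distrib]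
    refine sum_lim (C := C) (f := fun i n => -Real.log (pl S i (x n))) hH hT
      (fun i => by simpa only [neg_div] using (rx0.tend (hv i)).neg) ?_
    filter_upwards [rx0.ne hx0] with n hn
    simpa only [map_inv₀, Real.log_inv] using
      hC (x n)⁻¹ (inv_ne_zero hn) fun v h => by rw [map_inv₀, hu v h n, inv_one]
  · by_cases h0 : y' j = 0
    · rw [h0, map_zero]; positivity
    rw [NV_ne _ _ h0, Real.exp_le_exp]
    obtain ⟨e, he⟩ := up_iter (zero_le_one.trans hd1) hup j
    have h5 := (hT.const_div_atTop (|cy| * e)).const_add (|cy| * (p.natDegree : ℝ) ^ j)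
    rw [add_zero] at h5
    refine le_of_tendsto_of_tendsto' ((ry j).tend (hv i)) h5 fun n => ?_
    have h6 : ((n : ℤ) + j).toNat = n + j := by omega
    have h7 := (log_le S i (y (n + j))).trans
      ((hy' _).trans (mul_le_mul_of_nonneg_left (he n) (abs_nonneg cy)))
    rw [h6, div_le_iff₀ (hHp n), add_mul, div_mul_cancel₀ _ (hHp n).ne']
    linarith
  · by_contra hb
    have h5 : ∀ i, ell (pl S i) (x' 0) ≤ 0 := fun i => by
      have := not_lt.1 (not_exists.1 hb i)
      rwa [NV_ne _ _ hx0, Real.exp_le_one_iff] at this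
    have h6 : ∀ i, Tendsto (fun n => max (Real.log (pl S i (x n))) 0 / H n) U (𝓝 0) := fun i => by
      have := (rx0.tend (hv i)).max (tendsto_const_nhds (x := (0 : ℝ)))
      rw [max_eq_right (h5 i)] at this
      refine this.congr fun n => ?_
      rw [← max_div_div_right (hHp n).le, zero_div]
    have h7 := (tendsto_finsetSum Finset.univ fun i _ => h6 i).add (hT.const_div_atTop 1)
    rw [add_zero, Finset.sum_const_zero] at h7
    refine absurd (ge_of_tendsto' h7 (b := 1) fun n => ?_) (by norm_num)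
    rw [← Finset.sum_div, ← add_div, le_div_iff₀ (hHp n), one_mul]
    exact add_le_add_left (height_le S _ fun v h => (hint v h n).1) _
  · by_cases h0 : R = 0
    · exact ⟨1, le_rfl, by simp [h0]⟩
    have hne : ∀ j, aeval (x' j) R ≠ 0 := fun j h => h0 (htr j R h)
    rw [NV_ne _ _ (hne j), Real.exp_lt_one_iff] at hR
    set t := ell (pl S i) (aeval (x' j) R) with ht
    obtain ⟨h, hh, hA⟩ := hU.2 _ ((((rx j).ae R).tend (hv i)).eventually_lt_const
      (u := t / 2) (by linarith))
    refine ⟨h, hh, ?_⟩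
    rw [NV_ne _ _ (hne _), Real.exp_lt_one_iff]
    have h5 := (hT.const_div_atTop (-(t / 2) * (c * h))).const_add (t / 2)
    rw [add_zero] at h5
    refine (le_of_tendsto_of_tendsto (((rx (j + h)).ae R).tend (hv i)) h5 ?_).trans_lt
      (by linarith)
    filter_upwards [hA] with n hn
    have h6 : ((n : ℤ) + (j + h)).toNat = (((n + h : ℕ) : ℤ) + j).toNat := by omega
    have h7 := (div_lt_iff₀ (hHp _)).1 hn
    have h8 := down_iter hdown h n
    rw [h6, div_le_iff₀ (hHp n), add_mul, div_mul_cancel₀ _ (hHp n).ne']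
    nlinarith
  · obtain ⟨n, h5, h6⟩ := ((((rx (j + h)).eq_iff (rx j)).1 he).and (hev j)).exists
    have := hinj h5
    omega

end Pool.Agent.KSkew
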