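import Mathlib.RingTheory.PiTensorProduct
import Pool.Agent.MP_c8dfda_nt.Core2

/-
Row HQ: two sided height bounds for the value of a polynomial in two variables.
-/

open Polynomial Filter Height
open scoped Polynomial.Bivariate Topology

namespace Pool.Agent.KSkew

namespace HQ

section Loc

variable {K : Type} [Field K]

theorem one_le_pm (v : AbsoluteValue K ℝ) (s : Finset ℕ) (c : ℕ → K) :
    1 ≤ ∏ j ∈ s, max (v (c j)) 1 :=
  Finset.one_le_prod fun _ _ => le_max_right _ _

theorem le_pm (v : AbsoluteValue K ℝ) (s : Finset ℕ) (c : ℕ → K) {j : ℕ} (hj : j ∈ s) :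
    v (c j) ≤ ∏ j ∈ s, max (v (c j)) 1 :=
  Finset.le_prod_max_one hj fun i => v (c i)

theorem max_pow (v : AbsoluteValue K ℝ) (b : K) (d : ℕ) :
    max (v (b ^ d)) 1 = (max (v b) 1) ^ d := by
  rw [map_pow]
  rcases le_total (v b) 1 with h | h
  · rw [max_eq_right h, one_pow, max_eq_right (pow_le_one₀ (v.nonneg b) h)]
  · rw [max_eq_left h, max_eq_left (one_le_pow₀ h)]

theorem term_le (v : AbsoluteValue K ℝ) (n d : ℕ) (c : ℕ → K) (b : K) {j : ℕ}
    (hj : j ∈ Finset.range n) (hjd : j ≤ d) :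
    v (c j * b ^ j) ≤ (∏ j ∈ Finset.range n, max (v (c j)) 1) * (max (v b) 1) ^ d := by
  rw [map_mul, map_pow]
  refine mul_le_mul (le_pm v _ c hj) ?_ (pow_nonneg (v.nonneg b) _)
    (zero_le_one.trans (one_le_pm v _ c))
  exact (pow_le_pow_left₀ (v.nonneg b) (le_max_left _ _) j).trans
    (pow_le_pow_right₀ (le_max_right _ _) hjd)

theorem sum_le_arch (v : AbsoluteValue K ℝ) (n d : ℕ) (hn : n ≤ d + 1) (c : ℕ → K) (b : K) :
    v (∑ j ∈ Finset.range n, c j * b ^ j) ≤
      n * ((∏ j ∈ Finset.range n, max (v (c j)) 1) * (max (v b) 1) ^ d) := by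
  refine (v.sum_le _ _).trans ?_
  refine (Finset.sum_le_card_nsmul _ _ _ fun j hj => term_le v n d c b hj ?_).trans ?_
  · have := Finset.mem_range.mp hj
    omega
  · simp

theorem sum_le_na (v : AbsoluteValue K ℝ) (hv : IsNonarchimedean v) (n d : ℕ) (hn : n ≤ d + 1)
    (c : ℕ → K) (b : K) :
    v (∑ j ∈ Finset.range n, c j * b ^ j) ≤
      (∏ j ∈ Finset.range n, max (v (c j)) 1) * (max (v b) 1) ^ d := by
  have h0 : 0 ≤ (∏ j ∈ Finset.range n, max (v (c j)) 1) * (max (v b) 1) ^ d :=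
    mul_nonneg (zero_le_one.trans (one_le_pm v _ c))
      (pow_nonneg (zero_le_one.trans (le_max_right _ _)) _)
  rcases (Finset.range n).eq_empty_or_nonempty with h | h
  · rw [h] at h0 ⊢
    simpa using h0
  refine (hv.apply_sum_le_sup h).trans ?_
  refine Finset.sup'_le h _ fun j hj => term_le v n d c b hj ?_
  have := Finset.mem_range.mp hj
  omega

theorem low_arch (v : AbsoluteValue K ℝ) (e : ℕ) (c : ℕ → K) (b u : K)
    (h : b ^ (e + 1) + ∑ j ∈ Finset.range (e + 1), c j * b ^ j = u) :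
    (max (v b) 1) ^ (e + 1) ≤ (2 * ((e : ℝ) + 1)) ^ (e + 1) *
      ((∏ j ∈ Finset.range (e + 1), max (v (c j)) 1) ^ (e + 1) * max (v u) 1) := by
  set M := ∏ j ∈ Finset.range (e + 1), max (v (c j)) 1 with hM
  have hM1 : 1 ≤ M := one_le_pm v _ c
  have he : (0 : ℝ) ≤ e := Nat.cast_nonneg e
  have ht : (2 : ℝ) ≤ 2 * ((e : ℝ) + 1) := by linarith
  have hu : 1 ≤ max (v u) 1 := le_max_right _ _
  have htM : 1 ≤ 2 * ((e : ℝ) + 1) * M := by nlinarith
  by_cases hb : v b ≤ 2 * ((e : ℝ) + 1) * M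
  · have h1 : max (v b) 1 ≤ 2 * ((e : ℝ) + 1) * M := max_le hb htM
    calc (max (v b) 1) ^ (e + 1) ≤ (2 * ((e : ℝ) + 1) * M) ^ (e + 1) :=
          pow_le_pow_left₀ (zero_le_one.trans (le_max_right _ _)) h1 _
      _ = (2 * ((e : ℝ) + 1)) ^ (e + 1) * (M ^ (e + 1) * 1) := by rw [mul_pow, mul_one]
      _ ≤ _ := by gcongr
  · have hb' : 2 * ((e : ℝ) + 1) * M < v b := lt_of_not_ge hb
    have hb1 : 1 ≤ v b := htM.trans hb'.le
    have hs := sum_le_arch v (e + 1) e le_rfl c b
    rw [← hM, max_eq_left hb1] at hs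
    rw [max_eq_left hb1]
    have hp : 0 ≤ v b ^ e := pow_nonneg (v.nonneg b) _
    have h2 : v (b ^ (e + 1)) ≤ v u + v (∑ j ∈ Finset.range (e + 1), c j * b ^ j) := by
      have : b ^ (e + 1) = u - ∑ j ∈ Finset.range (e + 1), c j * b ^ j := by
        rw [← h]; ring
      rw [this]
      exact v.sub_le_add _ _
    rw [map_pow] at h2
    push_cast at hs
    have h3 : 2 * (((e : ℝ) + 1) * (M * v b ^ e)) ≤ v b ^ (e + 1) := by
      rw [pow_succ]
      nlinarith [mul_le_mul_of_nonneg_left hb'.le hp]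
    have h4 : v b ^ (e + 1) ≤ 2 * max (v u) 1 := by
      have := le_max_left (v u) 1
      linarith
    have h5 : (2 : ℝ) ≤ (2 * ((e : ℝ) + 1)) ^ (e + 1) :=
      ht.trans (le_self_pow₀ (by linarith) (Nat.succ_ne_zero e))
    have h6 : 1 ≤ M ^ (e + 1) := one_le_pow₀ hM1
    calc v b ^ (e + 1) ≤ 2 * (1 * max (v u) 1) := by rw [one_mul]; exact h4
      _ ≤ _ := by gcongr

theorem low_na (v : AbsoluteValue K ℝ) (hv : IsNonarchimedean v) (e : ℕ) (c : ℕ → K) (b u : K)
    (h : b ^ (e + 1) + ∑ j ∈ Finset.range (e + 1), c j * b ^ j = u) :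
    (max (v b) 1) ^ (e + 1) ≤
      (∏ j ∈ Finset.range (e + 1), max (v (c j)) 1) ^ (e + 1) * max (v u) 1 := by
  set M := ∏ j ∈ Finset.range (e + 1), max (v (c j)) 1 with hM
  have hM1 : 1 ≤ M := one_le_pm v _ c
  have hu : 1 ≤ max (v u) 1 := le_max_right _ _
  by_cases hb : v b ≤ M
  · have h1 : max (v b) 1 ≤ M := max_le hb hM1
    calc (max (v b) 1) ^ (e + 1) ≤ M ^ (e + 1) :=
          pow_le_pow_left₀ (zero_le_one.trans (le_max_right _ _)) h1 _
      _ = M ^ (e + 1) * 1 := by rw [mul_one]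
      _ ≤ _ := by gcongr
  · have hb' : M < v b := lt_of_not_ge hb
    have hb1 : 1 ≤ v b := hM1.trans hb'.le
    have hs := sum_le_na v hv (e + 1) e le_rfl c b
    rw [← hM, max_eq_left hb1] at hs
    rw [max_eq_left hb1]
    have hp : 0 < v b ^ e := pow_pos (zero_lt_one.trans_le hb1) _
    have h2 : v (b ^ (e + 1)) ≤ max (v u) (v (∑ j ∈ Finset.range (e + 1), c j * b ^ j)) := by
      have : b ^ (e + 1) = u + -∑ j ∈ Finset.range (e + 1), c j * b ^ j := by
        rw [← h]; ring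
      rw [this]
      refine (hv _ _).trans ?_
      rw [v.map_neg]
    rw [map_pow] at h2
    have h3 : M * v b ^ e < v b ^ (e + 1) := by
      rw [pow_succ, mul_comm]
      exact mul_lt_mul_of_pos_left hb' hp
    have h4 : v b ^ (e + 1) ≤ v u := by
      rcases le_max_iff.mp h2 with h5 | h5
      · exact h5
      · linarith
    have h6 : 1 ≤ M ^ (e + 1) := one_le_pow₀ hM1
    calc v b ^ (e + 1) ≤ 1 * max (v u) 1 := by rw [one_mul]; exact h4.trans (le_max_left _ _)
      _ ≤ _ := by gcongr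

end Loc

section Glob

variable {K : Type} [Field K] [AdmissibleAbsValues K]

open AdmissibleAbsValues Finset Multiset in
theorem glob (s : Finset ℕ) (x : ℕ → K) (z : K) (C : ℝ) (hC : 0 < C)
    (h1 : ∀ v : AbsoluteValue K ℝ, max (v z) 1 ≤ C * ∏ i ∈ s, max (v (x i)) 1)
    (h2 : ∀ v : AbsoluteValue K ℝ, IsNonarchimedean v → max (v z) 1 ≤ ∏ i ∈ s, max (v (x i)) 1) :
    mulHeight₁ z ≤ C ^ (totalWeight K) * ∏ a ∈ s, mulHeight₁ (x a) := by
  simp only [mulHeight₁_eq, totalWeight]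
  rw [prod_mul_distrib, ← prod_replicate, ← map_const, ← finprod_prod_comm _ _ (by fun_prop),
    ← prod_map_prod, ← mul_assoc, ← prod_map_mul]
  simp only [Function.const_apply]
  gcongr
  · exact finprod_nonneg fun _ ↦ by positivity
  · exact prod_map_nonneg fun _ h ↦ by positivity
  · exact prod_map_le_prod_map₀ _ _ (fun _ _ ↦ by positivity) fun v _ ↦ h1 v
  · exact finprod_le_finprod (by fun_prop) (fun _ ↦ by grind) (by fun_prop) <|
      fun v ↦ h2 _ (isNonarchimedean _ v.prop)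

theorem globLog (s : Finset ℕ) (x : ℕ → K) (z : K) (C : ℝ) (hC : 0 < C)
    (h1 : ∀ v : AbsoluteValue K ℝ, max (v z) 1 ≤ C * ∏ i ∈ s, max (v (x i)) 1)
    (h2 : ∀ v : AbsoluteValue K ℝ, IsNonarchimedean v → max (v z) 1 ≤ ∏ i ∈ s, max (v (x i)) 1) :
    logHeight₁ z ≤ totalWeight K * Real.log C + ∑ a ∈ s, logHeight₁ (x a) := by
  have h := Real.log_le_log (mulHeight₁_pos z) (glob s x z C hC h1 h2)
  rw [Real.log_mul (pow_pos hC _).ne' (Finset.prod_pos fun a _ => mulHeight₁_pos (x a)).ne',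
    Real.log_pow, Real.log_prod fun a _ => mulHeight₁_ne_zero (x a)] at h
  exact h

theorem up (d : ℕ) (c : ℕ → K) (b : K) :
    logHeight₁ (∑ j ∈ Finset.range (d + 1), c j * b ^ j) ≤
      totalWeight K * Real.log ((d : ℝ) + 1) + ∑ j ∈ Finset.range (d + 1), logHeight₁ (c j) +
        d * logHeight₁ b := by
  have hp : ∀ v : AbsoluteValue K ℝ,
      ∏ i ∈ Finset.range (d + 1 + 1), max (v (if i < d + 1 then c i else b ^ d)) 1 =
        (∏ j ∈ Finset.range (d + 1), max (v (c j)) 1) * (max (v b) 1) ^ d := by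
    intro v
    rw [Finset.prod_range_succ, if_neg (lt_irrefl _), max_pow]
    congr 1
    exact Finset.prod_congr rfl fun j hj => by rw [if_pos (Finset.mem_range.mp hj)]
  have hd : (0 : ℝ) ≤ d := Nat.cast_nonneg d
  have h1 : ∀ v : AbsoluteValue K ℝ,
      1 ≤ (∏ j ∈ Finset.range (d + 1), max (v (c j)) 1) * (max (v b) 1) ^ d := fun v =>
    one_le_mul_of_one_le_of_one_le (one_le_pm v _ c) (one_le_pow₀ (le_max_right _ _))
  have h := globLog (Finset.range (d + 1 + 1)) (fun i => if i < d + 1 then c i else b ^ d)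
    (∑ j ∈ Finset.range (d + 1), c j * b ^ j) ((d : ℝ) + 1) (by linarith)
    (fun v => by
      rw [hp v]
      refine max_le ?_ (one_le_mul_of_one_le_of_one_le (by linarith) (h1 v))
      have := sum_le_arch v (d + 1) d le_rfl c b
      push_cast at this
      exact this)
    (fun v hv => by
      rw [hp v]
      exact max_le (sum_le_na v hv (d + 1) d le_rfl c b) (h1 v))
  have hs : ∑ i ∈ Finset.range (d + 1 + 1), logHeight₁ (if i < d + 1 then c i else b ^ d) =
      ∑ j ∈ Finset.range (d + 1), logHeight₁ (c j) + d * logHeight₁ b := by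
    rw [Finset.sum_range_succ _ (d + 1), if_neg (lt_irrefl _), logHeight₁_pow]
    congr 1
    exact Finset.sum_congr rfl fun j hj => by rw [if_pos (Finset.mem_range.mp hj)]
  rw [hs] at h
  linarith

theorem low (e : ℕ) (c : ℕ → K) (b u : K)
    (h : b ^ (e + 1) + ∑ j ∈ Finset.range (e + 1), c j * b ^ j = u) :
    ((e : ℝ) + 1) * logHeight₁ b ≤
      totalWeight K * Real.log ((2 * ((e : ℝ) + 1)) ^ (e + 1)) +
        ((e : ℝ) + 1) * ∑ j ∈ Finset.range (e + 1), logHeight₁ (c j) + logHeight₁ u := by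
  have hp : ∀ v : AbsoluteValue K ℝ,
      ∏ i ∈ Finset.range (e + 1 + 1), max (v (if i < e + 1 then c i ^ (e + 1) else u)) 1 =
        (∏ j ∈ Finset.range (e + 1), max (v (c j)) 1) ^ (e + 1) * max (v u) 1 := by
    intro v
    rw [Finset.prod_range_succ, if_neg (lt_irrefl _), ← Finset.prod_pow]
    congr 1
    exact Finset.prod_congr rfl fun j hj => by rw [if_pos (Finset.mem_range.mp hj), max_pow]
  have hd : (0 : ℝ) ≤ e := Nat.cast_nonneg e
  have h' := globLog (Finset.range (e + 1 + 1)) (fun i => if i < e + 1 then c i ^ (e + 1) else u)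
    (b ^ (e + 1)) ((2 * ((e : ℝ) + 1)) ^ (e + 1)) (by positivity)
    (fun v => by
      rw [hp v, max_pow]
      exact low_arch v e c b u h)
    (fun v hv => by
      rw [hp v, max_pow]
      exact low_na v hv e c b u h)
  rw [Finset.sum_range_succ _ (e + 1), if_neg (lt_irrefl _), logHeight₁_pow,
    Finset.sum_congr rfl fun j hj => by rw [if_pos (Finset.mem_range.mp hj), logHeight₁_pow],
    ← Finset.mul_sum] at h'
  push_cast at h'
  linarith

theorem evalX (R : K[X]) : ∃ c : ℝ, 0 ≤ c ∧ ∀ a : K,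
    logHeight₁ (R.eval a) ≤ c * (logHeight₁ a + 1) := by
  have hd : (0 : ℝ) ≤ R.natDegree := Nat.cast_nonneg _
  have h1 : 0 ≤ totalWeight K * Real.log ((R.natDegree : ℝ) + 1) :=
    mul_nonneg (Nat.cast_nonneg _) (Real.log_nonneg (by linarith))
  have h2 : 0 ≤ ∑ j ∈ Finset.range (R.natDegree + 1), logHeight₁ (R.coeff j) :=
    Finset.sum_nonneg fun j _ => zero_le_logHeight₁ _
  refine ⟨totalWeight K * Real.log ((R.natDegree : ℝ) + 1) +
    ∑ j ∈ Finset.range (R.natDegree + 1), logHeight₁ (R.coeff j) + R.natDegree,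
    by linarith, fun a => ?_⟩
  have h := up R.natDegree R.coeff a
  rw [← eval_eq_sum_range] at h
  have ha := zero_le_logHeight₁ a
  nlinarith [mul_nonneg h1 ha, mul_nonneg h2 ha]

theorem evalEval_eq (q : K[X][Y]) (a b : K) :
    q.evalEval a b = ∑ j ∈ Finset.range (q.natDegree + 1), (q.coeff j).eval a * b ^ j := by
  rw [evalEval, eval_eq_sum_range (p := q), eval_finsetSum]
  exact Finset.sum_congr rfl fun j _ => by simp

end Glob

end HQ

theorem hq : S_HQ := by
  intro K _ _ q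
  choose c hc0 hc using fun j => HQ.evalX (q.coeff j)
  obtain ⟨d, hd⟩ : ∃ d, d = q.natDegree := ⟨_, rfl⟩
  have hd0 : (0 : ℝ) ≤ d := Nat.cast_nonneg _
  set S := ∑ j ∈ Finset.range (d + 1), c j with hS
  have hS0 : 0 ≤ S := Finset.sum_nonneg fun j _ => hc0 j
  set W1 := totalWeight K * Real.log ((d : ℝ) + 1) with hW1
  have hW10 : 0 ≤ W1 := mul_nonneg (Nat.cast_nonneg _) (Real.log_nonneg (by linarith))
  set W2 := |totalWeight K * Real.log ((2 * (d : ℝ)) ^ d)| with hW2
  have hW20 : 0 ≤ W2 := abs_nonneg _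
  have hcd : 0 ≤ c d := hc0 d
  refine ⟨W1 + S + (W2 + d * (S + d * c d) + c d), by positivity, fun a b => ?_⟩
  have ha := zero_le_logHeight₁ a
  have hsum : ∑ j ∈ Finset.range (d + 1), logHeight₁ ((q.coeff j).eval a) ≤
      S * (logHeight₁ a + 1) := by
    rw [hS, Finset.sum_mul]
    exact Finset.sum_le_sum fun j _ => hc j a
  have hrest : 0 ≤ (W2 + d * (S + d * c d) + c d) * (logHeight₁ a + 1) := by positivity
  have hrest' : 0 ≤ (W1 + S) * (logHeight₁ a + 1) := by positivity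
  refine ⟨?_, fun hA => ?_⟩
  · have h := HQ.up d (fun j => (q.coeff j).eval a) b
    rw [HQ.evalEval_eq, ← hd]
    nlinarith [mul_nonneg hW10 ha]
  · rw [← hd]
    rcases Nat.eq_zero_or_eq_succ_pred d with h0 | h0
    · have := zero_le_logHeight₁ (q.evalEval a b)
      have h00 : (d : ℝ) = 0 := by exact_mod_cast h0
      have h01 : (d : ℝ) * logHeight₁ b = 0 := by rw [h00, zero_mul]
      nlinarith
    obtain ⟨e, he⟩ : ∃ e, d = e + 1 := ⟨_, h0⟩
    have hA' : (q.coeff d).eval a ≠ 0 := by rw [hd]; exact hA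
    set A := (q.coeff d).eval a with hAdef
    have hAh : logHeight₁ A ≤ c d * (logHeight₁ a + 1) := hc d a
    have heq : b ^ (e + 1) + ∑ j ∈ Finset.range (e + 1), ((q.coeff j).eval a * A⁻¹) * b ^ j =
        q.evalEval a b * A⁻¹ := by
      rw [HQ.evalEval_eq, ← hd, Finset.sum_range_succ _ d, ← hAdef, add_mul, Finset.sum_mul, ← he,
        add_comm]
      congr 1
      · exact Finset.sum_congr rfl fun j _ => by ring
      · field_simp
    have h := HQ.low e (fun j => (q.coeff j).eval a * A⁻¹) b _ heq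
    have hde : (e : ℝ) + 1 = d := by rw [he]; push_cast; ring
    rw [hde, ← he] at h
    have h1 : logHeight₁ (q.evalEval a b * A⁻¹) ≤ logHeight₁ (q.evalEval a b) + logHeight₁ A := by
      have := logHeight₁_mul_le (q.evalEval a b) A⁻¹
      rwa [logHeight₁_inv] at this
    have h2 : ∑ j ∈ Finset.range d, logHeight₁ ((q.coeff j).eval a * A⁻¹) ≤
        (S + d * c d) * (logHeight₁ a + 1) := by
      have h3 : ∑ j ∈ Finset.range d, logHeight₁ ((q.coeff j).eval a * A⁻¹) ≤
          ∑ j ∈ Finset.range d, (logHeight₁ ((q.coeff j).eval a) + logHeight₁ A) :=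
        Finset.sum_le_sum fun j _ => by
          have := logHeight₁_mul_le ((q.coeff j).eval a) A⁻¹
          rwa [logHeight₁_inv] at this
      rw [Finset.sum_add_distrib, Finset.sum_const, Finset.card_range, nsmul_eq_mul] at h3
      rw [Finset.sum_range_succ] at hsum
      have h4 := zero_le_logHeight₁ ((q.coeff d).eval a)
      have h5 := mul_le_mul_of_nonneg_left hAh hd0
      nlinarith
    have h6 := mul_le_mul_of_nonneg_left h2 hd0
    have h7 : totalWeight K * Real.log ((2 * (d : ℝ)) ^ d) ≤ W2 := le_abs_self _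
    nlinarith [mul_nonneg hW20 ha]

end Pool.Agent.KSkew
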