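import Pool.Agent.MP_c8dfda_nt.Core2

/-
The Liouville inequality for the test sums.
-/

open Polynomial
open scoped Polynomial.Bivariate

namespace Pool.Agent.KSkew

namespace LIOU

theorem indep {R : Type} [CommRing R] [IsDomain R] {b c : ℕ} (Q : R[X]) (hQ : Q.natDegree = b)
    (r : Fin b × Fin c → R) (h : ∑ u, C (r u) * (X ^ (u.1 : ℕ) * Q ^ (u.2 : ℕ)) = 0)
    (u : Fin b × Fin c) : r u = 0 := by
  have hb : 0 < b := u.1.pos
  have Q0 : Q ≠ 0 := fun e => by
    rw [e, natDegree_zero] at hQ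
    omega
  have m0 : ∀ u : Fin b × Fin c, (X ^ (u.1 : ℕ) * Q ^ (u.2 : ℕ) : R[X]) ≠ 0 := fun u =>
    mul_ne_zero (pow_ne_zero _ X_ne_zero) (pow_ne_zero _ Q0)
  have dg : ∀ u : Fin b × Fin c, C (r u) * (X ^ (u.1 : ℕ) * Q ^ (u.2 : ℕ)) ≠ 0 →
      (C (r u) * (X ^ (u.1 : ℕ) * Q ^ (u.2 : ℕ))).natDegree = u.1 + b * u.2 := fun u hu => by
    rw [natDegree_C_mul (fun e => hu (by rw [e, C_0, zero_mul])),
      natDegree_mul (pow_ne_zero _ X_ne_zero) (pow_ne_zero _ Q0), natDegree_X_pow, natDegree_pow,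
      hQ, mul_comm]
  have := degree_sum_eq_of_disjoint (fun u : Fin b × Fin c =>
    C (r u) * (X ^ (u.1 : ℕ) * Q ^ (u.2 : ℕ))) Finset.univ fun v hv w hw hne e => hne (by
      have e' := natDegree_eq_of_degree_eq e
      rw [dg v hv.2, dg w hw.2] at e'
      have e1 := congrArg (· % b) e'
      have e2 := congrArg (· / b) e'
      simp only [Nat.add_mul_mod_self_left, Nat.mod_eq_of_lt v.1.2, Nat.mod_eq_of_lt w.1.2,
        Nat.add_mul_div_left _ _ hb, Nat.div_eq_of_lt v.1.2, Nat.div_eq_of_lt w.1.2,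
        zero_add] at e1 e2
      exact Prod.ext (Fin.ext e1) (Fin.ext e2))
  rw [h, degree_zero, eq_comm, Finset.sup_eq_bot_iff] at this
  exact C_eq_zero.1 ((mul_eq_zero.1 (degree_eq_bot.1 (this u (Finset.mem_univ _)))).resolve_right
    (m0 u))

variable {K M : Type} [Field K] [Field M] [Algebra K M]

theorem ev_comp (a b : M) (P : K[X]) (Q q : K[X][Y]) :
    aevalAeval a b ((q.map (compRingHom P)).comp Q) =
      aevalAeval (aeval a P) (aevalAeval a b Q) q := by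
  induction q using Polynomial.induction_on' with
  | add f g hf hg => rw [Polynomial.map_add, add_comp, map_add, map_add, hf, hg]
  | monomial n r =>
    rw [← C_mul_X_pow_eq_monomial]
    simp [aeval_comp]

theorem iter {p : K[X]} {q : K[X][Y]} {x y : ℤ → M} (hx : ∀ j, x (j + 1) = aeval (x j) p)
    (hy : ∀ j, y (j + 1) = aevalAeval (x j) (y j) q) (hp : 1 ≤ p.natDegree) (k : ℕ) :
    ∃ (P : K[X]) (Q : K[X][Y]), P.natDegree = p.natDegree ^ k ∧ Q.natDegree = q.natDegree ^ k ∧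
      x k = aeval (x 0) P ∧ y k = aevalAeval (x 0) (y 0) Q := by
  induction k with
  | zero => exact ⟨X, Y, by simp, by simp, by simp, by simp⟩
  | succ k ih =>
    obtain ⟨P, Q, h1, h2, h3, h4⟩ := ih
    have inj : Function.Injective (compRingHom P) := by
      refine (injective_iff_map_eq_zero _).2 fun r hr => ?_
      refine (comp_eq_zero_iff.1 hr).resolve_right fun h => ?_
      have := Nat.one_le_pow k _ hp
      rw [h.2, natDegree_C] at h1
      omega
    refine ⟨p.comp P, (q.map (compRingHom P)).comp Q, ?_, ?_, ?_, ?_⟩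
    · rw [natDegree_comp, h1, pow_succ']
    · rw [natDegree_comp, natDegree_map_eq_of_injective inj, h2, pow_succ']
    · rw [Nat.cast_succ, hx, aeval_comp, h3]
    · rw [Nat.cast_succ, hy, ev_comp, h3, h4]

theorem poly {a b c : ℕ} (t : Fin a × Fin b × Fin c → K) (ht : t ≠ 0) (Q : K[X][Y])
    (hQ : Q.natDegree = b) : ∃ P : K[X][Y], P ≠ 0 ∧
      ∀ x y : M, aevalAeval x y P = TS t x y (aevalAeval x y Q) := by
  refine ⟨∑ u : Fin b × Fin c, C (∑ i : Fin a, C (t (i, u)) * X ^ (i : ℕ)) *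
    (Y ^ (u.1 : ℕ) * Q ^ (u.2 : ℕ)), fun h => ht (funext fun s => ?_), fun x y => ?_⟩
  · have := congrArg (coeff · s.1) (indep Q hQ _ h s.2)
    simpa [coeff_X_pow, Fin.val_inj] using this
  · rw [TS, eq_comm, Fintype.sum_prod_type_right, map_sum]
    simp [Finset.sum_mul, mul_assoc]

theorem pow_le {v A T : ℝ} {n : ℕ} (hv : 0 ≤ v) (hA : 0 ≤ A) (h : v ≤ Real.exp A)
    (hn : (n : ℝ) ≤ T) : v ^ n ≤ Real.exp (A * T) := by
  refine (pow_le_pow_left₀ hv h n).trans ?_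
  rw [← Real.exp_nat_mul, mul_comm]
  gcongr

end LIOU

open LIOU in
theorem liou : S_LIOU := by
  intro K M ι _ _ _ _ p q N x y d d₁ G hp hq h1 h2
  classical
  obtain ⟨c, hc⟩ := G.grow
  have sm : ∀ (z : M) (i : ι), N i z ≤ Real.exp (∑ j, N j z) := fun z i =>
    (Finset.single_le_sum (f := fun j => N j z) (fun j _ => (N j).nonneg z)
      (Finset.mem_univ i)).trans (by linarith [Real.add_one_le_exp (∑ j, N j z)])
  have s0 : ∀ z : M, 0 ≤ ∑ j, N j z := fun z => Finset.sum_nonneg fun j _ => (N j).nonneg z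
  refine ⟨Fintype.card ι * (∑ j, N j (x 0) + ∑ j, N j (y 0) + |c|), fun i k t ht => ?_⟩
  obtain ⟨P, Q, -, hQ, -, hy⟩ := iter G.recx G.recy (hp ▸ h1) k
  obtain ⟨R, R0, hR⟩ := poly (M := M) t ht Q (hq ▸ hQ)
  have pf := G.pf 0 R fun e => R0 (G.ind R e)
  rw [hR, ← hy] at pf
  have a1 : (1 : ℝ) ≤ (d₁ : ℝ) ^ k := one_le_pow₀ (by exact_mod_cast h1)
  have a2 : (0 : ℝ) ≤ (d : ℝ) ^ k := by positivity
  have up : ∀ j, N j (TS t (x 0) (y 0) (y k)) ≤ Real.exp
      ((∑ j, N j (x 0) + ∑ j, N j (y 0) + |c|) * ((d : ℝ) ^ k * (d₁ : ℝ) ^ k)) := fun j => by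
    refine na_sum_le (G.na j) _ _ (Real.exp_pos _).le fun s _ => ?_
    have b0 : N j (algebraMap K M (t s)) ≤ 1 := by
      by_cases e : t s = 0
      · simp [e]
      · exact (G.triv j _ e).le
    have b1 := pow_le ((N j).nonneg _) (s0 _) (sm (x 0) j) (n := s.1)
      (T := (d : ℝ) ^ k * (d₁ : ℝ) ^ k) (by exact_mod_cast s.1.2.le)
    have b2 := pow_le ((N j).nonneg _) (s0 _) (sm (y 0) j) (n := s.2.1)
      (T := (d : ℝ) ^ k * (d₁ : ℝ) ^ k)
      (le_trans (by exact_mod_cast s.2.1.2.le) (le_mul_of_one_le_right a2 a1))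
    have b3 := pow_le ((N j).nonneg _) (A := |c| * (d₁ : ℝ) ^ k) (by positivity)
      ((hc j k).trans (by rw [hp]; gcongr; exact le_abs_self c)) (n := s.2.2) (T := (d : ℝ) ^ k)
      (by exact_mod_cast s.2.2.2.le)
    rw [map_mul, map_mul, map_mul, map_pow, map_pow, map_pow, add_mul, add_mul, Real.exp_add,
      Real.exp_add, mul_comm ((d : ℝ) ^ k), ← mul_assoc |c|, mul_comm _ ((d : ℝ) ^ k)]
    refine (mul_le_of_le_one_left (by positivity) b0).trans ?_
    gcongr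
  have A0 : 0 ≤ (∑ j, N j (x 0) + ∑ j, N j (y 0) + |c|) * ((d : ℝ) ^ k * (d₁ : ℝ) ^ k) :=
    mul_nonneg (add_nonneg (add_nonneg (s0 _) (s0 _)) (abs_nonneg c)) (by positivity)
  rw [mul_assoc, Real.exp_neg, Real.exp_nat_mul, inv_le_iff_one_le_mul₀ (by positivity)]
  rw [← Finset.mul_prod_erase _ _ (Finset.mem_univ i)] at pf
  refine pf.trans (mul_le_mul_of_nonneg_left ?_ ((N i).nonneg _))
  refine (Finset.prod_le_prod (fun j _ => (N j).nonneg _) fun j _ => up j).trans ?_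
  rw [Finset.prod_const]
  exact pow_le_pow_right₀ (Real.one_le_exp A0) (Finset.card_le_univ _)

end Pool.Agent.KSkew
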