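import Pool.Agent.MP_c8dfda_nt.Core2

/-
The local estimates at the three kinds of places.
-/

open Polynomial Filter
open scoped Polynomial.Bivariate IntermediateField

namespace Pool.Agent.KSkew

namespace LOC

variable {K M : Type} [Field K] [Field M] [Algebra K M] {N : AbsoluteValue M ℝ}

theorem st_eq (na : IsNonarchimedean N) {a b : M} (h : N (a - b) < N b) : N a = N b :=
  na_eq_of_sub_lt na (by rwa [N.map_sub])

theorem near_eq (na : IsNonarchimedean N) {a b : M} (h : Near N a b) : N a = N b :=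
  h.elim (fun e => by rw [e]) (st_eq na)

theorem st_div (na : IsNonarchimedean N) {a b a' b' : M} (h : N (a - b) < N b)
    (h' : N (a' - b') < N b') : N (a / a' - b / b') < N (b / b') := by
  have e := st_eq na h'
  have p1 : 0 < N b := (apply_nonneg _ _).trans_lt h
  have p2 : 0 < N b' := (apply_nonneg _ _).trans_lt h'
  have n1 : b' ≠ 0 := N.pos_iff.1 p2
  have n2 : a' ≠ 0 := N.pos_iff.1 (e ▸ p2)
  have : a / a' - b / b' = ((a - b) * b' - (a' - b') * b) / (a' * b') := by
    field_simp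
    ring
  rw [this, map_div₀, map_div₀, map_mul, e, div_lt_div_iff₀ (mul_pos p2 p2) p2]
  have := na_sub_lt na (a := (a - b) * b') (b := (a' - b') * b) (B := N b * N b')
    (by rw [map_mul]; exact mul_lt_mul_of_pos_right h p2)
    (by rw [map_mul, mul_comm]; exact mul_lt_mul_of_pos_left h' p1)
  nlinarith

theorem alg_le (triv : ∀ c : K, c ≠ 0 → N (algebraMap K M c) = 1) (c : K) :
    N (algebraMap K M c) ≤ 1 := by
  by_cases h : c = 0
  · simp [h]
  · exact (triv c h).le

theorem asy (na : IsNonarchimedean N) (triv : ∀ c : K, c ≠ 0 → N (algebraMap K M c) = 1)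
    (R : K[X]) (x : M) (t : ℕ) (hx : x ≠ 0) (ht : R.coeff t ≠ 0)
    (h : ∀ i, i ≠ t → R.coeff i ≠ 0 → N x ^ i < N x ^ t) :
    N (aeval x R - algebraMap K M (R.coeff t) * x ^ t) <
      N (algebraMap K M (R.coeff t) * x ^ t) := by
  have hm : t ∈ Finset.range (R.natDegree + 1) :=
    Finset.mem_range.2 (Nat.lt_succ_of_le (le_natDegree_of_ne_zero ht))
  have hp : 0 < N x ^ t := pow_pos (N.pos hx) _
  rw [aeval_eq_sum_range, ← Finset.add_sum_erase _ _ hm, Algebra.smul_def, add_sub_cancel_left,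
    map_mul, triv _ ht, one_mul, map_pow]
  refine na_sum_lt na _ _ hp fun i hi => ?_
  by_cases hc : R.coeff i = 0
  · simpa [hc] using hp
  · rw [Algebra.smul_def, map_mul, triv _ hc, one_mul, map_pow]
    exact h i (Finset.ne_of_mem_erase hi) hc

theorem asy_top (na : IsNonarchimedean N) (triv : ∀ c : K, c ≠ 0 → N (algebraMap K M c) = 1)
    (R : K[X]) (hR : R ≠ 0) (x : M) (hx : 1 < N x) :
    N (aeval x R - algebraMap K M R.leadingCoeff * x ^ R.natDegree) <
      N (algebraMap K M R.leadingCoeff * x ^ R.natDegree) :=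
  asy na triv R x _ (N.pos_iff.1 (one_pos.trans hx)) (leadingCoeff_ne_zero.2 hR) fun _ hi hc =>
    pow_lt_pow_right₀ hx (lt_of_le_of_ne (le_natDegree_of_ne_zero hc) hi)

theorem asy_bot (na : IsNonarchimedean N) (triv : ∀ c : K, c ≠ 0 → N (algebraMap K M c) = 1)
    (R : K[X]) (hR : R ≠ 0) (x : M) (h0 : x ≠ 0) (hx : N x < 1) :
    N (aeval x R - algebraMap K M R.trailingCoeff * x ^ R.natTrailingDegree) <
      N (algebraMap K M R.trailingCoeff * x ^ R.natTrailingDegree) :=
  asy na triv R x _ h0 (trailingCoeff_nonzero_iff_nonzero.2 hR) fun _ hi hc =>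
    pow_lt_pow_right_of_lt_one₀ (N.pos h0) hx
      (lt_of_le_of_ne (natTrailingDegree_le_of_ne_zero hc) hi.symm)

theorem aeval_mem (S : IntermediateField K M) {x : M} (hx : x ∈ S) (R : K[X]) : aeval x R ∈ S :=
  (Algebra.adjoin_le (S := S.toSubalgebra) (Set.singleton_subset_iff.2 hx))
    (aeval_mem_adjoin_singleton K x)

section sys

variable {ι : Type} [Fintype ι] {p : K[X]} {q : K[X][Y]} {Ns : ι → AbsoluteValue M ℝ}
  {x y : ℤ → M} {A : ℕ → K[X]}

theorem lc_ne (hq : 1 ≤ q.natDegree) : q.leadingCoeff ≠ 0 := by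
  rw [leadingCoeff_ne_zero]
  rintro rfl
  simp at hq

theorem dn_ne (G : GSys p q Ns x y) (hq : 1 ≤ q.natDegree) (j : ℤ) :
    aeval (x j) (Dn p q) ≠ 0 := by
  rw [Dn, map_mul, map_pow, aeval_comp, ← G.recx]
  exact mul_ne_zero (pow_ne_zero _ fun h => lc_ne hq (G.trans _ _ h))
    fun h => lc_ne hq (G.trans _ _ h)

theorem dn_ne' (G : GSys p q Ns x y) (hq : 1 ≤ q.natDegree) : Dn p q ≠ 0 := fun h =>
  dn_ne G hq 0 (by rw [h, map_zero])

theorem zrec (G : GSys p q Ns x y) (hq : 1 ≤ q.natDegree) (hA : RecA p q A) (j : ℕ) :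
    y ((j + 1 : ℕ) : ℤ) - ctr q (x ((j + 1 : ℕ) : ℤ)) = ∑ i ∈ Finset.range (q.natDegree + 1),
      aeval (x j) (A i) / aeval (x j) (Dn p q) * (y j - ctr q (x j)) ^ i := by
  rw [Nat.cast_succ, G.recx, G.recy]
  exact hA.2.2 M _ _ (dn_ne G hq j)

/-- The common part of the first two cases. -/
theorem uni [CharZero K] (h1 : S_ESC) (h2 : S_BAD) (h3 : S_LIOU) (G : GSys p q Ns x y)
    (hp : 1 ≤ p.natDegree) (hpq : p.natDegree < q.natDegree) (hA : RecA p q A) (i : ι)
    (ξ : ℕ → M) (l : K) (co : K[X] → K) (dg : K[X] → ℤ) (hl : l ≠ 0) (hξ : 1 < Ns i (ξ 0))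
    (hr : ∀ j, Near (Ns i) (ξ (j + 1)) (algebraMap K M l * ξ j ^ p.natDegree))
    (hx0 : x 0 ∈ K⟮ξ 0⟯) (c0 : co 0 = 0) (c1 : ∀ R, R ≠ 0 → co R ≠ 0)
    (hmul : ∀ R S, R ≠ 0 → S ≠ 0 → dg (R * S) = dg R + dg S)
    (has : ∀ (j : ℕ) (R : K[X]), R ≠ 0 → Ns i (aeval (x j) R - algebraMap K M (co R) * ξ j ^ dg R) <
      Ns i (algebraMap K M (co R) * ξ j ^ dg R)) :
    (∀ k < q.natDegree, A k ≠ 0 → ((q.natDegree : ℤ) - p.natDegree) * (dg (A k) - dg (Dn p q)) ≤
      dg q.leadingCoeff * ((k : ℤ) - p.natDegree)) ∧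
    Ns i (y 0 - ctr q (x 0)) ^ (q.natDegree - p.natDegree) ≤ Ns i (ξ 0) ^ (- dg q.leadingCoeff) := by
  have na := G.na i
  have triv := G.triv i
  have hq : 1 ≤ q.natDegree := by omega
  have ha := lc_ne hq
  have hD := dn_ne' G hq
  have hρ : ∀ j, Ns i (ξ (j + 1)) = Ns i (ξ j) ^ p.natDegree := fun j => by
    rw [near_eq na (hr j), map_mul, triv _ hl, one_mul, map_pow]
  have hρ1 : ∀ j, 1 ≤ Ns i (ξ j) := fun j => by
    induction j with
    | zero => exact hξ.le
    | succ j ih => rw [hρ]; exact one_le_pow₀ ih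
  have hξ0 : ∀ j, ξ j ≠ 0 := fun j => (Ns i).pos_iff.1 (one_pos.trans_le (hρ1 j))
  have hρe : ∀ j, Ns i (ξ j) = Real.exp (Real.log (Ns i (ξ 0)) * (p.natDegree : ℝ) ^ j) := fun j => by
    induction j with
    | zero => rw [pow_zero, mul_one, Real.exp_log (one_pos.trans hξ)]
    | succ j ih => rw [hρ, ih, ← Real.exp_nat_mul]; congr 1; ring
  have hxm : ∀ j : ℕ, x j ∈ K⟮ξ 0⟯ := fun j => by
    induction j with
    | zero => exact hx0
    | succ j ih => rw [Nat.cast_succ, G.recx]; exact aeval_mem _ ih _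
  have hQ : ∀ (j : ℕ) (R S : K[X]), S ≠ 0 → Near (Ns i) (aeval (x j) R / aeval (x j) S)
      (algebraMap K M (co R / co S) * ξ j ^ (dg R - dg S)) := fun j R S hS => by
    by_cases hR : R = 0
    · left
      simp [hR, c0]
    · right
      have := st_div na (has j R hR) (has j S hS)
      rwa [mul_div_mul_comm, ← map_div₀ (algebraMap K M), ← zpow_sub₀ (hξ0 j)] at this
  have hQ1 : ∀ (j : ℕ) (R S : K[X]), R ≠ 0 → S ≠ 0 → Ns i (aeval (x j) R / aeval (x j) S) =
      Ns i (ξ j) ^ (dg R - dg S) := fun j R S hR hS => by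
    rw [near_eq na (hQ j R S hS), map_mul, triv _ (div_ne_zero (c1 R hR) (c1 S hS)), one_mul,
      map_zpow₀]
  have hQ2 : ∀ (j : ℕ) (R S : K[X]), S ≠ 0 → Ns i (aeval (x j) R / aeval (x j) S) ≤
      Ns i (ξ j) ^ (dg R - dg S) := fun j R S hS => by
    by_cases hR : R = 0
    · simp only [hR, map_zero, zero_div]
      positivity
    · exact (hQ1 j R S hR hS).le
  have hAd : A q.natDegree ≠ 0 := by rw [hA.1]; exact mul_ne_zero ha hD
  have hδ : dg (A q.natDegree) - dg (Dn p q) = dg q.leadingCoeff := by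
    rw [hA.1, hmul _ _ ha hD]; ring
  obtain ⟨c, hc⟩ := G.grow
  set c₀ := max c (Real.log (Ns i (ξ 0)) * ((dg (cv q) - dg q.leadingCoeff : ℤ) : ℝ)) with hc₀
  have hu : ∀ j : ℕ, Ns i (ctr q (x j)) ≤ Real.exp (c₀ * (p.natDegree : ℝ) ^ j) := fun j => by
    refine (hQ2 j _ _ ha).trans ?_
    rw [hρe, ← Real.rpow_intCast, ← Real.exp_mul, mul_right_comm]
    exact Real.exp_le_exp.2 (mul_le_mul_of_nonneg_right (le_max_right _ _) (by positivity))
  have hz : ∀ j : ℕ, Ns i (y j - ctr q (x j)) ≤ Real.exp (c₀ * (p.natDegree : ℝ) ^ j) := fun j =>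
    na_sub_le na ((hc i j).trans (Real.exp_le_exp.2
      (mul_le_mul_of_nonneg_right (le_max_left _ _) (by positivity)))) (hu j)
  have good : ∀ k < q.natDegree, A k ≠ 0 →
      ((q.natDegree : ℤ) - p.natDegree) * (dg (A k) - dg (Dn p q)) ≤
      dg q.leadingCoeff * ((k : ℤ) - p.natDegree) := by
    intro k hk hAk
    by_contra hbad
    obtain ⟨cL, hL⟩ := h3 K M ι p q Ns x y _ _ G rfl rfl hp hq
    obtain ⟨n, t, ht, hle⟩ := h2 K M (Ns i) na triv q.natDegree p.natDegree l
      (fun k => co (A k) / co (Dn p q)) (fun k => dg (A k) - dg (Dn p q)) c₀ ξ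
      (fun j => y j - ctr q (x j)) (fun j => ctr q (x j))
      (fun j k => aeval (x j) (A k) / aeval (x j) (Dn p q)) (x 0) hp hpq hl hξ hr
      (div_ne_zero (c1 _ hAd) (c1 _ hD)) (by simp only [hA.2.1, c0, zero_div])
      (fun j k _ => ⟨div_mem (aeval_mem _ (hxm j) _) (aeval_mem _ (hxm j) _), hQ j _ _ hD⟩)
      (zrec G hq hA) hx0
      (fun j => ⟨div_mem (aeval_mem _ (hxm j) _) (aeval_mem _ (hxm j) _), hu j, hz j⟩)
      ⟨k, hk, div_ne_zero (c1 _ hAk) (c1 _ hD), by simp only [hδ]; linarith⟩ (cL + 1)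
    simp only [add_sub_cancel, Nat.cast_zero] at hle
    have := Real.exp_le_exp.1 ((hL i n t ht).trans hle)
    have hpos : (0 : ℝ) < (q.natDegree : ℝ) ^ n * (p.natDegree : ℝ) ^ n := by
      have a1 : (0 : ℝ) < q.natDegree := by exact_mod_cast hq
      have a2 : (0 : ℝ) < p.natDegree := by exact_mod_cast hp
      positivity
    linarith
  refine ⟨good, ?_⟩
  have hcast : ((q.natDegree - p.natDegree : ℕ) : ℤ) = (q.natDegree : ℤ) - p.natDegree :=
    Nat.cast_sub hpq.le
  have := h1 M (Ns i) na q.natDegree p.natDegree (q.natDegree - p.natDegree) (dg q.leadingCoeff)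
    (- dg q.leadingCoeff) (fun j => Ns i (ξ j))
    (fun j k => aeval (x j) (A k) / aeval (x j) (Dn p q)) (fun j => y j - ctr q (x j)) hp hpq
    (by omega) hξ.le hρ (by rw [hcast]; linarith) (fun j => by rw [← hδ]; exact hQ1 j _ _ hAd hD)
    (fun j k hk => by
      by_cases hAk : A k = 0
      · simp only [hAk, map_zero, zero_div]
        rw [zero_pow (by omega)]
        positivity
      · rw [hQ1 j _ _ hAk hD, ← zpow_natCast, ← zpow_mul, hcast]
        refine zpow_le_zpow_right₀ (hρ1 j) ?_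
        linarith [good k hk hAk])
    (zrec G hq hA) ⟨c₀, hz⟩ 0
  simpa only [Nat.cast_zero] using this

end sys

end LOC

open LOC in
theorem loc (h1 : S_ESC) (h2 : S_BAD) (h3 : S_LIOU) : S_LOC := by
  intro K M ι _ _ _ _ _ p q N x y A d d₁ G e1 e2 hp hpq hA i
  subst e1 e2
  have na := G.na i
  have triv := G.triv i
  have hq : 1 ≤ q.natDegree := by omega
  have hp0 : p ≠ 0 := by
    rintro rfl
    simp at hp
  refine ⟨fun hx => ?_, fun l hl hx => ?_, fun hx => ?_⟩
  · have hb : ∀ j : ℕ, 1 < N i (x j) := fun j => by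
      induction j with
      | zero => exact hx
      | succ j ih =>
        rw [Nat.cast_succ, G.recx, st_eq na (asy_top na triv p hp0 _ ih), map_mul,
          triv _ (leadingCoeff_ne_zero.2 hp0), one_mul, map_pow]
        exact one_lt_pow₀ ih (by omega)
    obtain ⟨a1, a2⟩ := uni h1 h2 h3 G hp hpq hA i (fun j => x j) p.leadingCoeff leadingCoeff
      (fun R => R.natDegree) (leadingCoeff_ne_zero.2 hp0) hx
      (fun j => Or.inr (by rw [Nat.cast_succ, G.recx]; exact asy_top na triv p hp0 _ (hb j)))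
      (IntermediateField.mem_adjoin_simple_self K _) leadingCoeff_zero
      (fun R hR => leadingCoeff_ne_zero.2 hR)
      (fun R S hR hS => by rw [natDegree_mul hR hS, Nat.cast_add])
      (fun j R hR => by rw [zpow_natCast]; exact asy_top na triv R hR _ (hb j))
    refine ⟨a1, ?_⟩
    simp only [Nat.cast_zero, zpow_neg, zpow_natCast] at a2
    rwa [← one_div, le_div_iff₀ (pow_pos (one_pos.trans hx) _)] at a2
  · have hl0 : l ≠ 0 := by
      rintro rfl
      exact hp0 (by rw [hl]; simp)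
    have hx0 : ∀ j, x j ≠ 0 := fun j h => X_ne_zero (G.trans j X (by simpa using h))
    have hr : ∀ j : ℕ, x ((j + 1 : ℕ) : ℤ) = algebraMap K M l * x j ^ p.natDegree := fun j => by
      rw [Nat.cast_succ, G.recx]
      conv_lhs => rw [hl]
      simp
    have hb : ∀ j : ℕ, N i (x j) < 1 := fun j => by
      induction j with
      | zero => exact hx
      | succ j ih =>
        rw [hr, map_mul, triv _ hl0, one_mul, map_pow]
        exact pow_lt_one₀ (apply_nonneg _ _) ih (by omega)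
    have hpos : 0 < N i (x 0) := (N i).pos (hx0 0)
    obtain ⟨a1, a2⟩ := uni h1 h2 h3 G hp hpq hA i (fun j => (x j)⁻¹) l⁻¹ trailingCoeff
      (fun R => - (R.natTrailingDegree : ℤ)) (inv_ne_zero hl0)
      (by rw [map_inv₀]; exact (one_lt_inv₀ hpos).2 hx)
      (fun j => Or.inl (by rw [hr, mul_inv, map_inv₀, inv_pow]))
      (by
        have := inv_mem (IntermediateField.mem_adjoin_simple_self K (x ((0 : ℕ) : ℤ))⁻¹)
        rwa [inv_inv] at this)
      trailingCoeff_zero (fun R hR => trailingCoeff_nonzero_iff_nonzero.2 hR)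
      (fun R S hR hS => by rw [natTrailingDegree_mul hR hS, Nat.cast_add, neg_add])
      (fun j R hR => by
        rw [inv_zpow', neg_neg, zpow_natCast]; exact asy_bot na triv R hR _ (hx0 j) (hb j))
    refine ⟨fun k hk hAk => by linarith [a1 k hk hAk], ?_⟩
    simp only [Nat.cast_zero, neg_neg, zpow_natCast, map_inv₀, inv_pow] at a2
    rwa [← one_div, le_div_iff₀ (pow_pos hpos _)] at a2
  · have hD := dn_ne' G hq
    have ha := lc_ne hq
    have hQ : ∀ (j : ℕ) (R S : K[X]), S ≠ 0 → N i (aeval (x j) R / aeval (x j) S) ≤ 1 :=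
      fun j R S hS => by
        by_cases hR : R = 0
        · simp [hR]
        · rw [map_div₀, hx j R hR, hx j S hS, div_one]
    obtain ⟨c, hc⟩ := G.grow
    have := h1 M (N i) na q.natDegree p.natDegree 1 0 0 (fun _ => 1)
      (fun j k => aeval (x j) (A k) / aeval (x j) (Dn p q)) (fun j => y j - ctr q (x j)) hp hpq
      le_rfl le_rfl (fun _ => by simp) (by simp)
      (fun j => by
        rw [map_div₀, hx j _ hD, hx j _ (by rw [hA.1]; exact mul_ne_zero ha hD)]; simp)
      (fun j k _ => by simpa only [pow_one, one_zpow] using hQ j _ _ hD) (zrec G hq hA)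
      ⟨max c 0, fun j => na_sub_le na ((hc i j).trans (Real.exp_le_exp.2
        (mul_le_mul_of_nonneg_right (le_max_left _ _) (by positivity))))
        ((hQ j _ _ ha).trans (Real.one_le_exp (mul_nonneg (le_max_right _ _) (by positivity))))⟩ 0
    simpa only [Nat.cast_zero, pow_one, one_zpow] using this

end Pool.Agent.KSkew
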