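import Pool.Agent.MP_c8dfda_nt.Core2

/-
The main estimate for triangular polynomial maps of the plane.
-/

open Polynomial Filter Height
open scoped Polynomial.Bivariate Topology

namespace Pool.Agent.KSkew

namespace MainA

variable {K : Type} [Field K]

theorem ev_shift (α a b : K) (P : K[X][Y]) :
    (P.map (compRingHom (X + C α))).evalEval a b = P.evalEval (a + α) b := by
  induction P using Polynomial.induction_on' with
  | add P Q h1 h2 => rw [Polynomial.map_add, evalEval_add, evalEval_add, h1, h2]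
  | monomial n R =>
    rw [← C_mul_X_pow_eq_monomial]
    simp [evalEval_C, eval_comp]

theorem inj_shift (α : K) : Function.Injective (compRingHom (X + C α) : K[X] →+* K[X]) := by
  refine Function.LeftInverse.injective (g := fun R => R.comp (X - C α)) fun R => ?_
  simp [comp_assoc]

theorem late {x : ℕ → K} (hx : Function.Injective x) {R : K[X]} (hR : R ≠ 0) :
    ∃ n0, ∀ n, n0 ≤ n → R.eval (x n) ≠ 0 := by
  classical
  obtain ⟨B, hB⟩ := (R.roots.toFinset.finite_toSet.preimage hx.injOn).bddAbove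
  refine ⟨B + 1, fun n hn e => ?_⟩
  have : n ≤ B := hB (by simpa [hR] using e)
  omega

theorem last {q : K[X][Y]} {x y : ℕ → K} (hz : ZDense x y) (n0 k e : ℕ) (hk : 1 ≤ k)
    (ha : ∀ n, n0 ≤ n → q.leadingCoeff.eval (x n) ≠ 0)
    (hf : (Set.range fun n => (y (n + n0) - ctr q (x (n + n0))) ^ k * x (n + n0) ^ e).Finite) :
    False := by
  have a0 : q.leadingCoeff ≠ 0 := fun h => ha n0 le_rfl (by rw [h, eval_zero])
  have := hz ((∏ w ∈ hf.toFinset, ((C q.leadingCoeff * X + C (-cv q)) ^ k * C (X ^ e) -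
    C (C w * q.leadingCoeff ^ k))) * ∏ n ∈ Finset.range n0, C (X - C (x n))) fun n => by
      rw [evalEval_mul, evalEval_prod, evalEval_prod]
      rcases lt_or_ge n n0 with h | h
      · exact mul_eq_zero_of_right _ (Finset.prod_eq_zero (Finset.mem_range.2 h)
          (by simp [evalEval_C]))
      · obtain ⟨j, rfl⟩ := Nat.exists_eq_add_of_le' h
        refine mul_eq_zero_of_left (Finset.prod_eq_zero (hf.mem_toFinset.2 ⟨j, rfl⟩) ?_) _
        have h1 := ha _ h
        have h2 : eval (x (j + n0)) q.leadingCoeff * y (j + n0) - eval (x (j + n0)) (cv q) =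
            (y (j + n0) - ctr q (x (j + n0))) * eval (x (j + n0)) q.leadingCoeff := by
          simp only [ctr, coe_aeval_eq_eval]
          field_simp
        simp only [evalEval_sub, evalEval_mul, evalEval_pow, evalEval_add, evalEval_C,
          evalEval_X, eval_neg, eval_pow, eval_X, eval_mul, eval_C]
        rw [← sub_eq_add_neg, h2, mul_pow]
        ring
  rcases mul_eq_zero.1 this with h | h <;> obtain ⟨w, -, h⟩ := Finset.prod_eq_zero_iff.1 h
  · have h1 := congrArg natDegree (sub_eq_zero.1 h)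
    rw [natDegree_mul_C (pow_ne_zero _ X_ne_zero), natDegree_pow, natDegree_linear a0,
      natDegree_C] at h1
    omega
  · exact X_sub_C_ne_zero _ (C_eq_zero.1 h)

theorem grow (G : ℕ → ℝ) (D c : ℝ) (hD : 1 ≤ D) (hc : 0 ≤ c) (h0 : 0 ≤ G 0)
    (h : ∀ n, G (n + 1) ≤ D * G n + c) (n : ℕ) : G n ≤ (G 0 + c) * (n + 1) * D ^ n := by
  induction n with
  | zero => simpa using hc
  | succ n ih =>
    have h1 : 1 ≤ D ^ (n + 1) := one_le_pow₀ hD
    have h2 := mul_le_mul_of_nonneg_left ih (by linarith : 0 ≤ D)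
    have h3 : c ≤ (G 0 + c) * D ^ (n + 1) := by nlinarith
    push_cast
    rw [pow_succ] at h3 ⊢
    linarith [h n]

variable [NumberField K]

theorem hpoly (h4 : S_HQ) (R : K[X]) : ∃ c : ℝ, 0 ≤ c ∧ ∀ b : K,
    logHeight₁ (R.eval b) ≤ R.natDegree * logHeight₁ b + c := by
  obtain ⟨c, c0, h⟩ := h4 K (R.map C)
  refine ⟨c, c0, fun b => ?_⟩
  simpa [natDegree_map_eq_of_injective C_injective, evalEval_map_C] using (h 0 b).1

theorem hctr (h4 : S_HQ) (q : K[X][Y]) : ∃ c : ℝ, 0 ≤ c ∧ ∀ a b : K,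
    logHeight₁ (b - ctr q a) ≤ logHeight₁ b + c * (logHeight₁ a + 1) := by
  obtain ⟨c1, p1, h1⟩ := hpoly h4 (cv q)
  obtain ⟨c2, p2, h2⟩ := hpoly h4 q.leadingCoeff
  have l2 : 0 ≤ (totalWeight K : ℝ) * Real.log 2 :=
    mul_nonneg (Nat.cast_nonneg _) (Real.log_nonneg one_le_two)
  refine ⟨totalWeight K * Real.log 2 + c1 + c2 + ((cv q).natDegree + q.leadingCoeff.natDegree),
    by positivity, fun a b => ?_⟩
  have a1 := logHeight₁_sub_le b (ctr q a)
  have a2 : logHeight₁ (ctr q a) ≤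
      logHeight₁ ((cv q).eval a) + logHeight₁ (q.leadingCoeff.eval a) := by
    simp only [ctr, coe_aeval_eq_eval]
    rw [div_eq_mul_inv, ← logHeight₁_inv (q.leadingCoeff.eval a)]
    exact logHeight₁_mul_le _ _
  have a3 := mul_nonneg (by positivity : 0 ≤ totalWeight K * Real.log 2 + c1 + c2)
    (zero_le_logHeight₁ a)
  have a4 : (0 : ℝ) ≤ (cv q).natDegree + q.leadingCoeff.natDegree := by positivity
  linarith [h1 a, h2 a]

theorem small (h4 : S_HQ) (h5 : S_GS) (h6 : S_FIN) (h7 : S_NORTH) {p : K[X]} {q : K[X][Y]}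
    {x y : ℕ → K} (ho : Orb p q x y) (hz : ZDense x y) (d1 : 1 ≤ p.natDegree)
    (d2 : p.natDegree < q.natDegree) (hD : (∃ l : K, p = C l * X ^ p.natDegree) ∨
      ∀ α l : K, p ≠ C α + C l * (X - C α) ^ p.natDegree) (n0 : ℕ)
    (ha : ∀ n, n0 ≤ n → q.leadingCoeff.eval (x n) ≠ 0 ∧ x n ≠ 0) (c : ℝ) (c0 : 0 ≤ c)
    (hy : ∀ n, logHeight₁ (y n) ≤ c * (logHeight₁ (x n) + 1)) : False := by
  obtain ⟨M, _, _, ι, _, N, x', y', hG⟩ := h5 K p q x y ho hz d1 ⟨c, hy⟩
  obtain ⟨e, β, m, b0, res, he, -, rc⟩ := h6 K M ι p q N x' y' hG d1 d2 hD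
  obtain ⟨c1, p1, h1⟩ := hpoly h4 p
  obtain ⟨c2, p2, h2⟩ := hctr h4 q
  have D1 : (1 : ℝ) ≤ p.natDegree := by exact_mod_cast d1
  have g := grow (fun n => logHeight₁ (x (n + n0)) + 1) p.natDegree c1 D1 p1
    (by have := zero_le_logHeight₁ (x (0 + n0)); linarith) fun n => by
      have := h1 (x (n + n0))
      rw [← ho.1, add_right_comm] at this
      linarith
  have gz : ∀ n, logHeight₁ (y (n + n0) - ctr q (x (n + n0))) + logHeight₁ (x (n + n0)) ≤
      (c + c2 + 1) * (logHeight₁ (x (0 + n0)) + 1 + c1) * (n + 1) * (p.natDegree : ℝ) ^ n := by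
    intro n
    have := mul_le_mul_of_nonneg_left (g n) (by positivity : 0 ≤ c + c2 + 1)
    linarith [h2 (x (n + n0)) (y (n + n0)), hy (n + n0)]
  have xs : ∀ n, x (n + 1 + n0) = p.eval (x (n + n0)) := fun n => by
    rw [add_right_comm, ho.1]
  have rz : ∀ n, y (n + 1 + n0) - ctr q (x (n + 1 + n0)) =
      ∑ i ∈ Finset.range (q.natDegree + 1),
        β i * x (n + n0) ^ m i * (y (n + n0) - ctr q (x (n + n0))) ^ i := fun n => by
    rw [← rc _ _ (ha _ (by omega)).2 (xs n ▸ (ha _ (by omega)).2), ← xs, add_right_comm, ho.2]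
  refine last hz n0 (q.natDegree - p.natDegree) e (by omega) (fun n hn => (ha n hn).1) ?_
  rcases he with rfl | ⟨l, hl⟩
  · have := h7 K q.natDegree p.natDegree 0 1 β m (fun _ => 1)
      (fun n => y (n + n0) - ctr q (x (n + n0))) d1 d2 one_ne_zero (fun _ => one_ne_zero)
      (fun _ => by simp) b0 res (fun n => (rz n).trans (Finset.sum_congr rfl fun i hi => by
        by_cases hb : β i = 0
        · simp [hb]
        · have := res i (Nat.lt_succ_iff.1 (Finset.mem_range.1 hi)) hb
          have m0 : m i = 0 := by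
            rcases mul_eq_zero.1 (this.trans (by simp)) with h | h
            · omega
            · exact h
          simp [m0]))
      ⟨_, fun n => le_trans (by simpa using zero_le_logHeight₁ _) (gz n)⟩
    simpa using this
  · refine h7 K q.natDegree p.natDegree e l β m (fun n => x (n + n0))
      (fun n => y (n + n0) - ctr q (x (n + n0))) d1 d2 ?_ (fun n => (ha _ (by omega)).2)
      (fun n => ?_) b0 res rz ⟨_, gz⟩
    · rintro rfl
      rw [map_zero, zero_mul] at hl
      rw [hl] at d1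
      simp at d1
    · rw [xs]
      conv_lhs => rw [hl]
      simp

theorem core (h2 : S_INJ) (h4 : S_HQ) (h5 : S_GS) (h6 : S_FIN) (h7 : S_NORTH) {p : K[X]}
    {q : K[X][Y]} {x y : ℕ → K} (ho : Orb p q x y) (hz : ZDense x y) (d1 : 1 ≤ p.natDegree)
    (d2 : p.natDegree < q.natDegree) (hD : (∃ l : K, p = C l * X ^ p.natDegree) ∨
      ∀ α l : K, p ≠ C α + C l * (X - C α) ^ p.natDegree) :
    ∃ c : ℝ, 0 < c ∧ ∀ᶠ n in atTop, c * (q.natDegree : ℝ) ^ n ≤ logHeight₁ (y n) := by
  have q0 : q ≠ 0 := fun h => by simp [h] at d2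
  obtain ⟨n0, hn⟩ := late (h2 K p q x y ho hz)
    (mul_ne_zero (leadingCoeff_ne_zero.2 q0) (X_ne_zero (R := K)))
  have ha : ∀ n, n0 ≤ n → q.leadingCoeff.eval (x n) ≠ 0 ∧ x n ≠ 0 := fun n h => by
    simpa [not_or] using hn n h
  obtain ⟨c1, p1, h1⟩ := hpoly h4 p
  obtain ⟨c, c0, hq⟩ := h4 K q
  have D1 : (1 : ℝ) ≤ p.natDegree := by exact_mod_cast d1
  have D2 : (p.natDegree : ℝ) + 1 ≤ q.natDegree := by exact_mod_cast d2
  have hx := fun n => zero_le_logHeight₁ (x n)
  have cc := mul_nonneg c0 p1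
  set u : ℕ → ℝ := fun n => logHeight₁ (y n) - c * (logHeight₁ (x n) + 1) - c * c1 with hu
  have step : ∀ n, n0 ≤ n → q.natDegree * u n ≤ u (n + 1) := fun n h => by
    have a1 := (hq (x n) (y n)).2 (ha n h).1
    have a2 := mul_le_mul_of_nonneg_left (h1 (x n)) c0
    rw [← ho.2] at a1
    rw [← ho.1] at a2
    have a3 := mul_le_mul_of_nonneg_right D2 (mul_nonneg c0 (hx n))
    have a4 := mul_le_mul_of_nonneg_right (by linarith : (2 : ℝ) ≤ q.natDegree) c0
    have a5 := mul_le_mul_of_nonneg_right (by linarith : (2 : ℝ) ≤ q.natDegree) cc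
    simp only [hu]
    linarith
  by_cases hp : ∃ n, n0 ≤ n ∧ 0 < u n
  · obtain ⟨n, hn0, hp⟩ := hp
    have dp : (0 : ℝ) < q.natDegree := by linarith
    have it : ∀ k, (q.natDegree : ℝ) ^ k * u n ≤ u (k + n) := fun k => by
      induction k with
      | zero => simp
      | succ k ih =>
        rw [add_right_comm, pow_succ']
        have := mul_le_mul_of_nonneg_left ih dp.le
        linarith [step (k + n) (by omega)]
    refine ⟨u n / (q.natDegree : ℝ) ^ n, by positivity, eventually_atTop.2 ⟨n, fun j hj => ?_⟩⟩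
    obtain ⟨k, rfl⟩ := Nat.exists_eq_add_of_le' hj
    have e : u n / (q.natDegree : ℝ) ^ n * (q.natDegree : ℝ) ^ (k + n) =
        (q.natDegree : ℝ) ^ k * u n := by
      rw [pow_add]; field_simp
    have a := it k
    have b := mul_nonneg c0 (add_nonneg (hx (k + n)) zero_le_one)
    rw [e]
    simp only [hu] at a ⊢
    linarith
  · exfalso
    have s0 : 0 ≤ ∑ i ∈ Finset.range n0, logHeight₁ (y i) :=
      Finset.sum_nonneg fun i _ => zero_le_logHeight₁ _
    refine small h4 h5 h6 h7 ho hz d1 d2 hD n0 ha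
      (c + (c * c1 + ∑ i ∈ Finset.range n0, logHeight₁ (y i))) (by positivity) fun n => ?_
    have a := mul_nonneg (add_nonneg cc s0) (hx n)
    have b := mul_nonneg c0 (add_nonneg (hx n) zero_le_one)
    rcases lt_or_ge n n0 with h | h
    · have := Finset.single_le_sum (f := fun i => logHeight₁ (y i))
        (fun i _ => zero_le_logHeight₁ _) (Finset.mem_range.2 h)
      linarith
    · have := not_lt.1 fun k => hp ⟨n, h, k⟩
      simp only [hu] at this
      linarith

end MainA

theorem main (h2 : S_INJ) (h4 : S_HQ) (h5 : S_GS) (h6 : S_FIN) (h7 : S_NORTH) : S_MAIN := by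
  intro K _ _ p q x y ho hz d1 d2
  by_cases h : ∃ α l : K, p = C α + C l * (X - C α) ^ p.natDegree
  · obtain ⟨α, l, h⟩ := h
    have l0 : l ≠ 0 := by
      rintro rfl
      rw [map_zero, zero_mul, add_zero] at h
      rw [h] at d1
      simp at d1
    have e1 : (C l * X ^ p.natDegree).natDegree = p.natDegree := natDegree_C_mul_X_pow _ _ l0
    have e2 : (q.map (compRingHom (X + C α))).natDegree = q.natDegree :=
      natDegree_map_eq_of_injective (MainA.inj_shift α) q
    rw [← e2]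
    refine MainA.core h2 h4 h5 h6 h7 (p := C l * X ^ p.natDegree) (x := fun n => x n - α)
      ⟨fun n => ?_, fun n => ?_⟩ (fun P hP => ?_) (e1.symm ▸ d1) (by rw [e1, e2]; exact d2)
      (Or.inl ⟨l, by rw [e1]⟩)
    · beta_reduce
      rw [ho.1]
      conv_lhs => rw [h]
      simp
    · rw [MainA.ev_shift, sub_add_cancel, ho.2]
    · refine (Polynomial.map_eq_zero_iff (MainA.inj_shift (-α))).1 (hz _ fun n => ?_)
      rw [MainA.ev_shift, ← sub_eq_add_neg]
      exact hP n
  · exact MainA.core h2 h4 h5 h6 h7 ho hz d1 d2 (Or.inr fun α l e => h ⟨α, l, e⟩)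

end Pool.Agent.KSkew
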