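import Pool.Agent.MP_c8dfda_nt.Core2

/-! Row NORTH: the rigid case ends by the Northcott property. -/

open Polynomial Filter Height
open scoped Topology

namespace Pool.Agent.KSkew

namespace NORTH

variable {K : Type} [Field K] [NumberField K]

/-- the lower bound for the height of a value of a polynomial -/
theorem lower {P : K[X]} (hP : P ≠ 0) :
    ∃ c : ℝ, 0 ≤ c ∧ ∀ u, P.natDegree * logHeight₁ u ≤ logHeight₁ (P.eval u) + c := by
  set D := P.natDegree with hD
  let q : Fin 2 × Fin 2 → MvPolynomial (Fin 2) K := fun a =>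
    (![![X ^ (D + D) / P, X ^ (D + D) % P], ![0, 1]] a.1 a.2 : K[X]).homogenize D
  obtain ⟨c, hc⟩ := logHeight_eval_ge' (M := D) (N := D) (q := q)
    fun a => isHomogeneous_homogenize _
  refine ⟨|c|, abs_nonneg c, fun u => ?_⟩
  have d1 : (X ^ (D + D) / P).natDegree ≤ D := by
    have := degree_add_div hP (p := X ^ (D + D)) (by
      rw [degree_X_pow, degree_eq_natDegree hP]
      exact_mod_cast Nat.le_add_left D D)
    rw [← degree_mul] at this
    have e := natDegree_eq_of_degree_eq this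
    rcases eq_or_ne (X ^ (D + D) / P) 0 with h | h
    · simp [h]
    · rw [natDegree_mul hP h, natDegree_X_pow] at e
      omega
  have d2 : (X ^ (D + D) % P).natDegree ≤ D :=
    natDegree_le_natDegree (EuclideanDomain.mod_lt _ hP).le
  have := hc ![MvPolynomial.C (P.eval u), 1] (x := ![u, 1]) fun k => by
    have e := congrArg (eval u) (EuclideanDomain.div_add_mod (X ^ (D + D)) P)
    fin_cases k
    · simp [q, eval_homogenize d1, eval_homogenize d2] at e ⊢
      rw [← e, mul_comm]
    · simp [q]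
  have e : (fun j => MvPolynomial.eval ![u, 1]
      ((![MvPolynomial.C (P.eval u), 1] : Fin 2 → MvPolynomial (Fin 2) K) j)) =
      ![P.eval u, 1] := by
    funext j
    fin_cases j <;> simp
  rw [e, ← logHeight₁_eq_logHeight, ← logHeight₁_eq_logHeight] at this
  linarith [neg_abs_le c]

/-- an orbit of a polynomial whose height grows slowly is finite -/
theorem fin {P : K[X]} {u : ℕ → K} {d : ℕ} {c : ℝ} (h1 : 1 ≤ d) (h2 : d < P.natDegree)
    (hu : ∀ n, u (n + 1) = P.eval (u n))
    (hc : ∀ n, logHeight₁ (u n) ≤ c * (n + 1) * (d : ℝ) ^ n) : (Set.range u).Finite := by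
  obtain ⟨C, C0, hC⟩ := lower (P := P) (by rintro rfl; simp at h2)
  refine (NumberField.finite_setOfPred_logHeight₁_le K C).subset ?_
  rintro _ ⟨n, rfl⟩
  have D2 : (2 : ℝ) ≤ P.natDegree := by exact_mod_cast (by omega : 2 ≤ P.natDegree)
  have dD : (d : ℝ) < P.natDegree := by exact_mod_cast h2
  generalize (P.natDegree : ℝ) = D at hC D2 dD
  have D0 : 0 < D := by linarith
  have a : ∀ k, D ^ k * (logHeight₁ (u n) - C) ≤ logHeight₁ (u (n + k)) - C := fun k => by
    induction k with
    | zero => simp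
    | succ k ih =>
      have := hC (u (n + k))
      rw [← hu] at this
      have := mul_le_mul_of_nonneg_left ih D0.le
      rw [pow_succ', mul_assoc, ← add_assoc]
      nlinarith
  have r0 : 0 ≤ (d : ℝ) / D := by positivity
  have r1 : (d : ℝ) / D < 1 := (div_lt_one D0).2 dD
  have t := ((tendsto_self_mul_const_pow_of_lt_one r0 r1).add
    ((tendsto_pow_atTop_nhds_zero_of_lt_one r0 r1).const_mul ((n : ℝ) + 1))).const_mul
      (c * (d : ℝ) ^ n)
  simp only [mul_zero, add_zero] at t
  refine sub_nonpos.1 (ge_of_tendsto' t fun k => ?_)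
  have b := (a k).trans ((sub_le_self _ C0).trans (hc (n + k)))
  rw [mul_comm, ← le_div_iff₀ (pow_pos D0 k)] at b
  refine b.trans_eq ?_
  rw [div_pow, pow_add]
  push_cast
  ring

end NORTH

theorem north : S_NORTH := by
  intro K _ _ d d₁ e l β m t z h1 hd hl ht hrec hβ hm hz ⟨c, hc⟩
  obtain ⟨G, g, e', G0, cop, hg, rfl⟩ : ∃ G g e' : ℕ, 0 < G ∧ g.Coprime e' ∧ d - d₁ = g * G ∧
      e = e' * G := by
    obtain ⟨G, g, e', a, b, c, d⟩ := Nat.exists_coprime' (m := d - d₁) (n := e)
      (Nat.gcd_pos_of_pos_left _ (by omega))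
    exact ⟨G, g, e', a, b, c, d⟩
  have g0 : 0 < g := Nat.pos_of_ne_zero (by rintro rfl; omega)
  have hg' : (d : ℤ) - d₁ = g * G := by exact_mod_cast (Nat.cast_sub hd.le).symm.trans (by rw [hg])
  have key : ∀ i ≤ d, β i ≠ 0 → i % g = d₁ % g ∧
      m i + (e' * (d₁ / g) : ℕ) = (e' * (i / g) : ℕ) := fun i a b => by
    have k : (g : ℤ) * m i = e' * ((i : ℤ) - d₁) := by
      have := hm i a b
      rw [hg'] at this
      refine mul_left_cancel₀ (by exact_mod_cast G0.ne' : (G : ℤ) ≠ 0) ?_
      push_cast at this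
      linear_combination this
    have k1 : i % g = d₁ % g := (Nat.modEq_iff_dvd.2
      ((Nat.isCoprime_iff_coprime.2 cop).dvd_of_dvd_mul_left ⟨_, k.symm⟩)).symm
    refine ⟨k1, mul_left_cancel₀ (by exact_mod_cast g0.ne' : (g : ℤ) ≠ 0) ?_⟩
    have k2 : ((g * (i / g) + i % g : ℕ) : ℤ) = i := by rw [Nat.div_add_mod]
    have k3 : ((g * (d₁ / g) + i % g : ℕ) : ℤ) = d₁ := by rw [k1, Nat.div_add_mod]
    rw [Nat.cast_add, Nat.cast_mul] at k2 k3
    rw [Nat.cast_mul, Nat.cast_mul]
    linear_combination k + e' * k3 - e' * k2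
  set Q : K[X] := ∑ i ∈ Finset.range (d + 1), C (β i) * X ^ (i / g) with hQ
  have cQ : Q.coeff (d / g) = β d := by
    rw [hQ, finsetSum_coeff, Finset.sum_eq_single d (fun i a b => ?_) (by simp)]
    · simp
    · rw [coeff_C_mul_X_pow, ite_eq_right_iff]
      intro k
      by_contra k'
      refine b ?_
      rw [← Nat.div_add_mod i g, ← Nat.div_add_mod d g, k, (key d le_rfl hβ).1,
        (key i (Nat.lt_succ_iff.1 (Finset.mem_range.1 a)) k').1]
  have Q0 : Q ≠ 0 := fun k => hβ (by rw [← cQ, k, coeff_zero])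
  have dQ : d / g ≤ Q.natDegree := le_natDegree_of_ne_zero (cQ ▸ hβ)
  have F := NORTH.fin (P := C (l ^ e') * (X ^ (d₁ % g) * Q ^ g))
    (u := fun n => z n ^ g * t n ^ e') (c := (g + e') * c) h1 (by
      rw [natDegree_C_mul (pow_ne_zero _ hl), natDegree_mul (pow_ne_zero _ X_ne_zero)
        (pow_ne_zero _ Q0), natDegree_X_pow, natDegree_pow, ← (key d le_rfl hβ).1]
      have := Nat.mul_le_mul_left g dQ
      have := Nat.div_add_mod d g
      omega) (fun n => by
      have s : z (n + 1) * t n ^ (e' * (d₁ / g)) =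
          z n ^ (d₁ % g) * Q.eval (z n ^ g * t n ^ e') := by
        rw [hz, hQ, eval_finsetSum, Finset.sum_mul, Finset.mul_sum]
        refine Finset.sum_congr rfl fun i a => ?_
        rcases eq_or_ne (β i) 0 with b | b
        · simp [b]
        obtain ⟨k1, k2⟩ := key i (Nat.lt_succ_iff.1 (Finset.mem_range.1 a)) b
        have k3 : t n ^ m i * t n ^ (e' * (d₁ / g)) = t n ^ (e' * (i / g)) := by
          rw [← zpow_natCast, ← zpow_add₀ (ht n), k2, zpow_natCast]
        have k4 : z n ^ i = z n ^ (d₁ % g) * z n ^ (g * (i / g)) := by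
          rw [← pow_add, ← k1, Nat.mod_add_div]
        rw [eval_mul, eval_C, eval_pow, eval_X, mul_pow, ← pow_mul, ← pow_mul, ← k3, k4]
        ring
      have s' := congrArg (· ^ g) s
      have k : t n ^ d₁ = t n ^ (d₁ % g) * t n ^ (g * (d₁ / g)) := by
        rw [← pow_add, Nat.mod_add_div]
      simp only [eval_mul, eval_C, eval_pow, eval_X, hrec, k]
      linear_combination l ^ e' * (t n ^ e') ^ (d₁ % g) * s') fun n => by
      have a := logHeight₁_mul_le (z n ^ g) (t n ^ e')
      rw [logHeight₁_pow, logHeight₁_pow] at a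
      have b := mul_le_mul_of_nonneg_left (hc n) (by positivity : (0 : ℝ) ≤ g + e')
      have := mul_nonneg (Nat.cast_nonneg (α := ℝ) g) (zero_le_logHeight₁ (t n))
      have := mul_nonneg (Nat.cast_nonneg (α := ℝ) e') (zero_le_logHeight₁ (z n))
      linarith
  refine (F.image (· ^ G)).subset ?_
  rintro _ ⟨n, rfl⟩
  exact ⟨_, ⟨n, rfl⟩, by simp only [hg, mul_pow, pow_mul]⟩

end Pool.Agent.KSkew
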