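import Pool.Agent.MP_c8dfda_nt.Core2

/-
Row SPLIT: separating the conjugates of the roots in an open disc.
-/

open Polynomial

namespace Pool.Agent.KSkew

namespace Split

theorem conj {L E A : Type} [Field L] [Field E] [Field A] [Algebra L E] [Algebra E A]
    [Algebra L A] [IsScalarTower L E A] [FiniteDimensional L E] (N : AbsoluteValue A ℝ)
    (hN : ∀ β β' : A, IsIntegral L β → minpoly L β = minpoly L β' → N β = N β')
    (f : E[X]) (hf : Irreducible f) (r r' : A) (hr : aeval r f = 0) (hr' : aeval r' f = 0)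
    (R : E[X]) : N (aeval r R) = N (aeval r' R) := by
  have hm : minpoly E r = minpoly E r' :=
    (minpoly.eq_of_irreducible hf hr).symm.trans (minpoly.eq_of_irreducible hf hr')
  have hi : IsIntegral E r := (IsAlgebraic.isIntegral ⟨f, hf.ne_zero, hr⟩)
  have h1 : IsIntegral E (aeval r R) :=
    IsIntegral.of_mem_of_fg _ hi.fg_adjoin_singleton _ (aeval_mem_adjoin_singleton E r)
  have h2 : IsIntegral L (aeval r R) := isIntegral_trans _ h1
  refine hN _ _ h2 (minpoly.eq_of_irreducible_of_monic (minpoly.irreducible h2) ?_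
    (minpoly.monic h2))
  have h3 : aeval r (((minpoly L (aeval r R)).map (algebraMap L E)).comp R) = 0 := by
    rw [aeval_comp, aeval_map_algebraMap, minpoly.aeval]
  obtain ⟨k, hk⟩ := minpoly.dvd E r h3
  rw [← aeval_map_algebraMap E, ← aeval_comp, hk, hm, map_mul, minpoly.aeval, zero_mul]

end Split

theorem split : S_SPLIT := by
  intro L E A _ _ _ _ _ _ _ _ N hN z ρ P
  refine WfDvdMonoid.induction_on_irreducible P (fun h => (h rfl).elim) (fun u hu _ => ?_)
    fun a f ha hf ih _ => ?_
  · refine ⟨1, u, monic_one, (one_mul u).symm, fun r hr => ?_, fun r hr => ?_⟩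
    · rw [map_one] at hr
      exact (one_ne_zero hr).elim
    · exact ((hu.map (aeval r)).ne_zero hr).elim
  · obtain ⟨F, G, hF, hP, h1, h2⟩ := ih ha
    have h3 : ∀ r : A, aeval r F = 0 → ∃ r' : A, aeval r' (f * a) = 0 ∧ N (z - r') < ρ ∧
        ∀ R : E[X], N (aeval r R) = N (aeval r' R) := by
      intro r hr
      obtain ⟨r', e1, e2, e3⟩ := h1 r hr
      exact ⟨r', by rw [map_mul, e1, mul_zero], e2, e3⟩
    have hl : f.leadingCoeff ≠ 0 := leadingCoeff_ne_zero.2 hf.ne_zero
    by_cases h : ∃ r' : A, aeval r' f = 0 ∧ N (z - r') < ρ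
    · obtain ⟨r', e1, e2⟩ := h
      refine ⟨f * C f.leadingCoeff⁻¹ * F, C f.leadingCoeff * G,
        (monic_mul_leadingCoeff_inv hf.ne_zero).mul hF, ?_, fun r hr => ?_, fun r hr => ?_⟩
      · have : C f.leadingCoeff⁻¹ * C f.leadingCoeff = 1 := by
          rw [← C_mul, inv_mul_cancel₀ hl, C_1]
        rw [hP]
        linear_combination (-(f * F * G)) * this
      · rw [map_mul, map_mul, aeval_C, mul_eq_zero, mul_eq_zero] at hr
        rcases hr with (hr | hr) | hr
        · exact ⟨r', by rw [map_mul, e1, zero_mul], e2,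
            fun R => Split.conj N hN f hf r r' hr e1 R⟩
        · exact (inv_ne_zero hl ((map_eq_zero _).1 hr)).elim
        · exact h3 r hr
      · rw [map_mul, aeval_C, mul_eq_zero] at hr
        rcases hr with hr | hr
        · exact (hl ((map_eq_zero _).1 hr)).elim
        · exact h2 r hr
    · refine ⟨F, f * G, hF, by rw [hP]; ring, h3, fun r hr => ?_⟩
      rw [map_mul, mul_eq_zero] at hr
      rcases hr with hr | hr
      · exact not_lt.1 fun h' => h ⟨r, hr, h'⟩
      · exact h2 r hr

end Pool.Agent.KSkew
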