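import Mathlib.Tactic.Monotonicity.Lemmas
import Pool.Agent.MP_c8dfda_nt.Core2

/-
Row TOP: growth of degrees and heights along a triangular map, and the final squeeze.
-/

open Polynomial Filter Height
open scoped Polynomial.Bivariate Topology

namespace Pool.Agent.KSkew
namespace TOP

theorem squeeze (u : ℕ → ℝ) (δ c C : ℝ) (hδ : 0 < δ) (hc : 0 < c) (hC : 0 < C)
    (hl : ∀ᶠ n in atTop, c * δ ^ n ≤ u n)
    (hu : ∀ n : ℕ, u n ≤ C * ((n : ℝ) + 1) ^ 2 * δ ^ n) :
    Tendsto (fun n : ℕ => u n ^ (1 / (n : ℝ))) atTop (𝓝 δ) := by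
  have h0 : Tendsto (fun n : ℕ => 1 / (n : ℝ)) atTop (𝓝 0) :=
    tendsto_one_div_atTop_nhds_zero_nat
  have hcst : ∀ a : ℝ, 0 < a → Tendsto (fun n : ℕ => a ^ (1 / (n : ℝ))) atTop (𝓝 1) := by
    intro a ha
    have := (tendsto_const_nhds (x := a)).rpow h0 (Or.inl ha.ne')
    rwa [Real.rpow_zero] at this
  have hp : Tendsto (fun n : ℕ => (((n : ℝ) + 1) ^ 2) ^ (1 / (n : ℝ))) atTop (𝓝 1) := by
    have h1 := (tendsto_rpow_div_mul_add 2 1 (-1) zero_ne_one).comp
      (tendsto_atTop_add_const_right atTop (1 : ℝ) tendsto_natCast_atTop_atTop)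
    refine h1.congr fun n => ?_
    simp only [Function.comp]
    rw [← Real.rpow_natCast, ← Real.rpow_mul (by positivity)]
    have : (2 : ℝ) / (1 * ((n : ℝ) + 1) + -1) = ((2 : ℕ) : ℝ) * (1 / (n : ℝ)) := by
      push_cast; ring
    rw [this]
  have hlo : Tendsto (fun n : ℕ => c ^ (1 / (n : ℝ)) * δ) atTop (𝓝 δ) := by
    have := (hcst c hc).mul_const δ
    rwa [one_mul] at this
  have hup : Tendsto (fun n : ℕ => C ^ (1 / (n : ℝ)) * (((n : ℝ) + 1) ^ 2) ^ (1 / (n : ℝ)) * δ)
      atTop (𝓝 δ) := by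
    have := ((hcst C hC).mul hp).mul_const δ
    rwa [one_mul, one_mul] at this
  have hpow : ∀ n : ℕ, n ≠ 0 → (δ ^ n) ^ (1 / (n : ℝ)) = δ := by
    intro n hn
    rw [one_div]
    exact Real.pow_rpow_inv_natCast hδ.le hn
  refine tendsto_of_tendsto_of_tendsto_of_le_of_le' hlo hup ?_ ?_
  · filter_upwards [hl, eventually_ne_atTop 0] with n h1 hn
    calc c ^ (1 / (n : ℝ)) * δ = (c * δ ^ n) ^ (1 / (n : ℝ)) := by
          rw [Real.mul_rpow hc.le (by positivity), hpow n hn]
      _ ≤ u n ^ (1 / (n : ℝ)) := Real.rpow_le_rpow (by positivity) h1 (by positivity)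
  · filter_upwards [hl, eventually_ne_atTop 0] with n h1 hn
    have h2 : 0 ≤ u n := le_trans (by positivity) h1
    calc u n ^ (1 / (n : ℝ)) ≤ (C * ((n : ℝ) + 1) ^ 2 * δ ^ n) ^ (1 / (n : ℝ)) :=
          Real.rpow_le_rpow h2 (hu n) (by positivity)
      _ = _ := by
          rw [Real.mul_rpow (by positivity) (by positivity),
            Real.mul_rpow hC.le (by positivity), hpow n hn]

theorem rec_bound (u : ℕ → ℝ) (δ B : ℝ) (k : ℕ) (hδ : 1 ≤ δ) (hB : 0 ≤ B) (h0 : u 0 ≤ B)
    (h : ∀ n : ℕ, u (n + 1) ≤ δ * u n + B * ((n : ℝ) + 1) ^ k * δ ^ n) (n : ℕ) :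
    u n ≤ B * ((n : ℝ) + 1) ^ (k + 1) * δ ^ n := by
  induction n with
  | zero => simpa using h0
  | succ n ih =>
    have hδ0 : 0 ≤ δ := le_trans zero_le_one hδ
    have h1 : δ * u n ≤ δ * (B * ((n : ℝ) + 1) ^ (k + 1) * δ ^ n) :=
      mul_le_mul_of_nonneg_left ih hδ0
    have h2 : B * ((n : ℝ) + 1) ^ k * δ ^ n ≤ δ * (B * ((n : ℝ) + 1) ^ k * δ ^ n) :=
      le_mul_of_one_le_left (by positivity) hδ
    have h3 : ((n : ℝ) + 1) ^ k ≤ ((n : ℝ) + 1 + 1) ^ k :=
      pow_le_pow_left₀ (by positivity) (by linarith) k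
    have h4 : B * (((n : ℝ) + 1) ^ k * ((n : ℝ) + 1 + 1)) * δ ^ (n + 1) ≤
        B * (((n : ℝ) + 1 + 1) ^ k * ((n : ℝ) + 1 + 1)) * δ ^ (n + 1) := by
      gcongr
    calc u (n + 1) ≤ δ * u n + B * ((n : ℝ) + 1) ^ k * δ ^ n := h n
      _ ≤ δ * (B * ((n : ℝ) + 1) ^ (k + 1) * δ ^ n) + δ * (B * ((n : ℝ) + 1) ^ k * δ ^ n) :=
          add_le_add h1 h2
      _ = B * (((n : ℝ) + 1) ^ k * ((n : ℝ) + 1 + 1)) * δ ^ (n + 1) := by ring
      _ ≤ B * (((n : ℝ) + 1 + 1) ^ k * ((n : ℝ) + 1 + 1)) * δ ^ (n + 1) := h4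
      _ = B * ((((n + 1 : ℕ) : ℝ)) + 1) ^ (k + 1) * δ ^ (n + 1) := by push_cast; ring

variable {K : Type} [Field K]

theorem td_aeval (A : MvPolynomial (Fin 2) K) (r : K[X]) :
    (aeval A r).totalDegree ≤ r.natDegree * A.totalDegree := by
  rw [aeval_eq_sum_range]
  refine MvPolynomial.totalDegree_finsetSum_le fun i hi => ?_
  refine (MvPolynomial.totalDegree_smul_le _ _).trans
    ((MvPolynomial.totalDegree_pow _ _).trans ?_)
  exact Nat.mul_le_mul_right _ (Nat.lt_succ_iff.mp (Finset.mem_range.mp hi))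

theorem aa_sum {A : Type} [CommRing A] [Algebra K A] (a b : A) (q : K[X][Y]) :
    aevalAeval a b q = ∑ j ∈ Finset.range (q.natDegree + 1), aeval a (q.coeff j) * b ^ j := by
  conv_lhs => rw [q.as_sum_range_C_mul_X_pow]
  rw [map_sum]
  refine Finset.sum_congr rfl fun j _ => ?_
  rw [map_mul, map_pow, aevalAeval_C, aevalAeval_Y]

theorem td_aa (q : K[X][Y]) : ∃ e : ℕ, ∀ A B : MvPolynomial (Fin 2) K,
    (aevalAeval A B q).totalDegree ≤ e * A.totalDegree + q.natDegree * B.totalDegree := by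
  refine ⟨(Finset.range (q.natDegree + 1)).sup fun j => (q.coeff j).natDegree, fun A B => ?_⟩
  rw [aa_sum]
  refine MvPolynomial.totalDegree_finsetSum_le fun j hj => ?_
  refine (MvPolynomial.totalDegree_mul _ _).trans (add_le_add ?_ ?_)
  · exact (td_aeval _ _).trans (Nat.mul_le_mul_right _
      (Finset.le_sup (f := fun j => (q.coeff j).natDegree) hj))
  · exact (MvPolynomial.totalDegree_pow _ _).trans
      (Nat.mul_le_mul_right _ (Nat.lt_succ_iff.mp (Finset.mem_range.mp hj)))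

theorem nd_le (S : Type) [CommRing S] [Algebra K S] (f : Fin 2 → S[X])
    (hf : ∀ i, (f i).natDegree ≤ 1) (G : MvPolynomial (Fin 2) K) :
    (MvPolynomial.aeval f G).natDegree ≤ G.totalDegree := by
  have h1 : (MvPolynomial.map (algebraMap K S) G).totalDegree ≤ G.totalDegree :=
    Finset.sup_mono (MvPolynomial.support_map_subset _ _)
  have h2 := MvPolynomial.aeval_natDegree_le _ h1 f hf
  rwa [MvPolynomial.aeval_map_algebraMap, mul_one] at h2

theorem aeval_C_eq (r a : K[X]) : aeval (C r : K[X][Y]) a = C (a.comp r) := by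
  rw [comp_eq_aeval]
  exact aeval_algebraMap_apply K[X][Y] r a

theorem aa_comp (r : K[X]) (Q q : K[X][Y]) :
    aevalAeval (C r) Q q = (q.map (compRingHom r)).comp Q := by
  induction q using Polynomial.induction_on' with
  | add a b ha hb => rw [map_add, Polynomial.map_add, add_comp, ha, hb]
  | monomial n a =>
    rw [map_monomial, ← C_mul_X_pow_eq_monomial, ← C_mul_X_pow_eq_monomial, map_mul, map_pow,
      aevalAeval_C, aevalAeval_Y, mul_comp, C_comp, pow_comp, X_comp, aeval_C_eq]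
    rfl

theorem comp_inj (r : K[X]) (hr : r.natDegree ≠ 0) : Function.Injective (compRingHom r) := by
  rw [injective_iff_map_eq_zero]
  intro a ha
  have ha' : a.comp r = 0 := ha
  rcases comp_eq_zero_iff.mp ha' with h | ⟨-, h⟩
  · exact h
  · exact absurd (by rw [h, natDegree_C]) hr

theorem map_aa {A B : Type} [CommRing A] [Algebra K A] [CommRing B] [Algebra K B]
    (φ : A →ₐ[K] B) (a b : A) (q : K[X][Y]) :
    φ (aevalAeval a b q) = aevalAeval (φ a) (φ b) q := by
  rw [aa_sum, aa_sum, map_sum]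
  refine Finset.sum_congr rfl fun j _ => ?_
  rw [map_mul, map_pow, aeval_algHom_apply]

theorem aeval_equiv {A : Type} [CommRing A] [Algebra K A] (a : Fin 2 → A) (q : K[X][Y]) :
    MvPolynomial.aeval a (Bivariate.equivMvPolynomial K q) = aevalAeval (a 0) (a 1) q := by
  have h : Bivariate.equivMvPolynomial K q =
      aevalAeval (MvPolynomial.X 0) (MvPolynomial.X 1) q := rfl
  rw [h, map_aa, MvPolynomial.aeval_X, MvPolynomial.aeval_X]

theorem exists_p (G : MvPolynomial (Fin 2) K) (hG : G.degreeOf 1 = 0) :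
    ∃ p : K[X], G = aeval (MvPolynomial.X 0) p := by
  refine ⟨MvPolynomial.aeval ![X, 0] G, ?_⟩
  have h := MvPolynomial.hom_congr_vars (f₁ := RingHom.id (MvPolynomial (Fin 2) K))
    (f₂ := (((aeval (MvPolynomial.X 0 : MvPolynomial (Fin 2) K)).comp
      (MvPolynomial.aeval ![(X : K[X]), 0]) : MvPolynomial (Fin 2) K →ₐ[K] _) :
        MvPolynomial (Fin 2) K →+* MvPolynomial (Fin 2) K))
    (p₁ := G) (p₂ := G) (by ext1 c; simp) (fun i hi _ => ?_) rfl
  · exact h
  · fin_cases i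
    · simp
    · exact absurd hG (MvPolynomial.mem_vars_iff_degreeOf_ne_zero.mp hi)

theorem deg_part (F : Fin 2 → MvPolynomial (Fin 2) K) (p : K[X]) (q : K[X][Y])
    (hp : F 0 = aeval (MvPolynomial.X 0) p) (hq : F 1 = Bivariate.equivMvPolynomial K q)
    (hd : 1 ≤ p.natDegree) :
    Tendsto (fun n : ℕ =>
        ((max ((fun G i => MvPolynomial.bind₁ G (F i))^[n] MvPolynomial.X 0).totalDegree
          ((fun G i => MvPolynomial.bind₁ G (F i))^[n] MvPolynomial.X 1).totalDegree : ℕ) : ℝ)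
            ^ (1 / (n : ℝ))) atTop (𝓝 ((max p.natDegree q.natDegree : ℕ) : ℝ)) := by
  set G : ℕ → Fin 2 → MvPolynomial (Fin 2) K :=
    fun n => (fun G i => MvPolynomial.bind₁ G (F i))^[n] MvPolynomial.X with hG
  have G0 : G 0 = MvPolynomial.X := rfl
  have Gs : ∀ n i, G (n + 1) i = MvPolynomial.aeval (G n) (F i) := by
    intro n i
    simp only [hG, Function.iterate_succ_apply']
    rfl
  have Gs0 : ∀ n, G (n + 1) 0 = aeval (G n 0) p := by
    intro n
    rw [Gs, hp, ← aeval_algHom_apply, MvPolynomial.aeval_X]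
  have Gs1 : ∀ n, G (n + 1) 1 = aevalAeval (G n 0) (G n 1) q := by
    intro n
    rw [Gs, hq, aeval_equiv]
  have hr : ∀ n, ∃ r : K[X], G n 0 = aeval (MvPolynomial.X 0) r ∧
      r.natDegree = p.natDegree ^ n := by
    intro n
    induction n with
    | zero => exact ⟨X, by simp [G0], by simp⟩
    | succ n ih =>
      obtain ⟨r, h1, h2⟩ := ih
      exact ⟨p.comp r, by rw [Gs0, h1, aeval_comp], by rw [natDegree_comp, h2, pow_succ']⟩
  have s_le : ∀ n, (G n 0).totalDegree ≤ p.natDegree ^ n := by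
    intro n
    obtain ⟨r, h1, h2⟩ := hr n
    have := td_aeval (MvPolynomial.X 0) r
    rwa [← h1, h2, MvPolynomial.totalDegree_X, mul_one] at this
  have le_s : ∀ n, p.natDegree ^ n ≤ (G n 0).totalDegree := by
    intro n
    obtain ⟨r, h1, h2⟩ := hr n
    have := nd_le K ![X, 0] (fun i => by fin_cases i <;> simp) (G n 0)
    rw [h1, ← aeval_algHom_apply, MvPolynomial.aeval_X] at this
    rw [h1, ← h2]
    simpa using this
  have hQ : ∀ n, (MvPolynomial.aeval ![(C X : K[X][Y]), X] (G n 1)).natDegree =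
      q.natDegree ^ n := by
    intro n
    induction n with
    | zero => simp [G0]
    | succ n ih =>
      obtain ⟨r, h1, h2⟩ := hr n
      have h3 : MvPolynomial.aeval ![(C X : K[X][Y]), X] (G n 0) = C r := by
        rw [h1, ← aeval_algHom_apply, MvPolynomial.aeval_X]
        have := aeval_C_eq X r
        rw [comp_X] at this
        exact this
      have h4 : r.natDegree ≠ 0 := by rw [h2]; positivity
      rw [Gs1, map_aa, h3, aa_comp, natDegree_comp, ih,
        natDegree_map_eq_of_injective (comp_inj r h4), pow_succ']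
  have le_t : ∀ n, q.natDegree ^ n ≤ (G n 1).totalDegree := by
    intro n
    rw [← hQ]
    exact nd_le K[X] _ (fun i => by fin_cases i <;> simp) _
  obtain ⟨e, he⟩ := td_aa q
  set δ : ℕ := max p.natDegree q.natDegree with hδ
  have hδ1 : 1 ≤ δ := hd.trans (le_max_left _ _)
  have hδ1' : (1 : ℝ) ≤ δ := by exact_mod_cast hδ1
  have sδ : ∀ n, (G n 0).totalDegree ≤ δ ^ n := fun n =>
    (s_le n).trans (Nat.pow_le_pow_left (le_max_left _ _) n)
  have t_le := rec_bound (fun n => ((G n 1).totalDegree : ℝ)) δ ((e : ℝ) + 1) 1 hδ1'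
    (by positivity) (by simp [G0]) (fun n => by
      have h1 : (G (n + 1) 1).totalDegree ≤ e * δ ^ n + δ * (G n 1).totalDegree := by
        rw [Gs1]
        exact (he _ _).trans (add_le_add (Nat.mul_le_mul_left _ (sδ n))
          (Nat.mul_le_mul_right _ (le_max_right _ _)))
      have h2 : ((G (n + 1) 1).totalDegree : ℝ) ≤ e * (δ : ℝ) ^ n + δ * (G n 1).totalDegree := by
        exact_mod_cast h1
      have h3 : (e : ℝ) ≤ ((e : ℝ) + 1) * ((n : ℝ) + 1) ^ 1 := by
        have : (0 : ℝ) ≤ n := Nat.cast_nonneg n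
        have : (0 : ℝ) ≤ e := Nat.cast_nonneg e
        nlinarith
      have h4 : (e : ℝ) * (δ : ℝ) ^ n ≤ ((e : ℝ) + 1) * ((n : ℝ) + 1) ^ 1 * (δ : ℝ) ^ n :=
        mul_le_mul_of_nonneg_right h3 (by positivity)
      linarith)
  refine squeeze (fun n => ((max (G n 0).totalDegree (G n 1).totalDegree : ℕ) : ℝ)) δ 1
    ((e : ℝ) + 1) (by linarith) one_pos (by positivity) (Eventually.of_forall fun n => ?_)
    fun n => ?_
  · rw [one_mul]
    have : δ ^ n ≤ max (G n 0).totalDegree (G n 1).totalDegree := by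
      rcases max_cases p.natDegree q.natDegree with ⟨h, -⟩ | ⟨h, -⟩
      · rw [hδ, h]; exact (le_s n).trans (le_max_left _ _)
      · rw [hδ, h]; exact (le_t n).trans (le_max_right _ _)
    exact_mod_cast this
  · rw [Nat.cast_max]
    refine max_le ?_ (t_le n)
    have h1 : ((G n 0).totalDegree : ℝ) ≤ (δ : ℝ) ^ n := by exact_mod_cast sδ n
    refine h1.trans (le_mul_of_one_le_left (by positivity) ?_)
    have : (0 : ℝ) ≤ n := Nat.cast_nonneg n
    have : (0 : ℝ) ≤ e := Nat.cast_nonneg e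
    nlinarith [sq_nonneg (n : ℝ), mul_nonneg this (sq_nonneg ((n : ℝ) + 1))]

variable [NumberField K]

theorem h3_le (a b : K) : logHeight ![a, b, 1] ≤ logHeight₁ a + logHeight₁ b := by
  have h : (![a, b, 1] : Fin 3 → K) = (![a, 1] ∘ ![0, 1, 1]) * (![b, 1] ∘ ![1, 0, 1]) := by
    ext i; fin_cases i <;> simp
  rw [h, logHeight₁_eq_logHeight, logHeight₁_eq_logHeight]
  exact (logHeight_mul_le _ _).trans (add_le_add (logHeight_comp_le _ _) (logHeight_comp_le _ _))

theorem le_h3_left (a b : K) : logHeight₁ a ≤ logHeight ![a, b, 1] := by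
  have h : (![a, 1] : Fin 2 → K) = ![a, b, 1] ∘ ![0, 2] := by
    ext i; fin_cases i <;> simp
  rw [logHeight₁_eq_logHeight, h]
  exact logHeight_comp_le _ _

theorem le_h3_right (a b : K) : logHeight₁ b ≤ logHeight ![a, b, 1] := by
  have h : (![b, 1] : Fin 2 → K) = ![a, b, 1] ∘ ![1, 2] := by
    ext i; fin_cases i <;> simp
  rw [logHeight₁_eq_logHeight]
  exact (le_of_eq (congrArg logHeight h)).trans (logHeight_comp_le _ _)

theorem one_var (h4 : S_HQ) (p : K[X]) (hp : p ≠ 0) : ∃ c : ℝ, 0 ≤ c ∧ ∀ b : K,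
    logHeight₁ (p.eval b) ≤ p.natDegree * logHeight₁ b + c ∧
      p.natDegree * logHeight₁ b ≤ logHeight₁ (p.eval b) + c := by
  obtain ⟨c, hc, h⟩ := h4 K (p.map C)
  refine ⟨c, hc, fun b => ?_⟩
  obtain ⟨h1, h2⟩ := h 0 b
  have e1 : (p.map C).natDegree = p.natDegree := natDegree_map_eq_of_injective C_injective p
  have e2 : (p.map C).evalEval 0 b = p.eval b := evalEval_map_C 0 b p
  have e3 : (p.map C).leadingCoeff.eval 0 ≠ 0 := by
    rw [leadingCoeff_map_of_injective C_injective, eval_C]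
    exact leadingCoeff_ne_zero.mpr hp
  have h2' := h2 e3
  rw [e1, e2, logHeight₁_zero, zero_add, mul_one] at h1 h2'
  exact ⟨h1, h2'⟩

theorem height_part (h4 : S_HQ) (h5 : S_MAIN) (p : K[X]) (q : K[X][Y]) (x y : ℕ → K)
    (ho : Orb p q x y) (hz : ZDense x y) (hx : Function.Injective x) (hd : 1 ≤ p.natDegree)
    (hδ2 : 1 < max p.natDegree q.natDegree) :
    Tendsto (fun n : ℕ => logHeight ![x n, y n, 1] ^ (1 / (n : ℝ))) atTop
      (𝓝 ((max p.natDegree q.natDegree : ℕ) : ℝ)) := by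
  have hp : p ≠ 0 := by
    rintro rfl
    simp at hd
  obtain ⟨c₀, hc₀, h₀⟩ := one_var h4 p hp
  obtain ⟨c, hc, h₁⟩ := h4 K q
  set δ : ℕ := max p.natDegree q.natDegree with hδ
  have hδ1' : (1 : ℝ) ≤ δ := by exact_mod_cast hδ2.le
  have hpδ : (p.natDegree : ℝ) ≤ δ := by exact_mod_cast le_max_left _ _
  have hqδ : (q.natDegree : ℝ) ≤ δ := by exact_mod_cast le_max_right _ _
  have hx0 := zero_le_logHeight₁ (x 0)
  have hy0 := zero_le_logHeight₁ (y 0)
  have hxu := rec_bound (fun n => logHeight₁ (x n)) δ (logHeight₁ (x 0) + c₀) 0 hδ1'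
    (by positivity) (by linarith) (fun n => by
      have h1 := (h₀ (x n)).1
      rw [← ho.1] at h1
      have h2 : (p.natDegree : ℝ) * logHeight₁ (x n) ≤ δ * logHeight₁ (x n) :=
        mul_le_mul_of_nonneg_right hpδ (zero_le_logHeight₁ _)
      have h3 : logHeight₁ (x 0) + c₀ ≤ (logHeight₁ (x 0) + c₀) * (δ : ℝ) ^ n :=
        le_mul_of_one_le_right (by positivity) (one_le_pow₀ hδ1')
      rw [pow_zero, mul_one]
      linarith)
  set A : ℝ := logHeight₁ (x 0) + c₀ with hA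
  have hA0 : 0 ≤ A := by positivity
  have hyu := rec_bound (fun n => logHeight₁ (y n)) δ (logHeight₁ (y 0) + c * (A + 1)) 1 hδ1'
    (by positivity) (le_add_of_nonneg_right (by positivity)) (fun n => by
      have h1 := (h₁ (x n) (y n)).1
      rw [← ho.2] at h1
      have h2 : (q.natDegree : ℝ) * logHeight₁ (y n) ≤ δ * logHeight₁ (y n) :=
        mul_le_mul_of_nonneg_right hqδ (zero_le_logHeight₁ _)
      have h3 := hxu n
      rw [zero_add] at h3
      have h6 : (1 : ℝ) ≤ ((n : ℝ) + 1) ^ 1 * (δ : ℝ) ^ n := by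
        have : (0 : ℝ) ≤ n := Nat.cast_nonneg n
        exact one_le_mul_of_one_le_of_one_le (by rw [pow_one]; linarith) (one_le_pow₀ hδ1')
      have h7 : c * (logHeight₁ (x n) + 1) ≤ c * ((A + 1) * (((n : ℝ) + 1) ^ 1 * (δ : ℝ) ^ n)) :=
        mul_le_mul_of_nonneg_left (by nlinarith) hc
      have h8 : 0 ≤ logHeight₁ (y 0) * (((n : ℝ) + 1) ^ 1 * (δ : ℝ) ^ n) := by positivity
      nlinarith)
  set B : ℝ := logHeight₁ (y 0) + c * (A + 1) with hB
  have hB0 : 0 ≤ B := by positivity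
  have hup : ∀ n : ℕ, logHeight ![x n, y n, 1] ≤ (A + B + 1) * ((n : ℝ) + 1) ^ 2 * (δ : ℝ) ^ n := by
    intro n
    have h1 := h3_le (x n) (y n)
    have h2 := hxu n
    have h3 := hyu n
    have hn : (0 : ℝ) ≤ n := Nat.cast_nonneg n
    have h6 : ((n : ℝ) + 1) ^ (0 + 1) ≤ ((n : ℝ) + 1) ^ 2 :=
      pow_le_pow_right₀ (by linarith) (by norm_num)
    have h7 : A * ((n : ℝ) + 1) ^ (0 + 1) * (δ : ℝ) ^ n ≤ A * ((n : ℝ) + 1) ^ 2 * (δ : ℝ) ^ n := by
      gcongr
    have h8 : 0 ≤ ((n : ℝ) + 1) ^ 2 * (δ : ℝ) ^ n := by positivity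
    have h9 : ((n : ℝ) + 1) ^ (1 + 1) = ((n : ℝ) + 1) ^ 2 := rfl
    rw [h9] at h3
    nlinarith
  have hlo : ∃ c' : ℝ, 0 < c' ∧ ∀ᶠ n in atTop, c' * (δ : ℝ) ^ n ≤ logHeight ![x n, y n, 1] := by
    rcases lt_or_ge p.natDegree q.natDegree with h | h
    · obtain ⟨c', hc', h'⟩ := h5 K p q x y ho hz hd h
      refine ⟨c', hc', h'.mono fun n hn => ?_⟩
      rw [hδ, max_eq_right h.le]
      exact hn.trans (le_h3_right _ _)
    · have hδp : δ = p.natDegree := max_eq_left h
      have h2 : (2 : ℝ) ≤ δ := by exact_mod_cast hδ2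
      obtain ⟨m, hm⟩ : ∃ m, c₀ < logHeight₁ (x m) := by
        by_contra hcon
        push Not at hcon
        have hfin := NumberField.finite_setOfPred_logHeight₁_le K c₀
        exact Set.infinite_range_of_injective hx (hfin.subset (by rintro _ ⟨n, rfl⟩; exact hcon n))
      have hk : ∀ k : ℕ, (logHeight₁ (x m) - c₀) * (δ : ℝ) ^ k ≤ logHeight₁ (x (m + k)) - c₀ := by
        intro k
        induction k with
        | zero => simp
        | succ k ih =>
          have h1 := (h₀ (x (m + k))).2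
          rw [← ho.1, ← hδp] at h1
          have h3 := mul_le_mul_of_nonneg_left ih (by linarith : (0 : ℝ) ≤ δ)
          have h6 : 2 * c₀ ≤ δ * c₀ := mul_le_mul_of_nonneg_right h2 hc₀
          rw [pow_succ, ← add_assoc]
          nlinarith
      refine ⟨(logHeight₁ (x m) - c₀) / (δ : ℝ) ^ m, div_pos (by linarith) (by positivity), ?_⟩
      filter_upwards [eventually_ge_atTop m] with n hn
      obtain ⟨k, rfl⟩ := Nat.exists_eq_add_of_le hn
      have h1 : (logHeight₁ (x m) - c₀) / (δ : ℝ) ^ m * (δ : ℝ) ^ (m + k) =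
          (logHeight₁ (x m) - c₀) * (δ : ℝ) ^ k := by
        have : (δ : ℝ) ^ m ≠ 0 := by positivity
        rw [pow_add]; field_simp
      rw [h1]
      have := hk k
      have := le_h3_left (x (m + k)) (y (m + k))
      linarith
  obtain ⟨c', hc', h'⟩ := hlo
  exact squeeze _ δ c' (A + B + 1) (by linarith) hc' (by positivity) h' hup

end TOP

theorem top (h2 : S_INJ) (h4 : S_HQ) (h5 : S_MAIN) : S_FINAL := by
  intro K _ _ F hF P hP
  obtain ⟨p, hp⟩ := TOP.exists_p (F 0) hF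
  obtain ⟨q, hq⟩ := (Bivariate.equivMvPolynomial K).surjective (F 1)
  set Pt : ℕ → Fin 2 → K := fun n => (fun a i => MvPolynomial.eval a (F i))^[n] P with hPt
  have Ps : ∀ n i, Pt (n + 1) i = MvPolynomial.aeval (Pt n) (F i) := by
    intro n i
    simp only [hPt, Function.iterate_succ_apply']
    rfl
  have ho : Orb p q (fun n => Pt n 0) (fun n => Pt n 1) := by
    refine ⟨fun n => ?_, fun n => ?_⟩
    · show Pt (n + 1) 0 = _
      rw [Ps, hp, ← aeval_algHom_apply, MvPolynomial.aeval_X, coe_aeval_eq_eval]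
    · show Pt (n + 1) 1 = _
      rw [Ps, ← hq, TOP.aeval_equiv, coe_aevalAeval_eq_evalEval]
  have hz : ZDense (fun n => Pt n 0) (fun n => Pt n 1) := by
    intro R hR
    have h := hP (Bivariate.equivMvPolynomial K R) fun n => by
      have h1 := TOP.aeval_equiv (Pt n) R
      rw [coe_aevalAeval_eq_evalEval, hR n] at h1
      exact h1
    exact (Bivariate.equivMvPolynomial K).injective (by rw [h, map_zero])
  have hx := h2 K p q _ _ ho hz
  have hd : 1 ≤ p.natDegree := by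
    by_contra hcon
    have h0 : p.natDegree = 0 := by omega
    have h1 := ho.1 0
    have h3 := ho.1 1
    rw [eq_C_of_natDegree_eq_zero h0, eval_C] at h1 h3
    have := hx (h1.trans h3.symm)
    omega
  refine ⟨((max p.natDegree q.natDegree : ℕ) : ℝ), TOP.deg_part F p q hp hq.symm hd, fun h => ?_⟩
  exact TOP.height_part h4 h5 p q _ _ ho hz hx hd (by exact_mod_cast h)

end Pool.Agent.KSkew
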