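import Mathlib.Combinatorics.Hindman
import Pool.Agent.MP_c8dfda_nt.Core2

/-
A recurrent ultrafilter, injectivity of the first coordinate of a dense orbit, and the weak
dynamical Mordell-Lang property.
-/

open Polynomial Filter
open scoped Polynomial.Bivariate

namespace Pool.Agent.KSkew

namespace UF

theorem fs_pos {a : Stream' ℕ} {m : ℕ} (hm : Hindman.FS a m) (ha : ∀ i, 1 ≤ a.get i) : 1 ≤ m := by
  induction hm with
  | head' a => exact ha 0
  | tail' a m _ ih => exact ih fun i => ha (i + 1)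
  | cons' a m _ _ => exact le_add_right (ha 0)

variable {K : Type} [Field K] {p : K[X]} {q : K[X][Y]} {x y : ℕ → K}

theorem prod_ne (x : ℕ → K) (n : ℕ) :
    (C (∏ i ∈ Finset.range n, (X - C (x i))) : K[X][Y]) ≠ 0 :=
  C_ne_zero.2 (monic_prod_of_monic _ _ fun i _ => monic_X_sub_C (x i)).ne_zero

theorem prod_ev (x : ℕ → K) {n j : ℕ} (hj : j < n) (b : K) :
    (C (∏ i ∈ Finset.range n, (X - C (x i))) : K[X][Y]).evalEval (x j) b = 0 := by
  rw [evalEval_C, eval_prod]
  exact Finset.prod_eq_zero (Finset.mem_range.2 hj) (by simp)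

theorem tail (hd : ZDense x y) (P : K[X][Y]) (n₀ : ℕ)
    (h : ∀ n, n₀ ≤ n → P.evalEval (x n) (y n) = 0) : P = 0 := by
  have := hd (P * C (∏ i ∈ Finset.range n₀, (X - C (x i)))) fun n => by
    rw [evalEval_mul]
    rcases lt_or_ge n n₀ with hn | hn
    · rw [prod_ev x hn, mul_zero]
    · rw [h n hn, zero_mul]
  exact (mul_eq_zero.1 this).resolve_right (prod_ne x n₀)

theorem pull (p : K[X]) (q P : K[X][Y]) :
    ∃ P' : K[X][Y], ∀ a b, P'.evalEval a b = P.evalEval (p.eval a) (q.evalEval a b) := by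
  induction P using Polynomial.induction_on' with
  | add P Q hP hQ =>
    obtain ⟨P', hP⟩ := hP
    obtain ⟨Q', hQ⟩ := hQ
    exact ⟨P' + Q', fun a b => by rw [evalEval_add, evalEval_add, hP, hQ]⟩
  | monomial n c =>
    refine ⟨C (c.comp p) * q ^ n, fun a b => ?_⟩
    rw [← C_mul_X_pow_eq_monomial, evalEval_mul, evalEval_mul, evalEval_pow, evalEval_pow,
      evalEval_C, evalEval_C, evalEval_X, eval_comp]

theorem shift (ho : Orb p q x y) (h : ℕ) (P : K[X][Y]) :
    ∃ P' : K[X][Y], ∀ n, P'.evalEval (x n) (y n) = P.evalEval (x (n + h)) (y (n + h)) := by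
  induction h with
  | zero => exact ⟨P, fun n => rfl⟩
  | succ h ih =>
    obtain ⟨Q, hQ⟩ := ih
    obtain ⟨Q', hQ'⟩ := pull p q Q
    refine ⟨Q', fun n => ?_⟩
    rw [hQ', ← ho.1, ← ho.2, hQ, add_assoc, add_comm 1 h]

theorem divides (U : Filter ℕ) (P : K[X][Y]) (hP0 : P ≠ 0)
    (hP : ∀ᶠ n in U, P.evalEval (x n) (y n) = 0)
    (hmin : ∀ S : K[X][Y], S ≠ 0 → (∀ᶠ n in U, S.evalEval (x n) (y n) = 0) →
      P.natDegree ≤ S.natDegree) (k : ℕ) :
    ∀ R : K[X][Y], R.natDegree = k → (∀ᶠ n in U, R.evalEval (x n) (y n) = 0) →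
      ∃ (c : K[X]) (W : K[X][Y]), c ≠ 0 ∧ C c * R = W * P := by
  induction k using Nat.strong_induction_on with
  | _ k ih =>
    intro R hk hR
    by_cases hR0 : R = 0
    · exact ⟨1, 0, one_ne_zero, by simp [hR0]⟩
    have hle := hmin R hR0 hR
    rcases Nat.eq_zero_or_pos R.natDegree with h0 | h0
    · have hP1 : P.natDegree = 0 := by omega
      refine ⟨P.leadingCoeff, R, leadingCoeff_ne_zero.2 hP0, ?_⟩
      rw [leadingCoeff, hP1, ← eq_C_of_natDegree_eq_zero hP1, mul_comm]
    · have hlt := natDegree_cancelLeads_lt_of_natDegree_le_natDegree hle h0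
      obtain ⟨c, W, hc, hW⟩ := ih _ (hk ▸ hlt) (P.cancelLeads R) rfl (by
        filter_upwards [hP, hR] with n h1 h2
        rw [cancelLeads, evalEval_sub, evalEval_mul, evalEval_mul _ _ _ P, h1, h2]
        simp)
      refine ⟨c * P.leadingCoeff, W + C c * C R.leadingCoeff * X ^ (R.natDegree - P.natDegree),
        mul_ne_zero hc (leadingCoeff_ne_zero.2 hP0), ?_⟩
      rw [cancelLeads, Nat.sub_eq_zero_of_le hle, pow_zero] at hW
      rw [C_mul]
      linear_combination hW

end UF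

theorem uf : S_UF := by
  let _ := Ultrafilter.add (M := ℕ)
  obtain ⟨U, hU, hF⟩ := Hindman.exists_idempotent_ultrafilter_le_FS (Stream'.const (1 : ℕ))
  have h1 : ∀ᶠ m in (U : Filter ℕ), 1 ≤ m := hF.mono fun m hm => UF.fs_pos hm fun i => by simp
  have key : ∀ A ∈ U, ∀ᶠ h in (U : Filter ℕ), ∀ᶠ n in (U : Filter ℕ), h + n ∈ A := fun A hA => by
    refine (Ultrafilter.eventually_add U U (· ∈ A)).1 ?_
    have e : U + U = U := hU
    rw [e]
    exact hA
  refine ⟨U, ?_, fun A hA => ?_⟩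
  · rcases U.le_cofinite_or_eq_pure with h | ⟨a, rfl⟩
    · rwa [Nat.cofinite_eq_atTop] at h
    · have h2 := key {a} (by simp)
      simp at h1 h2
      omega
  · obtain ⟨h, h2, h3⟩ := (h1.and (key A hA)).exists
    exact ⟨h, h2, h3.mono fun n hn => by simpa [add_comm] using hn⟩

theorem inj : S_INJ := by
  intro K _ p q x y ho hd
  have key : ∀ m n, m < n → x m ≠ x n := fun m n hmn he => by
    have h1 : ∀ k, ∃ j, j < n ∧ x k = x j := fun k => by
      induction k with
      | zero => exact ⟨0, by omega, rfl⟩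
      | succ k ih =>
        obtain ⟨j, hj, e⟩ := ih
        have e' : x (k + 1) = x (j + 1) := by rw [ho.1, ho.1, e]
        rcases lt_or_ge (j + 1) n with h | h
        · exact ⟨j + 1, h, e'⟩
        · exact ⟨m, hmn, by rw [e', he, show j + 1 = n by omega]⟩
    refine UF.prod_ne x n (hd _ fun k => ?_)
    obtain ⟨j, hj, e⟩ := h1 k
    rw [e]
    exact UF.prod_ev x hj _
  intro m n he
  rcases lt_trichotomy m n with h | h | h
  · exact absurd he (key m n h)
  · exact h
  · exact absurd he.symm (key n m h)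

theorem wdml : S_WDML := by
  classical
  intro K _ p q x y U ho hd hU P₀ hP₀
  by_contra hne
  have hex : ∃ k, ∃ P : K[X][Y], P ≠ 0 ∧
      (∀ᶠ n in (U : Filter ℕ), P.evalEval (x n) (y n) = 0) ∧ P.natDegree = k :=
    ⟨_, P₀, hne, hP₀, rfl⟩
  obtain ⟨P, hP0, hP, hk⟩ := Nat.find_spec hex
  obtain ⟨h, h1, hA⟩ := hU.2 {n | P.evalEval (x n) (y n) = 0} hP
  choose T hT using fun i => UF.shift ho i P
  obtain ⟨c, W, hc, hW⟩ := UF.divides (U : Filter ℕ) P hP0 hP
    (fun S hS0 hS => hk ▸ Nat.find_min' hex ⟨S, hS0, hS, rfl⟩) _ (T h) rfl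
    (Filter.Eventually.mono hA fun n hn => by rw [hT]; exact hn)
  have hfin : {n | c.eval (x n) = 0}.Finite :=
    (c.roots.toFinset.finite_toSet.preimage (inj K p q x y ho hd).injOn).subset fun n hn => by
      simpa [hc] using hn
  obtain ⟨n₁, hn₁⟩ := hfin.bddAbove
  obtain ⟨n₀, hz, hn₀⟩ := (hP.and (hU.1 (eventually_gt_atTop n₁))).exists
  have step : ∀ n, n₀ ≤ n → P.evalEval (x n) (y n) = 0 →
      P.evalEval (x (n + h)) (y (n + h)) = 0 := fun n hn hz => by
    have e := congrArg (evalEval (x n) (y n)) hW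
    rw [evalEval_mul, evalEval_mul, hz, mul_zero, evalEval_C, hT] at e
    refine (mul_eq_zero.1 e).resolve_left fun h0 => ?_
    have := hn₁ h0
    omega
  have all : ∀ n, n₀ ≤ n → ∃ i, i < h ∧ P.evalEval (x (n + i)) (y (n + i)) = 0 := fun n hn => by
    induction n, hn using Nat.le_induction with
    | base => exact ⟨0, h1, hz⟩
    | succ n hn ih =>
      obtain ⟨i, hi, e⟩ := ih
      rcases i with _ | i
      · exact ⟨h - 1, by omega, by rw [show n + 1 + (h - 1) = n + h by omega]; exact step n hn e⟩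
      · exact ⟨i, by omega, by rw [show n + 1 + i = n + (i + 1) by omega]; exact e⟩
  have hQ := UF.tail hd (∏ i ∈ Finset.range h, T i) n₀ fun n hn => by
    obtain ⟨i, hi, e⟩ := all n hn
    rw [evalEval_prod]
    exact Finset.prod_eq_zero (Finset.mem_range.2 hi) (by rw [hT, e])
  obtain ⟨i, -, hi⟩ := Finset.prod_eq_zero_iff.1 hQ
  refine hP0 (UF.tail hd P i fun n hn => ?_)
  have := hT i (n - i)
  rw [hi, evalEval_zero, Nat.sub_add_cancel hn] at this
  exact this.symm

end Pool.Agent.KSkew
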